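import Mathlib

-- merged part: Pool.Agent.Work.MP_8c604c_gt.TZ.Coh
section
/-!
Alexander-Spanier cohomology with coefficients in a commutative ring and with supports.

A `p`-cochain is a function of `p + 1` points; all degrees are handled at once by taking
functions on lists.  `H U Z` is the cohomology of the cochains that vanish locally at the points
of `U \ Z` modulo those that vanish locally at the points of `U`.  For `U` open, or locally closed
in a metrisable space, this is `H^*(U, U \ Z)`, the cohomology of `U` with supports in `Z`.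
-/

noncomputable section

set_option linter.unusedSectionVars false

namespace Pool.Agent.Work.MP_8c604c_gt.TZ

open Set Topology Finset

variable {R : Type} [CommRing R] {X Y : Type}

/-- Cochains form an additive monoid. -/
local instance chM (R : Type) [CommRing R] (X : Type) : AddCommMonoid (List X → R) := Pi.addCommMonoid

/-- The coboundary. -/
def dl : (List X → R) →ₗ[R] (List X → R) where
  toFun φ l := ∑ i ∈ range l.length, (-1) ^ i * φ (l.eraseIdx i)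
  map_add' φ ψ := by ext l; simp [mul_add, sum_add_distrib]
  map_smul' c φ := by ext l; simp [mul_sum, mul_left_comm]

/-- The cup product of cochains. -/
def cupc : (List X → R) →ₗ[R] (List X → R) →ₗ[R] (List X → R) :=
  LinearMap.mk₂ R (fun φ ψ l => ∑ i ∈ range l.length, φ (l.take (i + 1)) * ψ (l.drop i))
    (fun _ _ _ => by ext l; simp [add_mul, sum_add_distrib])
    (fun _ _ _ => by ext l; simp [mul_sum, mul_assoc])
    (fun _ _ _ => by ext l; simp [mul_add, sum_add_distrib])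
    (fun _ _ _ => by ext l; simp [mul_sum, mul_left_comm])

/-- The pull-back of cochains. -/
def pullc (f : X → Y) : (List Y → R) →ₗ[R] (List X → R) := LinearMap.funLeft R R (List.map f)

/-- The constant `0`-cochain `1`. -/
def onec : List X → R := fun l => if l.length = 1 then 1 else 0

variable [TopologicalSpace X] [TopologicalSpace Y]

/-- Cochains that vanish locally at every point of `U`. -/
def lz (R : Type) [CommRing R] (U : Set X) : Submodule R (List X → R) where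
  carrier := {φ | ∀ x ∈ U, ∃ V ∈ 𝓝 x, ∀ l : List X, (∀ y ∈ l, y ∈ V) → φ l = 0}
  add_mem' {φ ψ} h1 h2 x hx := by
    obtain ⟨V, hV, k1⟩ := h1 x hx
    obtain ⟨W, hW, k2⟩ := h2 x hx
    exact ⟨V ∩ W, Filter.inter_mem hV hW, fun l hl => by
      simp [k1 l fun y hy => (hl y hy).1, k2 l fun y hy => (hl y hy).2]⟩
  zero_mem' x _ := ⟨univ, Filter.univ_mem, fun _ _ => rfl⟩
  smul_mem' c φ h x hx := by
    obtain ⟨V, hV, k⟩ := h x hx
    exact ⟨V, hV, fun l hl => by simp [k l hl]⟩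

/-- Cochains of bounded degree. -/
def bd (R : Type) [CommRing R] (X : Type) : Submodule R (List X → R) where
  carrier := {φ | φ [] = 0 ∧ ∃ m, ∀ l : List X, m < l.length → φ l = 0}
  add_mem' := by
    rintro φ ψ ⟨h1, m, k1⟩ ⟨h2, m', k2⟩
    exact ⟨by simp [h1, h2], max m m', fun l hl => by
      simp [k1 l (lt_of_le_of_lt (le_max_left _ _) hl), k2 l (lt_of_le_of_lt (le_max_right _ _) hl)]⟩
  zero_mem' := ⟨rfl, 0, fun _ _ => rfl⟩
  smul_mem' := by
    rintro c φ ⟨h, m, k⟩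
    exact ⟨by simp [h], m, fun l hl => by simp [k l hl]⟩

/-- Cocycles on `U` with support in `Z`. -/
def Zc (R : Type) [CommRing R] (U Z : Set X) : Submodule R (List X → R) :=
  bd R X ⊓ (lz R U).comap dl ⊓ lz R (U \ Z)

/-- Coboundaries on `U` with support in `Z`. -/
def Bc (R : Type) [CommRing R] (U Z : Set X) : Submodule R (List X → R) :=
  (bd R X ⊓ lz R (U \ Z)).map dl ⊔ lz R U

/-- Cohomology of `U` with supports in `Z`. -/
abbrev H (R : Type) [CommRing R] (U Z : Set X) : Type :=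
  Zc R U Z ⧸ (Bc R U Z).comap (Zc R U Z).subtype

instance instHG (U Z : Set X) : AddCommGroup (H R U Z) := Submodule.Quotient.addCommGroup _

instance instHM (U Z : Set X) : AddCommMonoid (H R U Z) := Submodule.Quotient.addCommMonoid _

instance instHMod (U Z : Set X) : Module R (H R U Z) := Submodule.Quotient.module _

instance instHS (U Z : Set X) : SMul R (H R U Z) := (instHMod U Z).toSMul

instance instHC (U Z : Set X) : SMulCommClass R R (H R U Z) := ⟨smul_comm⟩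

instance instHZ (U Z : Set X) : Zero (H R U Z) := (instHM U Z).toZero

/-- The class of a cocycle. -/
def cls (U Z : Set X) (φ : List X → R) : H R U Z :=
  open Classical in if h : φ ∈ Zc R U Z then Submodule.Quotient.mk ⟨φ, h⟩ else 0

/-- `a` is homogeneous of degree `p`. -/
def IsDeg {U Z : Set X} (p : ℤ) (a : H R U Z) : Prop :=
  ∃ φ ∈ Zc R U Z, a = cls U Z φ ∧ ∀ l : List X, (l.length : ℤ) ≠ p + 1 → φ l = 0

/-- `f` is a map of pairs `(U, U \ Z) → (U', U' \ Z')`, continuous at the points of `U`. -/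
structure Adm (f : X → Y) (U Z : Set X) (U' Z' : Set Y) : Prop where
  cont : ∀ x ∈ U, ContinuousAt f x
  maps : MapsTo f U U'
  supp : MapsTo f (U \ Z) (U' \ Z')

/-- Pull-back along `f`; only the values of `f` on `U` are used.  It is `0` if `f` is not a
continuous map of pairs. -/
def pull (f : X → Y) (U Z : Set X) {U' Z' : Set Y} : H R U' Z' →ₗ[R] H R U Z :=
  open Classical in
  if h : ∃ g, EqOn f g U ∧ Adm g U Z U' Z' then
    epsilon fun L => ∀ φ ∈ Zc R U' Z', L (cls U' Z' φ) = cls U Z (pullc h.choose φ)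
  else 0

/-- `pull` as a function. -/
abbrev pullf (f : X → Y) (U Z : Set X) {U' Z' : Set Y} (a : H R U' Z') : H R U Z := pull f U Z a

/-- The sets for which the cup product `H U Z × H R U' Z' → H R U'' Z''` is defined: at a point of
`U''` both factors are defined or one of them vanishes. -/
structure CupOK (U Z U' Z' U'' Z'' : Set X) : Prop where
  left : U'' ⊆ (U \ Z) ∪ U'
  right : U'' ⊆ U ∪ (U' \ Z')
  supp : U'' \ Z'' ⊆ (U \ Z) ∪ (U' \ Z')

/-- The cup product; `0` if it is not defined for these sets. -/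
def cup (U'' Z'' : Set X) {U Z U' Z' : Set X} : H R U Z →ₗ[R] H R U' Z' →ₗ[R] H R U'' Z'' :=
  open Classical in
  if CupOK U Z U' Z' U'' Z'' then
    epsilon fun L => ∀ φ ∈ Zc R U Z, ∀ ψ ∈ Zc R U' Z',
      L (cls U Z φ) (cls U' Z' ψ) = cls U'' Z'' (cupc φ ψ)
  else 0

/-- The `1`-cocycle `θ (c y) - θ (c x)`, `θ` the indicator function of the positive reals. -/
def jump (c : X → ℝ) : List X → R
  | [x, y] => (if 0 < c y then 1 else 0) - if 0 < c x then 1 else 0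
  | _ => 0

/-- The orientation class of `ℂ ^ J` in `H^{2|J|}(ℂ ^ J, ℂ ^ J \ 0)`. -/
def orC (R : Type) [CommRing R] (J : Type) [Fintype J] : H R (univ : Set (J → ℂ)) {0} :=
  cls univ {0} ((Finset.univ : Finset J).toList.foldr
    (fun j φ => cupc (cupc (jump fun w => (w j).re) (jump fun w => (w j).im)) φ) onec)

/-- The orientation class of `ℝ ^ r` in `H^r(ℝ ^ r, ℝ ^ r \ 0)`. -/
def orR (R : Type) [CommRing R] (r : ℕ) : H R (univ : Set (Fin r → ℝ)) {0} :=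
  cls univ {0} ((List.finRange r).foldr (fun j φ => cupc (jump fun w => w j) φ) onec)

/-- The sign `(-1) ^ p`. -/
def sg (R : Type) [CommRing R] (p : ℤ) : R := (-1) ^ p.natAbs

end Pool.Agent.Work.MP_8c604c_gt.TZ
end
end

-- merged part: Pool.Agent.Work.MP_8c604c_gt.TZ.CohL
section
/-!
The pull-back and the cup product are well defined.
-/

noncomputable section

set_option linter.unusedSectionVars false

namespace Pool.Agent.Work.MP_8c604c_gt.TZ

open Set Topology Finset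

variable {R : Type} [CommRing R] {X Y : Type}

/-- The sign `(-1) ^ p` on `p`-cochains. -/
def sgc (φ : List X → R) : List X → R := fun l => (-1) ^ (l.length + 1) * φ l

theorem dl_apply (φ : List X → R) (l : List X) :
    dl φ l = ∑ i ∈ range l.length, (-1) ^ i * φ (l.eraseIdx i) := rfl

theorem cupc_apply (φ ψ : List X → R) (l : List X) :
    cupc φ ψ l = ∑ i ∈ range l.length, φ (l.take (i + 1)) * ψ (l.drop i) := rfl

theorem pullc_apply (f : X → Y) (φ : List Y → R) (l : List X) : pullc f φ l = φ (l.map f) := rfl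

theorem dl_nil (φ : List X → R) : dl φ [] = 0 := rfl

theorem dl_cons (φ : List X → R) (a : X) (l : List X) :
    dl φ (a :: l) = φ l - dl (fun m => φ (a :: m)) l := by
  simp [dl, sum_range_succ', pow_succ, sub_eq_add_neg, add_comm]

theorem cupc_nil (φ ψ : List X → R) : cupc φ ψ [] = 0 := rfl

theorem cupc_cons (φ ψ : List X → R) (a : X) (l : List X) :
    cupc φ ψ (a :: l) = φ [a] * ψ (a :: l) + cupc (fun m => φ (a :: m)) ψ l := by
  simp [cupc, sum_range_succ', add_comm]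

theorem dl_cupc_aux (ψ : List X → R) (hψ : ψ [] = 0) (l : List X) : ∀ φ : List X → R,
    dl (cupc φ ψ) l = cupc (dl φ) ψ l + cupc (sgc φ) (dl ψ) l - φ [] * ψ l := by
  induction l with
  | nil => intro φ; simp [dl_nil, cupc_nil, hψ]
  | cons a l ih =>
    intro φ
    have e1 : (fun m => cupc φ ψ (a :: m)) =
        φ [a] • (fun m => ψ (a :: m)) + cupc (fun m => φ (a :: m)) ψ :=
      funext fun m => cupc_cons φ ψ a m
    have e2 : (fun m => dl φ (a :: m)) = φ - dl fun m => φ (a :: m) :=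
      funext fun m => dl_cons φ a m
    have e3 : (fun m => sgc φ (a :: m)) = -sgc fun m => φ (a :: m) := by
      ext m; simp [sgc, pow_succ]
    rw [dl_cons, e1, map_add, map_smul, cupc_cons, cupc_cons, e2, e3, map_sub, map_neg,
      dl_cons φ, dl_cons ψ]
    simp only [Pi.add_apply, Pi.smul_apply, smul_eq_mul, ih, LinearMap.sub_apply,
      LinearMap.neg_apply, Pi.sub_apply, Pi.neg_apply, dl_nil, sgc, List.length_singleton]
    ring

theorem dl_cupc {φ ψ : List X → R} (hφ : φ [] = 0) (hψ : ψ [] = 0) :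
    dl (cupc φ ψ) = cupc (dl φ) ψ + cupc (sgc φ) (dl ψ) := by
  ext l; simp [dl_cupc_aux ψ hψ, hφ]

theorem dl_pullc (f : X → Y) (φ : List Y → R) : dl (pullc f φ) = pullc f (dl φ) := by
  ext l; simp [dl, pullc, LinearMap.funLeft_apply, List.eraseIdx_map]

variable [TopologicalSpace X] [TopologicalSpace Y]

theorem lz_pullc {f : X → Y} {U : Set X} {U' : Set Y} (hf : ∀ x ∈ U, ContinuousAt f x)
    (hU : MapsTo f U U') {φ : List Y → R} (h : φ ∈ lz R U') : pullc f φ ∈ lz R U := fun x hx => by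
  obtain ⟨V, hV, k⟩ := h _ (hU hx)
  exact ⟨f ⁻¹' V, hf x hx hV, fun l hl => k _ (by simpa using hl)⟩

theorem bd_pullc (f : X → Y) {φ : List Y → R} (h : φ ∈ bd R Y) : pullc f φ ∈ bd R X :=
  ⟨h.1, h.2.imp fun _ k l hl => k _ (by simpa using hl)⟩

/-- Pull-back along a map of pairs. -/
def pull0 {f : X → Y} {U Z : Set X} {U' Z' : Set Y} (h : Adm f U Z U' Z') :
    H R U' Z' →ₗ[R] H R U Z :=
  Submodule.mapQ _ _
    ((pullc f).restrict fun φ k => ⟨⟨bd_pullc f k.1.1, by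
      have := lz_pullc h.cont h.maps k.1.2
      rwa [← dl_pullc] at this⟩, lz_pullc (fun x hx => h.cont x hx.1) h.supp k.2⟩)
    fun φ k => by
      obtain ⟨_, ⟨ψ, k1, rfl⟩, η, k2, e⟩ := Submodule.mem_sup.1 k
      exact Submodule.mem_sup.2 ⟨_, ⟨pullc f ψ, ⟨bd_pullc f k1.1,
        lz_pullc (fun x hx => h.cont x hx.1) h.supp k1.2⟩, rfl⟩, _, lz_pullc h.cont h.maps k2, by
          rw [dl_pullc, ← map_add, e]; rfl⟩

theorem cls_mk {U Z : Set X} (φ : Zc R U Z) : cls U Z φ.1 = Submodule.Quotient.mk φ := dif_pos φ.2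

theorem pull_eq {f : X → Y} {U Z : Set X} {U' Z' : Set Y} (h : ∃ g, EqOn f g U ∧ Adm g U Z U' Z') :
    pull (R := R) f U Z = pull0 h.choose_spec.2 := by
  have e : ∀ φ ∈ Zc R U' Z',
      pull0 h.choose_spec.2 (cls U' Z' φ) = cls U Z (pullc h.choose φ) := fun φ k => by
    rw [cls_mk ⟨φ, k⟩]; exact (cls_mk _).symm
  have e' := Classical.epsilon_spec (p := fun L : H R U' Z' →ₗ[R] H R U Z =>
    ∀ φ ∈ Zc R U' Z', L (cls U' Z' φ) = cls U Z (pullc h.choose φ)) ⟨_, e⟩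
  rw [pull, dif_pos h]
  exact LinearMap.ext fun a => Submodule.Quotient.induction_on _ a fun φ => by
    rw [← cls_mk, e' _ φ.2, e _ φ.2]

theorem cupc_lz {φ ψ : List X → R} {A B C : Set X} (h1 : φ ∈ lz R A) (h2 : ψ ∈ lz R B)
    (h : C ⊆ A ∪ B) : cupc φ ψ ∈ lz R C := fun x hx => by
  rcases h hx with k | k
  · obtain ⟨V, hV, k⟩ := h1 x k
    exact ⟨V, hV, fun l hl => (cupc_apply _ _ _).trans <| sum_eq_zero fun i _ => by
      rw [k _ fun y hy => hl y (List.mem_of_mem_take hy), zero_mul]⟩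
  · obtain ⟨V, hV, k⟩ := h2 x k
    exact ⟨V, hV, fun l hl => (cupc_apply _ _ _).trans <| sum_eq_zero fun i _ => by
      rw [k _ fun y hy => hl y (List.mem_of_mem_drop hy), mul_zero]⟩

theorem cupc_bd {φ ψ : List X → R} (h1 : φ ∈ bd R X) (h2 : ψ ∈ bd R X) : cupc φ ψ ∈ bd R X := by
  obtain ⟨-, m, k⟩ := h1
  obtain ⟨-, m', k'⟩ := h2
  refine ⟨rfl, m + m', fun l hl => (cupc_apply _ _ _).trans <| sum_eq_zero fun i hi => ?_⟩
  have := Finset.mem_range.1 hi
  by_cases h : m ≤ i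
  · rw [k _ (by simp; omega), zero_mul]
  · rw [k' _ (by simp; omega), mul_zero]

theorem sgc_lz {φ : List X → R} {A : Set X} (h : φ ∈ lz R A) : sgc φ ∈ lz R A := fun x hx =>
  (h x hx).imp fun _ k => ⟨k.1, fun l hl => by simp [sgc, k.2 l hl]⟩

theorem sgc_bd {φ : List X → R} (h : φ ∈ bd R X) : sgc φ ∈ bd R X :=
  ⟨by simp [sgc, h.1], h.2.imp fun _ k l hl => by simp [sgc, k l hl]⟩

theorem sgc_sgc (φ : List X → R) : sgc (sgc φ) = φ := by
  ext l; simp [sgc, ← mul_assoc, ← mul_pow]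

theorem dl_sgc (φ : List X → R) : dl (sgc φ) = -sgc (dl φ) := by
  ext l
  simp only [dl, sgc, LinearMap.coe_mk, AddHom.coe_mk, Pi.neg_apply, mul_sum, ← sum_neg_distrib]
  refine sum_congr rfl fun i hi => ?_
  have := Finset.mem_range.1 hi
  rw [List.length_eraseIdx_of_lt this, Nat.sub_add_cancel (by omega), pow_succ]
  ring

theorem dl_lz {φ : List X → R} {A : Set X} (h : φ ∈ lz R A) : dl φ ∈ lz R A := fun x hx =>
  (h x hx).imp fun _ k => ⟨k.1, fun l hl => (dl_apply _ _).trans <| sum_eq_zero fun i _ => by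
    rw [k.2 _ fun y hy => hl y (List.mem_of_mem_eraseIdx hy), mul_zero]⟩

theorem CupOK.zc {U Z U' Z' U'' Z'' : Set X} (h : CupOK U Z U' Z' U'' Z'') {φ ψ : List X → R}
    (h1 : φ ∈ Zc R U Z) (h2 : ψ ∈ Zc R U' Z') : cupc φ ψ ∈ Zc R U'' Z'' :=
  ⟨⟨cupc_bd h1.1.1 h2.1.1, by
    change dl _ ∈ lz R U''
    rw [dl_cupc h1.1.1.1 h2.1.1.1]
    exact add_mem (cupc_lz h1.1.2 h2.2 h.right) (cupc_lz (sgc_lz h1.2) h2.1.2 h.left)⟩,
    cupc_lz h1.2 h2.2 h.supp⟩

theorem CupOK.bc_left {U Z U' Z' U'' Z'' : Set X} (h : CupOK U Z U' Z' U'' Z'')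
    {φ ψ : List X → R} (h1 : φ ∈ Bc R U Z) (h2 : ψ ∈ Zc R U' Z') : cupc φ ψ ∈ Bc R U'' Z'' := by
  obtain ⟨_, ⟨α, k1, rfl⟩, η, k2, rfl⟩ := Submodule.mem_sup.1 h1
  refine Submodule.mem_sup.2 ⟨_, ⟨cupc α ψ, ⟨cupc_bd k1.1 h2.1.1, cupc_lz k1.2 h2.2 h.supp⟩, rfl⟩,
    _, sub_mem (cupc_lz k2 h2.2 h.right) (cupc_lz (sgc_lz k1.2) h2.1.2 h.left), ?_⟩
  rw [dl_cupc k1.1.1 h2.1.1.1, map_add, LinearMap.add_apply]
  abel

theorem CupOK.bc_right {U Z U' Z' U'' Z'' : Set X} (h : CupOK U Z U' Z' U'' Z'')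
    {φ ψ : List X → R} (h1 : φ ∈ Zc R U Z) (h2 : ψ ∈ Bc R U' Z') : cupc φ ψ ∈ Bc R U'' Z'' := by
  obtain ⟨_, ⟨α, k1, rfl⟩, η, k2, rfl⟩ := Submodule.mem_sup.1 h2
  refine Submodule.mem_sup.2 ⟨_, ⟨cupc (sgc φ) α, ⟨cupc_bd (sgc_bd h1.1.1) k1.1,
    cupc_lz (sgc_lz h1.2) k1.2 h.supp⟩, rfl⟩, _,
    add_mem (cupc_lz h1.2 k2 h.left) (cupc_lz (sgc_lz h1.1.2) k1.2 h.right), ?_⟩
  rw [dl_cupc (sgc_bd h1.1.1).1 k1.1.1, sgc_sgc, dl_sgc, map_add, map_neg, LinearMap.neg_apply]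
  abel

/-- The cup product on classes. -/
def cup0 {U Z U' Z' U'' Z'' : Set X} (h : CupOK U Z U' Z' U'' Z'') :
    H R U Z →ₗ[R] H R U' Z' →ₗ[R] H R U'' Z'' :=
  Submodule.liftQ _
    (LinearMap.flip (Submodule.liftQ _
      (LinearMap.mk₂ R (fun (ψ : Zc R U' Z') (φ : Zc R U Z) =>
          (Submodule.Quotient.mk ⟨cupc φ.1 ψ.1, h.zc φ.2 ψ.2⟩ : H R U'' Z''))
        (fun _ _ _ => by rw [← Submodule.Quotient.mk_add]; congr 1; ext1; simp)
        (fun _ _ _ => by rw [← Submodule.Quotient.mk_smul]; congr 1; ext1; simp)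
        (fun _ _ _ => by rw [← Submodule.Quotient.mk_add]; congr 1; ext1; simp)
        (fun _ _ _ => by rw [← Submodule.Quotient.mk_smul]; congr 1; ext1; simp))
      fun ψ k => LinearMap.ext fun φ =>
        (Submodule.Quotient.mk_eq_zero _).2 (h.bc_right φ.2 k)))
    fun φ k => LinearMap.ext fun b => Submodule.Quotient.induction_on _ b fun ψ =>
      (Submodule.Quotient.mk_eq_zero _).2 (h.bc_left k ψ.2)

theorem cup_eq {U Z U' Z' U'' Z'' : Set X} (h : CupOK U Z U' Z' U'' Z'') :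
    cup (R := R) U'' Z'' = cup0 h := by
  have e : ∀ φ ∈ Zc R U Z, ∀ ψ ∈ Zc R U' Z',
      cup0 h (cls U Z φ) (cls U' Z' ψ) = cls U'' Z'' (cupc φ ψ) := fun φ k ψ k' => by
    rw [cls_mk ⟨φ, k⟩, cls_mk ⟨ψ, k'⟩]; exact (cls_mk ⟨_, h.zc k k'⟩).symm
  have e' := Classical.epsilon_spec (p := fun L : H R U Z →ₗ[R] H R U' Z' →ₗ[R] H R U'' Z'' =>
    ∀ φ ∈ Zc R U Z, ∀ ψ ∈ Zc R U' Z', L (cls U Z φ) (cls U' Z' ψ) = cls U'' Z'' (cupc φ ψ)) ⟨_, e⟩
  rw [cup, if_pos h]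
  exact LinearMap.ext fun a => Submodule.Quotient.induction_on _ a fun φ =>
    LinearMap.ext fun b => Submodule.Quotient.induction_on _ b fun ψ => by
      rw [← cls_mk, ← cls_mk, e' _ φ.2 _ ψ.2, e _ φ.2 _ ψ.2]

end Pool.Agent.Work.MP_8c604c_gt.TZ
end
end

-- merged part: Pool.Agent.Work.MP_8c604c_gt.TZ.Cx
section
/-! Complexes inside one module, mapping cones and the local to global principle. -/

noncomputable section

namespace Pool.Agent.Work.MP_8c604c_gt.TZ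

open Set Topology Filter TopologicalSpace

/-- Induction over open covers of a second countable regular space. -/
theorem cover_ind {T : Type} [TopologicalSpace T] [RegularSpace T] [SecondCountableTopology T]
    (P : Set T → Prop) (S : Set T) (h0 : P ∅)
    (mono : ∀ W W', IsOpen W → IsOpen W' → W' ⊆ W → P W → P W')
    (un : ∀ W W', IsOpen W → IsOpen W' → P W → P W' → P (W ∪ W'))
    (sum : ∀ W : ℕ → Set T, (∀ k, IsOpen (W k)) → Pairwise (fun j k => Disjoint (W j) (W k)) →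
      (∀ k, P (W k)) → P (⋃ k, W k))
    (loc : ∀ a ∈ S, ∃ W, IsOpen W ∧ a ∈ W ∧ P W) : ∃ W, IsOpen W ∧ S ⊆ W ∧ P W := by
  let _ := pseudoMetrizableSpacePseudoMetric T
  obtain ⟨C, hC, hCc, hCu⟩ := isOpen_sUnion_countable {W | IsOpen W ∧ P W} fun _ h => h.1
  obtain ⟨V, hV⟩ := (hC.insert ∅).exists_eq_range (insert_nonempty _ _)
  have hVP : ∀ m, IsOpen (V m) ∧ P (V m) := fun m => by
    have : V m ∈ insert ∅ C := hV ▸ mem_range_self m
    rcases this with h | h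
    · rw [h]; exact ⟨isOpen_empty, h0⟩
    · exact hCc h
  let U : ℕ → Set T := fun m => ⋃ j ≤ m, V j
  have hUo : ∀ m, IsOpen (U m) := fun m => isOpen_biUnion fun j _ => (hVP j).1
  have hUP : ∀ m, P (U m) := fun m => by
    induction m with
    | zero => simpa [U] using (hVP 0).2
    | succ m ih =>
      have : U (m + 1) = U m ∪ V (m + 1) := biUnion_le_succ V m
      rw [this]; exact un _ _ (hUo m) (hVP _).1 ih (hVP _).2
  let e : ℕ → ENNReal := fun m => ((m : ENNReal) + 1)⁻¹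
  let G : ℕ → Set T := fun m => ⋃ j ≤ m, {x | e m < Metric.infEDist x (V j)ᶜ}
  let F : ℕ → Set T := fun m => ⋃ j ≤ m, {x | e m ≤ Metric.infEDist x (V j)ᶜ}
  have hGo : ∀ m, IsOpen (G m) := fun m => isOpen_biUnion fun j _ =>
    isOpen_lt continuous_const Metric.continuous_infEDist
  have hFc : ∀ m, IsClosed (F m) := fun m => (finite_le_nat m).isClosed_biUnion fun j _ =>
    isClosed_le continuous_const Metric.continuous_infEDist
  have he : ∀ m n, m < n → e n < e m := fun m n h => by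
    simp only [e]
    rw [ENNReal.inv_lt_inv]
    exact_mod_cast Nat.succ_lt_succ h
  have hFG : ∀ m n, m < n → F m ⊆ G n := fun m n h x hx => by
    simp only [F, G, mem_iUnion, mem_ofPred_eq] at hx ⊢
    obtain ⟨j, hj, k⟩ := hx
    exact ⟨j, by omega, (he m n h).trans_le k⟩
  have hGF : ∀ m, G m ⊆ F m := fun m x hx => by
    simp only [F, G, mem_iUnion, mem_ofPred_eq] at hx ⊢
    obtain ⟨j, hj, k⟩ := hx
    exact ⟨j, hj, k.le⟩
  have hGU : ∀ m, G m ⊆ U m := fun m x hx => by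
    simp only [U, G, mem_iUnion, mem_ofPred_eq] at hx ⊢
    obtain ⟨j, hj, k⟩ := hx
    refine ⟨j, hj, by_contra fun hc => ?_⟩
    rw [Metric.infEDist_zero_of_mem (show x ∈ (V j)ᶜ from hc)] at k
    exact absurd k (not_lt.2 (zero_le))
  let W : ℕ → Set T := fun k => G k \ {x | ∃ j, j + 2 = k ∧ x ∈ F j}
  have hWo : ∀ k, IsOpen (W k) := fun k => (hGo k).sdiff (by
    by_cases h : 2 ≤ k
    · convert hFc (k - 2) using 1
      ext x
      exact ⟨fun ⟨j, h1, h2⟩ => by rwa [show k - 2 = j by omega], fun h2 => ⟨_, by omega, h2⟩⟩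
    · convert isClosed_empty (X := T) using 1
      ext x
      exact ⟨fun ⟨j, h1, h2⟩ => by omega, False.elim⟩)
  have hWP : ∀ k, P (W k) := fun k =>
    mono _ _ (hUo k) (hWo k) (sdiff_subset.trans (hGU k)) (hUP k)
  have hd : ∀ j k, j + 2 ≤ k → Disjoint (W j) (W k) := fun j k h => by
    rw [Set.disjoint_left]
    intro x h1 h2
    refine h2.2 ⟨k - 2, by omega, ?_⟩
    rcases (show j ≤ k - 2 by omega).eq_or_lt with h3 | h3
    · exact h3 ▸ hGF j h1.1
    · exact hGF _ (hFG _ _ h3 (hGF j h1.1))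
  have hs : ∀ r, P (⋃ k, W (2 * k + r)) := fun r => sum _ (fun _ => hWo _) (fun j k h => by
    rcases lt_or_gt_of_ne h with h | h
    · exact hd _ _ (by omega)
    · exact (hd _ _ (by omega)).symm) fun _ => hWP _
  refine ⟨_, (isOpen_iUnion fun _ => hWo _).union (isOpen_iUnion fun _ => hWo _), fun x hx => ?_,
    un _ _ (isOpen_iUnion fun _ => hWo _) (isOpen_iUnion fun _ => hWo _) (hs 0) (hs 1)⟩
  obtain ⟨O, h1, h2, h3⟩ := loc x hx
  have : x ∈ ⋃₀ C := hCu ▸ ⟨O, ⟨h1, h3⟩, h2⟩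
  obtain ⟨O', h4, h5⟩ := this
  obtain ⟨j, rfl⟩ : O' ∈ range V := hV ▸ mem_insert_of_mem _ h4
  have hp : 0 < Metric.infEDist x (V j)ᶜ :=
    Metric.infEDist_pos_iff_notMem_closure.2 (by rw [(hVP j).1.isClosed_compl.closure_eq]; simpa)
  obtain ⟨n, hn⟩ := ENNReal.exists_inv_nat_lt hp.ne'
  have hex : ∃ m, x ∈ G m := ⟨max n j, mem_biUnion (le_max_right n j) (lt_of_le_of_lt (by
    simp only [e]
    rw [ENNReal.inv_le_inv]
    exact_mod_cast (le_max_left n j).trans (Nat.le_succ _)) hn)⟩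
  classical
  have hxW : x ∈ W (Nat.find hex) := ⟨Nat.find_spec hex, fun ⟨i, k1, k2⟩ =>
    Nat.find_min hex (show i + 1 < Nat.find hex by omega) (hFG _ _ (by omega) k2)⟩
  rcases Nat.even_or_odd' (Nat.find hex) with ⟨k, h | h⟩
  · exact Or.inl (mem_iUnion.2 ⟨k, by rwa [h] at hxW⟩)
  · exact Or.inr (mem_iUnion.2 ⟨k, by rwa [h] at hxW⟩)

/-- A bounded below complex inside one module, with truncation operators. -/
structure Cx (Λ : Type) [CommRing Λ] (M : Type) [AddCommGroup M] [Module Λ M] where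
  d : M →ₗ[Λ] M
  B : Submodule Λ M
  tr : ℤ → M →ₗ[Λ] M
  dB : ∀ x ∈ B, d x ∈ B
  trB : ∀ p, ∀ x ∈ B, tr p x ∈ B
  tr_tr : ∀ p x, tr p (tr p x) = tr p x
  d_tr : ∀ p x, d (tr p x) = tr (p + 1) (d x)
  bdd : ∀ x ∈ B, ∀ᶠ p in atTop, tr p x = x
  low : ∀ᶠ p in atBot, tr p = 0

namespace Cx

variable {Λ : Type} [CommRing Λ] {M M' : Type} [AddCommGroup M] [Module Λ M] [AddCommGroup M']
  [Module Λ M']

/-- `Q / P` is acyclic. -/
def Acyc (K : Cx Λ M) (P Q : Submodule Λ M) : Prop :=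
  ∀ x ∈ K.B, x ∈ Q → K.d x ∈ P → ∃ y ∈ K.B, y ∈ Q ∧ x - K.d y ∈ P

variable {K : Cx Λ M} {K' : Cx Λ M'} {P Q R : Submodule Λ M} {P' Q' R' : Submodule Λ M'}

theorem Acyc.left (hPQ : P ≤ Q) (hQR : Q ≤ R) (dd : ∀ x ∈ K.B, x ∈ R → K.d (K.d x) ∈ P)
    (h1 : K.Acyc P R) (h2 : K.Acyc Q R) : K.Acyc P Q := fun x xB xQ xP => by
  obtain ⟨y, yB, yR, hy⟩ := h1 x xB (hQR xQ) xP
  obtain ⟨z, zB, zR, hz⟩ := h2 y yB yR (by simpa using Q.sub_mem xQ (hPQ hy))
  refine ⟨y - K.d z, sub_mem yB (K.dB _ zB), hz, ?_⟩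
  convert P.add_mem hy (dd z zB zR) using 1
  rw [map_sub]; abel

theorem Acyc.mid (hPQ : P ≤ Q) (hQR : Q ≤ R) (dd : ∀ x ∈ K.B, x ∈ R → K.d (K.d x) ∈ P)
    (h1 : K.Acyc P Q) (h2 : K.Acyc Q R) : K.Acyc P R := fun x xB xR xP => by
  obtain ⟨y, yB, yR, hy⟩ := h2 x xB xR (hPQ xP)
  obtain ⟨z, zB, zQ, hz⟩ := h1 _ (sub_mem xB (K.dB _ yB)) hy (by
    rw [map_sub]; exact sub_mem xP (dd y yB yR))
  refine ⟨y + z, add_mem yB zB, add_mem yR (hQR zQ), ?_⟩
  convert hz using 1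
  rw [map_add]; abel

theorem Acyc.right (hPQ : P ≤ Q) (hQR : Q ≤ R) (dd : ∀ x ∈ K.B, x ∈ R → K.d (K.d x) ∈ P)
    (h1 : K.Acyc P Q) (h2 : K.Acyc P R) : K.Acyc Q R := fun x xB xR xQ => by
  obtain ⟨y, yB, yQ, hy⟩ := h1 _ (K.dB _ xB) xQ (dd x xB xR)
  obtain ⟨z, zB, zR, hz⟩ := h2 (x - y) (sub_mem xB yB) (sub_mem xR (hQR yQ)) (by rwa [map_sub])
  refine ⟨z, zB, zR, ?_⟩
  convert Q.add_mem (hPQ hz) yQ using 1
  abel

/-- `T` preserves boundedness and commutes with truncation. -/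
structure IsCh (K : Cx Λ M) (K' : Cx Λ M') (T : M →ₗ[Λ] M') : Prop where
  bd : ∀ x ∈ K.B, T x ∈ K'.B
  tr : ∀ p x, T (K.tr p x) = K'.tr p (T x)
  dd : ∀ x, K.d (K.d x) = 0
  dd' : ∀ x, K'.d (K'.d x) = 0

/-- `T` is a chain map `Q / P → Q' / P'`. -/
structure IsPair (K : Cx Λ M) (K' : Cx Λ M') (T : M →ₗ[Λ] M') (P Q : Submodule Λ M)
    (P' Q' : Submodule Λ M') : Prop where
  mapP : ∀ x ∈ P, T x ∈ P'
  mapQ : ∀ x ∈ Q, T x ∈ Q'
  comm : ∀ x ∈ K.B, x ∈ Q → K'.d (T x) - T (K.d x) ∈ P'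

/-- `T : Q / P → Q' / P'` is a quasi-isomorphism. -/
structure QI (K : Cx Λ M) (K' : Cx Λ M') (T : M →ₗ[Λ] M') (P Q : Submodule Λ M)
    (P' Q' : Submodule Λ M') : Prop where
  inj : ∀ x ∈ K.B, x ∈ Q → K.d x ∈ P → ∀ y ∈ K'.B, y ∈ Q' → T x - K'.d y ∈ P' →
    ∃ z ∈ K.B, z ∈ Q ∧ x - K.d z ∈ P
  surj : ∀ y ∈ K'.B, y ∈ Q' → K'.d y ∈ P' → ∃ x ∈ K.B, x ∈ Q ∧ K.d x ∈ P ∧
    ∃ z ∈ K'.B, z ∈ Q' ∧ y - T x - K'.d z ∈ P'

variable {T : M →ₗ[Λ] M'}

/-- The mapping cone. -/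
def cone (hT : IsCh K K' T) : Cx Λ (M × M') where
  d := LinearMap.prod (-(K.d ∘ₗ LinearMap.fst Λ M M'))
    (T ∘ₗ LinearMap.fst Λ M M' + K'.d ∘ₗ LinearMap.snd Λ M M')
  B := K.B.prod K'.B
  tr p := (K.tr (p + 1)).prodMap (K'.tr p)
  dB x hx := ⟨neg_mem (K.dB _ hx.1), add_mem (hT.bd _ hx.1) (K'.dB _ hx.2)⟩
  trB p x hx := ⟨K.trB _ _ hx.1, K'.trB _ _ hx.2⟩
  tr_tr p x := by simp [K.tr_tr, K'.tr_tr]
  d_tr p x := by simp [K.d_tr, K'.d_tr, hT.tr]
  bdd x hx := by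
    filter_upwards [(tendsto_atTop_add_const_right _ 1 tendsto_id).eventually (K.bdd _ hx.1),
      K'.bdd _ hx.2] with p h1 h2
    exact Prod.ext h1 h2
  low := by
    filter_upwards [(tendsto_atBot_add_const_right _ 1 tendsto_id).eventually K.low,
      K'.low] with p h1 h2
    simp only [id] at h1
    rw [h1, h2]; ext <;> simp

theorem cone_d (hT : IsCh K K' T) (x : M) (y : M') :
    (cone hT).d (x, y) = (-K.d x, T x + K'.d y) := rfl

theorem cone_acyc_iff (hT : IsCh K K' T) (h : IsPair K K' T P Q P' Q') :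
    (cone hT).Acyc (P.prod P') (Q.prod Q') ↔ QI K K' T P Q P' Q' := by
  constructor
  · intro hA
    constructor
    · intro x xB xQ xP y yB yQ hy
      obtain ⟨⟨u, v⟩, u1, u2, u3⟩ := hA (x, -y) ⟨xB, neg_mem yB⟩ ⟨xQ, neg_mem yQ⟩
        ⟨neg_mem xP, by simpa [cone_d, sub_eq_add_neg] using hy⟩
      exact ⟨-u, neg_mem u1.1, neg_mem u2.1, by simpa [cone_d] using u3.1⟩
    · intro y yB yQ yP
      obtain ⟨⟨u, v⟩, u1, u2, u3⟩ := hA (0, y) ⟨zero_mem _, yB⟩ ⟨zero_mem _, yQ⟩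
        ⟨by simp [cone_d], by simpa [cone_d] using yP⟩
      exact ⟨u, u1.1, u2.1, by simpa [cone_d] using u3.1, v, u1.2, u2.2, by
        simpa [cone_d, sub_sub] using u3.2⟩
  · rintro hq ⟨x, y⟩ ⟨g1, g2⟩ ⟨q1, q2⟩ ⟨p1, p2⟩
    have p1' : K.d x ∈ P := by simpa [cone_d] using p1
    have p2' : T x + K'.d y ∈ P' := p2
    obtain ⟨u, u1, u2, u3⟩ := hq.inj x g1 q1 p1' (-y) (neg_mem g2) (neg_mem q2) (by simpa using p2')
    obtain ⟨w, w1, w2, w3, v, v1, v2, v3⟩ := hq.surj (y + T u) (add_mem g2 (hT.bd _ u1))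
      (add_mem q2 (h.mapQ _ u2)) (by
        convert add_mem (P'.sub_mem p2' (h.mapP _ u3)) (h.comm u u1 u2) using 1
        rw [map_add, map_sub]; abel)
    refine ⟨(w - u, v), ⟨sub_mem w1 u1, v1⟩, ⟨sub_mem w2 u2, v2⟩, ?_, ?_⟩
    · change x - (-K.d (w - u)) ∈ P
      convert P.add_mem u3 w3 using 1
      rw [map_sub]; abel
    · change y - (T (w - u) + K'.d v) ∈ P'
      convert v3 using 1
      rw [map_sub]; abel

theorem cone_dd (hT : IsCh K K' T) (h : IsPair K K' T P Q P' Q') :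
    ∀ x ∈ (cone hT).B, x ∈ Q.prod Q' → (cone hT).d ((cone hT).d x) ∈ P.prod P' := by
  rintro ⟨x, y⟩ ⟨h1, -⟩ ⟨h3, -⟩
  refine ⟨by simp [cone_d, hT.dd x], ?_⟩
  change T (-K.d x) + K'.d (T x + K'.d y) ∈ P'
  convert h.comm x h1 h3 using 1
  simp only [map_neg, map_add, hT.dd' y]
  abel

section Five
variable (hT : IsCh K K' T) (h1 : P ≤ Q) (h2 : Q ≤ R) (h1' : P' ≤ Q') (h2' : Q' ≤ R')
  (a : IsPair K K' T P Q P' Q') (b : IsPair K K' T P R P' R') (c : IsPair K K' T Q R Q' R')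
include hT h1 h2 h1' h2' a b c

theorem QI.left (k1 : QI K K' T P R P' R') (k2 : QI K K' T Q R Q' R') : QI K K' T P Q P' Q' :=
  (cone_acyc_iff hT a).1 (Acyc.left (Submodule.prod_mono h1 h1') (Submodule.prod_mono h2 h2')
    (cone_dd hT b) ((cone_acyc_iff hT b).2 k1) ((cone_acyc_iff hT c).2 k2))

theorem QI.mid (k1 : QI K K' T P Q P' Q') (k2 : QI K K' T Q R Q' R') : QI K K' T P R P' R' :=
  (cone_acyc_iff hT b).1 (Acyc.mid (Submodule.prod_mono h1 h1') (Submodule.prod_mono h2 h2')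
    (cone_dd hT b) ((cone_acyc_iff hT a).2 k1) ((cone_acyc_iff hT c).2 k2))

theorem QI.right (k1 : QI K K' T P Q P' Q') (k2 : QI K K' T P R P' R') : QI K K' T Q R Q' R' :=
  (cone_acyc_iff hT c).1 (Acyc.right (Submodule.prod_mono h1 h1') (Submodule.prod_mono h2 h2')
    (cone_dd hT b) ((cone_acyc_iff hT a).2 k1) ((cone_acyc_iff hT b).2 k2))

end Five

variable {S : Type} [TopologicalSpace S]

/-- A family of null submodules indexed by the subsets of a space. -/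
structure Loc (K : Cx Λ M) (N : Set S → Submodule Λ M) : Prop where
  dN : ∀ W, ∀ x ∈ N W, K.d x ∈ N W
  ddN : ∀ W, ∀ x ∈ K.B, x ∈ N ∅ → K.d (K.d x) ∈ N W
  trN : ∀ W p, ∀ x ∈ N W, K.tr p x ∈ N W
  anti : ∀ W W', W ⊆ W' → N W' ≤ N W
  un : ∀ (W : ℕ → Set S) x, (∀ k, x ∈ N (W k)) → x ∈ N (⋃ k, W k)
  inter : ∀ W W', IsOpen W → IsOpen W' → ∀ x ∈ K.B, x ∈ N (W ∩ W') →
    ∃ a ∈ K.B, a ∈ N W ∧ x - a ∈ N W'
  sum : ∀ W : ℕ → Set S, (∀ k, IsOpen (W k)) → Pairwise (fun j k => Disjoint (W j) (W k)) →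
    ∀ p (y : ℕ → M), (∀ k, y k ∈ K.B ∧ K.tr p (y k) = y k ∧ y k ∈ N ∅) →
      ∃ z ∈ K.B, z ∈ N ∅ ∧ ∀ k, z - y k ∈ N (W k)

variable {N : Set S → Submodule Λ M} {N' : Set S → Submodule Λ M'}

theorem Loc.union (h : Loc K N) {W W' : Set S} {x : M} (h1 : x ∈ N W) (h2 : x ∈ N W') :
    x ∈ N (W ∪ W') := by
  refine h.anti _ _ ?_ (h.un (fun k => if k = 0 then W else W') x fun k => by
    split_ifs <;> assumption)
  rintro a (k | k)
  · exact mem_iUnion.2 ⟨0, by simpa⟩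
  · exact mem_iUnion.2 ⟨1, by simpa⟩

/-- Local primitives give global primitives. -/
theorem Loc.acyc [RegularSpace S] [SecondCountableTopology S] (h : Loc K N) (S₀ : Set S)
    (sat : ∀ W, N (W ∩ S₀) ≤ N W)
    (loc : ∀ W, IsOpen W → ∀ a ∈ W, a ∈ S₀ → ∀ x ∈ K.B, x ∈ N ∅ → K.d x ∈ N W →
      ∃ V, IsOpen V ∧ a ∈ V ∧ ∃ y ∈ K.B, y ∈ N ∅ ∧ x - K.d y ∈ N V) :
    ∀ W, IsOpen W → K.Acyc (N W) (N ∅) := by
  have key : ∀ p : ℤ, ∀ W, IsOpen W → ∀ x ∈ K.B, K.tr p x = x → x ∈ N ∅ → K.d x ∈ N W →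
      ∃ y ∈ K.B, K.tr (p - 1) y = y ∧ y ∈ N ∅ ∧ x - K.d y ∈ N W := by
    obtain ⟨p0, hp0⟩ := eventually_atBot.1 K.low
    intro p
    induction p using Int.strongRec (m := p0) with
    | lt p hp =>
      intro W _ x _ hx _ _
      refine ⟨0, zero_mem _, map_zero _, zero_mem _, ?_⟩
      rw [← hx, hp0 p hp.le]; simp
    | ge p _ ih =>
      intro W hW x xB hx x0 xW
      have tt : ∀ V, ∀ y ∈ K.B, y ∈ N ∅ → x - K.d y ∈ N V →
          ∃ y ∈ K.B, K.tr (p - 1) y = y ∧ y ∈ N ∅ ∧ x - K.d y ∈ N V := fun V y y1 y2 y3 =>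
        ⟨_, K.trB (p - 1) y y1, K.tr_tr _ _, h.trN _ _ _ y2, by
          have := h.trN _ p _ y3
          rwa [map_sub, hx, ← sub_add_cancel p 1, ← K.d_tr] at this⟩
      obtain ⟨V, -, hV, y, y1, y2, y3, y4⟩ := cover_ind
        (fun V => ∃ y ∈ K.B, K.tr (p - 1) y = y ∧ y ∈ N ∅ ∧ x - K.d y ∈ N V) (W ∩ S₀)
        ⟨0, zero_mem _, map_zero _, zero_mem _, by simpa using x0⟩
        (fun V V' _ _ k ⟨y, y1, y2, y3, y4⟩ => ⟨y, y1, y2, y3, h.anti _ _ k y4⟩)
        (fun V V' o o' ⟨y, y1, y2, y3, y4⟩ ⟨z, z1, z2, z3, z4⟩ => by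
          obtain ⟨t, t1, -, t3, t4⟩ := ih (p - 1) (by omega) (V ∩ V') (o.inter o') (y - z)
            (sub_mem y1 z1) (by rw [map_sub, y2, z2]) (sub_mem y3 z3) (by
              convert sub_mem (h.anti _ _ inter_subset_right z4)
                (h.anti _ _ inter_subset_left y4) using 1
              rw [map_sub]; abel)
          obtain ⟨a, a1, a2, a3⟩ := h.inter V V' o o' _ (sub_mem (sub_mem y1 z1) (K.dB _ t1)) t4
          refine tt _ (y - a) (sub_mem y1 a1) (sub_mem y3 (h.anti _ _ (empty_subset _) a2))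
            (h.union ?_ ?_)
          · convert add_mem y4 (h.dN _ _ a2) using 1
            rw [map_sub]; abel
          · convert sub_mem (sub_mem z4 (h.dN _ _ a3)) (h.ddN V' t t1 t3) using 1
            simp only [map_sub]; abel)
        (fun V o dj hy => by
          choose y y1 y2 y3 y4 using hy
          obtain ⟨z, z1, z2, z3⟩ := h.sum V o dj (p - 1) y fun k => ⟨y1 k, y2 k, y3 k⟩
          refine tt _ z z1 z2 (h.un _ _ fun k => ?_)
          convert sub_mem (y4 k) (h.dN _ _ (z3 k)) using 1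
          rw [map_sub]; abel)
        (fun a ha => by
          obtain ⟨V, v1, v2, y, y1, y2, y3⟩ := loc W hW a ha.1 ha.2 x xB x0 xW
          exact ⟨V, v1, v2, tt V y y1 y2 y3⟩)
      exact ⟨y, y1, y2, y3, sat _ (h.anti _ _ hV y4)⟩
  intro W hW x xB x0 xW
  obtain ⟨p, hp⟩ := (K.bdd x xB).exists
  obtain ⟨y, y1, -, y2, y3⟩ := key p W hW x xB hp x0 xW
  exact ⟨y, y1, y2, y3⟩

theorem Loc.cone (hT : IsCh K K' T) (h : Loc K N) (h' : Loc K' N')
    (hp : ∀ W, IsPair K K' T (N W) (N ∅) (N' W) (N' ∅)) :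
    Loc (cone hT) (fun W => (N W).prod (N' W)) where
  dN W x hx := ⟨neg_mem (h.dN _ _ hx.1), add_mem ((hp W).mapP _ hx.1) (h'.dN _ _ hx.2)⟩
  ddN W := cone_dd hT (hp W)
  trN W p x hx := ⟨h.trN _ _ _ hx.1, h'.trN _ _ _ hx.2⟩
  anti W W' k := Submodule.prod_mono (h.anti _ _ k) (h'.anti _ _ k)
  un W x hx := ⟨h.un _ _ fun k => (hx k).1, h'.un _ _ fun k => (hx k).2⟩
  inter W W' o o' x hx hx' := by
    obtain ⟨a, a1, a2, a3⟩ := h.inter W W' o o' _ hx.1 hx'.1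
    obtain ⟨b, b1, b2, b3⟩ := h'.inter W W' o o' _ hx.2 hx'.2
    exact ⟨(a, b), ⟨a1, b1⟩, ⟨a2, b2⟩, ⟨a3, b3⟩⟩
  sum W o dj p y hy := by
    obtain ⟨a, a1, a2, a3⟩ := h.sum W o dj (p + 1) (fun k => (y k).1) fun k =>
      ⟨(hy k).1.1, congrArg Prod.fst (hy k).2.1, (hy k).2.2.1⟩
    obtain ⟨b, b1, b2, b3⟩ := h'.sum W o dj p (fun k => (y k).2) fun k =>
      ⟨(hy k).1.2, congrArg Prod.snd (hy k).2.1, (hy k).2.2.2⟩
    exact ⟨(a, b), ⟨a1, b1⟩, ⟨a2, b2⟩, fun k => ⟨a3 k, b3 k⟩⟩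

variable [RegularSpace S] [SecondCountableTopology S]

/-- A chain map that is a quasi-isomorphism over all small open sets is one over all open sets. -/
theorem Loc.qi_of_local (hT : IsCh K K' T) (h : Loc K N) (h' : Loc K' N')
    (hp : ∀ W, IsPair K K' T (N W) (N ∅) (N' W) (N' ∅)) (S₀ : Set S)
    (sat : ∀ W, N (W ∩ S₀) ≤ N W) (sat' : ∀ W, N' (W ∩ S₀) ≤ N' W)
    (loc : ∀ a ∈ S₀, ∃ V, IsOpen V ∧ a ∈ V ∧ ∀ W, IsOpen W → W ⊆ V →
      QI K K' T (N W) (N ∅) (N' W) (N' ∅)) (W : Set S) (hW : IsOpen W) :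
    QI K K' T (N W) (N ∅) (N' W) (N' ∅) := by
  refine (cone_acyc_iff hT (hp W)).1 ((h.cone hT h' hp).acyc S₀
    (fun W => Submodule.prod_mono (sat W) (sat' W)) (fun W o a ha ha' x x1 x2 x3 => ?_) W hW)
  obtain ⟨V, v1, v2, v3⟩ := loc a ha'
  exact ⟨W ∩ V, o.inter v1, ⟨ha, v2⟩, (cone_acyc_iff hT (hp _)).2
    (v3 _ (o.inter v1) inter_subset_right) x x1 x2
      ((h.cone hT h' hp).anti _ _ inter_subset_left x3)⟩

/-- A chain map that is a quasi-isomorphism on stalks is one over all open sets. -/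
theorem Loc.qi_of_stalk (hT : IsCh K K' T) (h : Loc K N) (h' : Loc K' N')
    (hp : ∀ W, IsPair K K' T (N W) (N ∅) (N' W) (N' ∅)) (S₀ : Set S)
    (sat : ∀ W, N (W ∩ S₀) ≤ N W) (sat' : ∀ W, N' (W ∩ S₀) ≤ N' W)
    (o1 : ∀ a ∈ S₀, ∀ x ∈ N {a}, ∃ V ∈ 𝓝 a, x ∈ N V)
    (o2 : ∀ a ∈ S₀, ∀ x ∈ N' {a}, ∃ V ∈ 𝓝 a, x ∈ N' V)
    (loc : ∀ a ∈ S₀, QI K K' T (N {a}) (N ∅) (N' {a}) (N' ∅)) (W : Set S) (hW : IsOpen W) :
    QI K K' T (N W) (N ∅) (N' W) (N' ∅) := by
  refine (cone_acyc_iff hT (hp W)).1 ((h.cone hT h' hp).acyc S₀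
    (fun W => Submodule.prod_mono (sat W) (sat' W)) (fun W o a ha ha' x x1 x2 x3 => ?_) W hW)
  obtain ⟨y, y1, y2, y3⟩ := (cone_acyc_iff hT (hp _)).2 (loc a ha') x x1 x2
    ((h.cone hT h' hp).anti _ _ (singleton_subset_iff.2 ha) x3)
  obtain ⟨V, v1, v2⟩ := o1 a ha' _ y3.1
  obtain ⟨V', v3, v4⟩ := o2 a ha' _ y3.2
  refine ⟨interior (V ∩ V'), isOpen_interior, mem_interior_iff_mem_nhds.2 (inter_mem v1 v3),
    y, y1, y2, h.anti _ _ (interior_subset.trans inter_subset_left) v2,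
    h'.anti _ _ (interior_subset.trans inter_subset_right) v4⟩

/-- A finite product of shifted copies. -/
def pi (K : Cx Λ M) {ι : Type} [Finite ι] (k : ι → ℤ) : Cx Λ (ι → M) where
  d := K.d.compLeft ι
  B := Submodule.pi univ fun _ => K.B
  tr p := LinearMap.pi fun i => K.tr (p - k i) ∘ₗ LinearMap.proj i
  dB x hx i hi := K.dB _ (hx i hi)
  trB p x hx i hi := K.trB _ _ (hx i hi)
  tr_tr p x := funext fun i => K.tr_tr _ _
  d_tr p x := funext fun i => by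
    change K.d (K.tr (p - k i) (x i)) = K.tr (p + 1 - k i) (K.d (x i))
    rw [K.d_tr, add_sub_right_comm]
  bdd x hx := by
    filter_upwards [eventually_all.2 fun i =>
      (tendsto_atTop_add_const_right _ (-k i) tendsto_id).eventually (K.bdd _ (hx i trivial))]
      with p h
    exact funext fun i => h i
  low := by
    filter_upwards [eventually_all.2 fun i =>
      (tendsto_atBot_add_const_right _ (-k i) tendsto_id).eventually K.low] with p h
    ext x i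
    have : K.tr (p - k i) = 0 := h i
    simp [this]

omit [RegularSpace S] [SecondCountableTopology S] in
theorem Loc.pi (h : Loc K N) {ι : Type} [Finite ι] (k : ι → ℤ) :
    Loc (K.pi k) (fun W => Submodule.pi univ fun _ => N W) where
  dN W x hx i hi := h.dN _ _ (hx i hi)
  ddN W x hx hx' i hi := h.ddN _ _ (hx i hi) (hx' i hi)
  trN W p x hx i hi := h.trN _ _ _ (hx i hi)
  anti W W' k x hx i hi := h.anti _ _ k (hx i hi)
  un W x hx i hi := h.un _ _ fun k => hx k i hi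
  inter W W' o o' x hx hx' := by
    choose a a1 a2 a3 using fun i => h.inter W W' o o' _ (hx i trivial) (hx' i trivial)
    exact ⟨a, fun i _ => a1 i, fun i _ => a2 i, fun i _ => a3 i⟩
  sum W o dj p y hy := by
    choose a a1 a2 a3 using fun i => h.sum W o dj (p - k i) (fun n => y n i) fun n =>
      ⟨(hy n).1 i trivial, congrFun (hy n).2.1 i, (hy n).2.2 i trivial⟩
    exact ⟨a, fun i _ => a1 i, fun i _ => a2 i, fun n i _ => a3 i n⟩

end Cx

end Pool.Agent.Work.MP_8c604c_gt.TZ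
end
end

-- merged part: Pool.Agent.Work.MP_8c604c_gt.TZ.FCo
section
/-! Cochain algebra: cone, masks, cut, prism and reversal operators. -/

noncomputable section

set_option linter.unusedSectionVars false

namespace Pool.Agent.Work.MP_8c604c_gt.TZ

open Set Topology Finset

variable {R : Type} [CommRing R] {X Y W : Type}

/-- The cone operator. -/
def cn (a : X) : (List X → R) →ₗ[R] (List X → R) := LinearMap.funLeft R R (List.cons a)

@[simp] theorem cn_apply (a : X) (φ : List X → R) (l : List X) : cn a φ l = φ (a :: l) := rfl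

theorem dl_cons' (φ : List X → R) (a : X) (l : List X) :
    dl φ (a :: l) = φ l - dl (cn a φ) l := dl_cons φ a l

theorem cn_dl (a : X) (φ : List X → R) : cn a (dl φ) = φ - dl (cn a φ) :=
  funext fun l => dl_cons φ a l

theorem dl_dl (φ : List X → R) : dl (dl φ) = 0 := by
  funext l
  induction l generalizing φ with
  | nil => rfl
  | cons a l ih => rw [dl_cons', cn_dl, map_sub]; simp [ih (cn a φ)]

theorem dl_congr {φ ψ : List X → R} {l : List X} (h : ∀ m : List X, m.length + 1 = l.length →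
    (∀ y ∈ m, y ∈ l) → φ m = ψ m) : dl φ l = dl ψ l := by
  rw [dl_apply, dl_apply]
  refine sum_congr rfl fun i hi => ?_
  have := Finset.mem_range.1 hi
  rw [h _ (by rw [List.length_eraseIdx_of_lt this]; omega) fun y hy => List.mem_of_mem_eraseIdx hy]

theorem cupc_cons' (φ ψ : List X → R) (a : X) (l : List X) :
    cupc φ ψ (a :: l) = φ [a] * ψ (a :: l) + cupc (cn a φ) ψ l := cupc_cons φ ψ a l

theorem cn_cupc (a : X) (φ ψ : List X → R) :
    cn a (cupc φ ψ) = φ [a] • cn a ψ + cupc (cn a φ) ψ := funext fun l => cupc_cons φ ψ a l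

theorem cupc_assoc (φ ψ χ : List X → R) : cupc (cupc φ ψ) χ = cupc φ (cupc ψ χ) := by
  funext l
  induction l generalizing φ with
  | nil => rfl
  | cons a l ih =>
    rw [cupc_cons', cn_cupc, cupc_cons', cupc_cons' φ, cupc_cons' ψ, cupc_nil, map_add, map_smul]
    simp only [LinearMap.add_apply, LinearMap.smul_apply, Pi.add_apply, Pi.smul_apply, ih,
      smul_eq_mul]
    ring

theorem cupc_onec_aux (l : List X) : ∀ φ : List X → R,
    cupc φ onec l = if l = [] then 0 else φ l := by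
  induction l with
  | nil => intro; rfl
  | cons a l ih =>
    intro φ
    rw [cupc_cons', ih]
    cases l <;> simp [onec]

theorem cupc_onec {φ : List X → R} (h : φ [] = 0) : cupc φ onec = φ := by
  funext l; rw [cupc_onec_aux]; split_ifs with k
  · rw [k, h]
  · rfl

/-- A `0`-cochain. -/
def zc (θ : X → R) : List X → R
  | [x] => θ x
  | _ => 0

theorem zc_cupc (θ : X → R) (φ : List X → R) (a : X) (l : List X) :
    cupc (zc θ) φ (a :: l) = θ a * φ (a :: l) := by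
  rw [cupc_cons', cupc_apply, sum_eq_zero, add_zero]; · rfl
  intro i hi
  cases l with
  | nil => simp at hi
  | cons b l => simp [zc]

theorem onec_eq_zc : (onec : List X → R) = zc fun _ => 1 := by
  funext l
  rcases l with _ | ⟨a, _ | ⟨b, l⟩⟩ <;> simp [onec, zc]

theorem onec_cupc {φ : List X → R} (h : φ [] = 0) : cupc onec φ = φ := by
  funext l
  cases l with
  | nil => rw [cupc_nil, h]
  | cons a l => rw [onec_eq_zc, zc_cupc, one_mul]

theorem dl_onec : dl (onec : List X → R) = 0 := by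
  funext l
  rcases l with _ | ⟨a, _ | ⟨b, _ | ⟨c, l⟩⟩⟩
  · rfl
  · simp [dl_apply, onec]
  · simp [dl_apply, onec, sum_range_succ]
  · refine (dl_congr (ψ := 0) fun m hm _ => ?_).trans (by simp)
    simp only [List.length_cons] at hm
    simp [onec]; omega

theorem pullc_cupc (f : X → Y) (φ ψ : List Y → R) :
    pullc f (cupc φ ψ) = cupc (pullc f φ) (pullc f ψ) := by
  funext l; simp [pullc_apply, cupc_apply, List.map_take, List.map_drop]

theorem pullc_onec (f : X → Y) : pullc f (onec : List Y → R) = onec := by funext l; simp [pullc_apply, onec]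

theorem pullc_pullc (f : X → Y) (g : Y → W) (φ : List W → R) :
    pullc f (pullc g φ) = pullc (g ∘ f) φ := by funext l; simp [pullc_apply]

theorem pullc_id (φ : List X → R) : pullc id φ = φ := by funext l; simp [pullc_apply]

theorem pullc_sgc (f : X → Y) (φ : List Y → R) : pullc f (sgc φ) = sgc (pullc f φ) := by
  funext l; simp [pullc_apply, sgc]

open Classical in
/-- The components whose degree lies in `s`. -/
def msk (s : Set ℤ) : (List X → R) →ₗ[R] (List X → R) where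
  toFun φ l := if (l.length : ℤ) - 1 ∈ s then φ l else 0
  map_add' φ ψ := by funext l; simp only [Pi.add_apply]; split_ifs <;> simp
  map_smul' c φ := by funext l; simp only [Pi.smul_apply, RingHom.id_apply]; split_ifs <;> simp

theorem msk_of_mem {s : Set ℤ} (φ : List X → R) {l : List X} (h : (l.length : ℤ) - 1 ∈ s) :
    msk s φ l = φ l := if_pos h

theorem msk_of_not_mem {s : Set ℤ} (φ : List X → R) {l : List X} (h : (l.length : ℤ) - 1 ∉ s) :
    msk s φ l = 0 := if_neg h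

theorem msk_zero {s : Set ℤ} {φ : List X → R} {l : List X} (h : φ l = 0) : msk s φ l = 0 := by
  by_cases k : (l.length : ℤ) - 1 ∈ s
  · rw [msk_of_mem _ k, h]
  · exact msk_of_not_mem _ k

theorem dl_msk {s t : Set ℤ} (h : ∀ p, p + 1 ∈ t ↔ p ∈ s) (φ : List X → R) :
    dl (msk s φ) = msk t (dl φ) := by
  funext l
  by_cases k : (l.length : ℤ) - 1 ∈ t
  · rw [msk_of_mem _ k]
    exact dl_congr fun m hm _ => msk_of_mem _ ((h _).1 (by rw [← hm] at k; simpa using k))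
  · rw [msk_of_not_mem _ k]
    exact (dl_congr (ψ := 0) fun m hm _ => msk_of_not_mem _ fun k' => k (by
      rw [← hm]; simpa using (h _).2 k')).trans (by simp)

theorem pullc_msk (f : X → Y) (s : Set ℤ) (φ : List Y → R) :
    pullc f (msk s φ) = msk s (pullc f φ) := by
  funext l
  by_cases k : (l.length : ℤ) - 1 ∈ s
  · rw [msk_of_mem _ k, pullc_apply, msk_of_mem _ (by simpa using k), pullc_apply]
  · rw [msk_of_not_mem _ k, pullc_apply, msk_of_not_mem _ (by simpa using k)]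

/-- Homogeneous cochains of degree `p`. -/
def Hom (p : ℤ) (φ : List X → R) : Prop := ∀ l : List X, (l.length : ℤ) ≠ p + 1 → φ l = 0

theorem Hom.msk (p : ℤ) (φ : List X → R) : Hom p (msk {p} φ) := fun _ h =>
  msk_of_not_mem _ fun k => h (by rw [Set.mem_singleton_iff] at k; omega)

theorem Hom.msk_eq {p : ℤ} {φ : List X → R} (h : Hom p φ) {s : Set ℤ} (hs : p ∈ s) :
    TZ.msk s φ = φ := by
  funext l
  by_cases k : (l.length : ℤ) = p + 1
  · exact msk_of_mem _ (by rw [k]; simpa using hs)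
  · rw [msk_zero (h l k), h l k]

theorem Hom.msk_eq_zero {p : ℤ} {φ : List X → R} (h : Hom p φ) {s : Set ℤ} (hs : p ∉ s) :
    TZ.msk s φ = 0 := by
  funext l
  by_cases k : (l.length : ℤ) = p + 1
  · exact msk_of_not_mem _ (by rw [k]; simpa using hs)
  · exact msk_zero (h l k)

theorem msk_cupc_left {s t : Set ℤ} {k : ℤ} (h : ∀ p, p + k ∈ t ↔ p ∈ s) (φ : List X → R)
    {c : List X → R} (hc : Hom k c) : cupc (msk s φ) c = msk t (cupc φ c) := by
  funext l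
  by_cases e : (l.length : ℤ) - 1 ∈ t
  · rw [msk_of_mem _ e, cupc_apply, cupc_apply]
    refine sum_congr rfl fun i hi => ?_
    have := Finset.mem_range.1 hi
    by_cases e' : ((l.drop i).length : ℤ) = k + 1
    · rw [msk_of_mem _ ((h _).1 (by convert e using 1; simp at e' ⊢; omega))]
    · rw [hc _ e', mul_zero, mul_zero]
  · rw [msk_of_not_mem _ e, cupc_apply]
    refine sum_eq_zero fun i hi => ?_
    have := Finset.mem_range.1 hi
    by_cases e' : ((l.drop i).length : ℤ) = k + 1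
    · rw [msk_of_not_mem _ fun k' => e (by convert (h _).2 k' using 1; simp at e' ⊢; omega),
        zero_mul]
    · rw [hc _ e', mul_zero]

theorem msk_cupc_right {s t : Set ℤ} {k : ℤ} (h : ∀ p, p + k ∈ t ↔ p ∈ s) (φ : List X → R)
    {c : List X → R} (hc : Hom k c) : cupc c (msk s φ) = msk t (cupc c φ) := by
  funext l
  by_cases e : (l.length : ℤ) - 1 ∈ t
  · rw [msk_of_mem _ e, cupc_apply, cupc_apply]
    refine sum_congr rfl fun i hi => ?_
    have := Finset.mem_range.1 hi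
    by_cases e' : ((l.take (i + 1)).length : ℤ) = k + 1
    · rw [msk_of_mem _ ((h _).1 (by convert e using 1; simp at e' ⊢; omega))]
    · rw [hc _ e', zero_mul, zero_mul]
  · rw [msk_of_not_mem _ e, cupc_apply]
    refine sum_eq_zero fun i hi => ?_
    have := Finset.mem_range.1 hi
    by_cases e' : ((l.take (i + 1)).length : ℤ) = k + 1
    · rw [msk_of_not_mem _ fun k' => e (by convert (h _).2 k' using 1; simp at e' ⊢; omega),
        mul_zero]
    · rw [hc _ e', zero_mul]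

theorem Hom.cupc {p q : ℤ} {φ ψ : List X → R} (h1 : Hom p φ) (h2 : Hom q ψ) :
    Hom (p + q) (cupc φ ψ) := by
  rw [← h1.msk_eq (s := {p}) rfl, msk_cupc_left (t := {p + q}) (by simp) φ h2]
  exact Hom.msk _ _

theorem Hom.pullc {p : ℤ} {φ : List Y → R} (h : Hom p φ) (f : X → Y) : Hom p (pullc f φ) :=
  fun l hl => h _ (by simpa using hl)

theorem Hom.dl {p : ℤ} {φ : List X → R} (h : Hom p φ) : Hom (p + 1) (dl φ) := by
  rw [← h.msk_eq (s := {p}) rfl, dl_msk (t := {p + 1}) (by simp) φ]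
  exact Hom.msk _ _

theorem hom_zc (θ : X → R) : Hom 0 (zc θ) := by
  rintro (_ | ⟨a, _ | ⟨b, l⟩⟩) h
  · rfl
  · simp at h
  · rfl

theorem hom_onec : Hom 0 (onec : List X → R) := onec_eq_zc (X := X) (R := R) ▸ hom_zc _

theorem Hom.eq_zc {φ : List X → R} (h : Hom 0 φ) : φ = zc fun x => φ [x] := by
  funext l
  rcases l with _ | ⟨a, _ | ⟨b, l⟩⟩
  · exact h _ (by simp)
  · rfl
  · exact h _ (by simp; omega)

theorem sg_natCast (n : ℕ) : sg R n = (-1) ^ n := by simp [sg]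

theorem sg_even {p : ℤ} (h : Even p) : sg R p = 1 := (Int.natAbs_even.2 h).neg_one_pow

theorem sg_odd {p : ℤ} (h : Odd p) : sg R p = -1 := (Int.natAbs_odd.2 h).neg_one_pow

theorem sg_add (p q : ℤ) : sg R (p + q) = sg R p * sg R q := by
  rcases Int.even_or_odd p with h | h <;> rcases Int.even_or_odd q with k | k
  · rw [sg_even h, sg_even k, sg_even (h.add k), one_mul]
  · rw [sg_even h, sg_odd k, sg_odd (h.add_odd k), one_mul]
  · rw [sg_odd h, sg_even k, sg_odd (h.add_even k), mul_one]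
  · rw [sg_odd h, sg_odd k, sg_even (h.add_odd k), neg_mul_neg, one_mul]

theorem sg_mul_self (p : ℤ) : sg R p * sg R p = 1 := by rw [← sg_add, sg_even ⟨p, rfl⟩]

theorem Hom.sgc {p : ℤ} {φ : List X → R} (h : Hom p φ) : sgc φ = sg R p • φ := by
  funext l
  by_cases k : (l.length : ℤ) = p + 1
  · have : sg R p = (-1) ^ (l.length + 1) := by
      rw [← sg_natCast, show ((l.length + 1 : ℕ) : ℤ) = p + 2 by push_cast; omega, sg_add,
        sg_even (p := 2) even_two, mul_one]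
    simp [TZ.sgc, this]
  · simp [TZ.sgc, h l k]

open Classical in
/-- Cut off by the first vertex. -/
def cut (O : Set X) : (List X → R) →ₗ[R] (List X → R) where
  toFun φ l := if ∃ a ∈ l.head?, a ∈ O then φ l else 0
  map_add' φ ψ := by funext l; simp only [Pi.add_apply]; split_ifs <;> simp
  map_smul' c φ := by funext l; simp only [Pi.smul_apply, RingHom.id_apply]; split_ifs <;> simp

theorem cut_nil (O : Set X) (φ : List X → R) : cut O φ [] = 0 := by simp [cut]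

theorem cut_of_mem {O : Set X} (φ : List X → R) {a : X} (l : List X) (ha : a ∈ O) :
    cut O φ (a :: l) = φ (a :: l) := by simp [cut, ha]

theorem cut_of_not_mem {O : Set X} (φ : List X → R) {a : X} (l : List X) (ha : a ∉ O) :
    cut O φ (a :: l) = 0 := by simp [cut, ha]

theorem cut_zero (O : Set X) {φ : List X → R} {l : List X} (h : φ l = 0) : cut O φ l = 0 := by
  cases l with
  | nil => exact cut_nil _ _
  | cons a l =>
    by_cases ha : a ∈ O
    · rw [cut_of_mem _ _ ha, h]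
    · exact cut_of_not_mem _ _ ha

/-- The prism operator of two maps. -/
def prism (g g' : X → Y) : List X → (List Y → R) →ₗ[R] R
  | [] => 0
  | a :: l => LinearMap.proj (g a :: (a :: l).map g') - prism g g' l ∘ₗ cn (g a)

/-- The prism operator on cochains. -/
def prc (g g' : X → Y) : (List Y → R) →ₗ[R] (List X → R) := LinearMap.pi (prism g g')

theorem prc_nil (g g' : X → Y) (φ : List Y → R) : prc g g' φ [] = 0 := rfl

theorem prc_cons (g g' : X → Y) (φ : List Y → R) (a : X) (l : List X) :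
    prc g g' φ (a :: l) = φ (g a :: g' a :: l.map g') - prc g g' (cn (g a) φ) l := rfl

theorem dl_prc (g g' : X → Y) (φ : List Y → R) :
    dl (prc g g' φ) + prc g g' (dl φ) = pullc g' φ - pullc g φ := by
  funext l
  induction l generalizing φ with
  | nil => simp [dl_nil, prc_nil, pullc_apply]
  | cons a l ih =>
    have e : cn a (prc g g' φ) = pullc g' (cn (g' a) (cn (g a) φ)) - prc g g' (cn (g a) φ) := rfl
    have := ih (cn (g a) φ)
    rw [Pi.add_apply, dl_cons', prc_cons, e, cn_dl, map_sub, map_sub, dl_pullc, dl_cons', dl_cons']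
    simp only [Pi.sub_apply, Pi.add_apply, pullc_apply, cn_apply, List.map_cons] at this ⊢
    linear_combination this

theorem prc_zero (g g' : X → Y) (l : List X) : ∀ (φ : List Y → R),
    (∀ m : List Y, m.length = l.length + 1 → (∀ y ∈ m, ∃ x ∈ l, y = g x ∨ y = g' x) → φ m = 0) →
      prc g g' φ l = 0 := by
  induction l with
  | nil => intro _ _; rfl
  | cons a l ih =>
    intro φ h
    rw [prc_cons, h, ih, sub_zero]
    · intro m h1 h2
      refine h _ (by simp [h1]) fun y hy => ?_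
      rcases List.mem_cons.1 hy with rfl | hy
      · exact ⟨a, by simp, Or.inl rfl⟩
      · obtain ⟨x, k1, k2⟩ := h2 y hy
        exact ⟨x, List.mem_cons_of_mem _ k1, k2⟩
    · simp
    · intro y hy
      rcases List.mem_cons.1 hy with rfl | hy
      · exact ⟨a, by simp, Or.inl rfl⟩
      · obtain ⟨x, k1, rfl⟩ := List.mem_map.1 (show y ∈ (a :: l).map g' from hy)
        exact ⟨x, k1, Or.inr rfl⟩

/-- The sign `(-1) ^ (n (n - 1) / 2)`. -/
def rs : ℕ → R
  | 0 => 1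
  | n + 1 => (-1) ^ n * rs n

theorem rs_add (p q : ℕ) : (rs (p + q + 1) : R) = (-1) ^ (p * q) * rs (p + 1) * rs (q + 1) := by
  induction q with
  | zero => simp [rs]
  | succ q ih =>
    rw [← add_assoc, rs, ih, rs.eq_2 (q + 1)]
    ring

/-- Reversal of the vertices. -/
def rev : (List X → R) →ₗ[R] (List X → R) where
  toFun φ l := rs l.length * φ l.reverse
  map_add' φ ψ := by funext l; simp [mul_add]
  map_smul' c φ := by funext l; simp [mul_left_comm]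

theorem rev_apply (φ : List X → R) (l : List X) : rev φ l = rs l.length * φ l.reverse := rfl

theorem neg_one_pow_sq (n : ℕ) : (-1 : R) ^ n * (-1) ^ n = 1 := by rw [← mul_pow]; simp

theorem dl_rev (φ : List X → R) : dl (rev φ) = rev (dl φ) := by
  funext l
  rw [rev_apply, dl_apply, dl_apply, List.length_reverse, mul_sum, ← sum_range_reflect]
  refine sum_congr rfl fun i hi => ?_
  have := Finset.mem_range.1 hi
  obtain ⟨k, hk⟩ : ∃ k, l.length = i + k + 1 := ⟨l.length - 1 - i, by omega⟩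
  have e : (l.eraseIdx k).reverse = l.reverse.eraseIdx i := by
    rw [List.eraseIdx_eq_take_drop_succ, List.eraseIdx_eq_take_drop_succ, List.reverse_append,
      List.reverse_take, List.reverse_drop]
    congr 2 <;> omega
  rw [show l.length - 1 - i = k by omega, rev_apply, e, List.length_eraseIdx_of_lt (by omega), hk,
    Nat.add_sub_cancel, rs, pow_add]
  linear_combination (-((-1 : R) ^ k * rs (i + k) * φ (l.reverse.eraseIdx i))) * neg_one_pow_sq (R := R) i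

theorem rev_cupc (φ ψ : List X → R) (l : List X) : rev (cupc ψ φ) l =
    ∑ i ∈ range l.length, (-1) ^ (i * (l.length - 1 - i)) *
      (rev φ (l.take (i + 1)) * rev ψ (l.drop i)) := by
  rw [rev_apply, cupc_apply, List.length_reverse, mul_sum, ← sum_range_reflect]
  refine sum_congr rfl fun i hi => ?_
  have := Finset.mem_range.1 hi
  obtain ⟨k, hk⟩ : ∃ k, l.length = i + k + 1 := ⟨l.length - 1 - i, by omega⟩
  rw [show l.length - 1 - i = k by omega, rev_apply, rev_apply, List.reverse_take,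
    List.reverse_drop, List.length_take, List.length_drop, show l.length - (i + 1) = k by omega,
    show l.length - i = k + 1 by omega, show min (i + 1) l.length = i + 1 by omega, hk, rs_add]
  ring

theorem rev_cupc_hom {p q : ℤ} {φ ψ : List X → R} (h1 : Hom p φ) (h2 : Hom q ψ) :
    rev (cupc ψ φ) = sg R (p * q) • cupc (rev φ) (rev ψ) := by
  funext l
  rw [rev_cupc, Pi.smul_apply, cupc_apply, smul_eq_mul, mul_sum]
  refine sum_congr rfl fun i hi => ?_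
  have := Finset.mem_range.1 hi
  by_cases e : (i : ℤ) = p
  · by_cases e' : ((l.length - 1 - i : ℕ) : ℤ) = q
    · rw [← e, ← e', ← Nat.cast_mul, sg_natCast]
    · rw [rev_apply ψ, h2 _ (by simp; omega)]; simp
  · rw [rev_apply φ, h1 _ (by simp; omega)]; simp

theorem rev_cupc_even {p : ℤ} {φ : List X → R} (h1 : Hom (2 * p) φ) (ψ : List X → R) :
    rev (cupc ψ φ) = cupc (rev φ) (rev ψ) := by
  funext l
  rw [rev_cupc, cupc_apply]
  refine sum_congr rfl fun i hi => ?_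
  have := Finset.mem_range.1 hi
  by_cases e : (i : ℤ) = 2 * p
  · rw [show i = 2 * p.toNat by omega, mul_assoc 2, pow_mul]; simp
  · rw [rev_apply φ, h1 _ (by simp; omega)]; simp

/-- The homotopy from the identity to the reversal, by recursion on the length. -/
def rhn : ℕ → (List X → R) →ₗ[R] (List X → R)
  | 0 => 0
  | n + 1 => LinearMap.pi fun l => match l with
    | [] => 0
    | a :: m => LinearMap.proj (a :: m) ∘ₗ (rev - LinearMap.id - dl ∘ₗ rhn n) ∘ₗ cn a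

/-- The homotopy from the identity to the reversal. -/
def rh : (List X → R) →ₗ[R] (List X → R) :=
  LinearMap.pi fun l => LinearMap.proj l ∘ₗ rhn l.length

theorem rh_nil (φ : List X → R) : rh φ [] = 0 := rfl

theorem rh_cons (φ : List X → R) (a : X) (m : List X) : rh φ (a :: m) =
    rev (cn a φ) (a :: m) - cn a φ (a :: m) - dl (rh (cn a φ)) (a :: m) := by
  change rev (cn a φ) (a :: m) - cn a φ (a :: m) - dl (rhn m.length (cn a φ)) (a :: m) = _
  congr 1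
  refine dl_congr fun k hk _ => ?_
  rw [← show k.length = m.length by simpa using hk]; rfl

theorem dl_rh (φ : List X → R) : dl (rh φ) + rh (dl φ) = rev φ - φ := by
  funext l
  induction hn : l.length using Nat.strong_induction_on generalizing l φ with
  | _ n ih =>
    cases l with
    | nil => simp [dl_nil, rh_nil, rev_apply, rs]
    | cons a m =>
      have e : dl (rev (cn a φ) - cn a φ - rh (dl (cn a φ))) (a :: m) =
          dl (dl (rh (cn a φ))) (a :: m) := dl_congr fun k hk _ => by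
        have := ih k.length (by omega) (cn a φ) k rfl
        simp only [Pi.add_apply, Pi.sub_apply] at this ⊢
        linear_combination -this
      rw [dl_dl, map_sub, map_sub, dl_rev] at e
      rw [Pi.add_apply, rh_cons, cn_dl]
      simp only [map_sub, Pi.sub_apply, Pi.zero_apply] at e ⊢
      linear_combination -e

theorem rh_zero (V : Set X) (l : List X) : ∀ (φ : List X → R), (∀ y ∈ l, y ∈ V) →
    (∀ m : List X, l.length ≤ m.length → (∀ y ∈ m, y ∈ V) → φ m = 0) → rh φ l = 0 := by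
  induction hn : l.length using Nat.strong_induction_on generalizing l with
  | _ n ih =>
    intro φ hl h
    cases l with
    | nil => rfl
    | cons a m =>
      have ha := hl a List.mem_cons_self
      have k : ∀ m' : List X, n ≤ m'.length + 1 → (∀ y ∈ m', y ∈ V) → cn a φ m' = 0 :=
        fun m' h1 h2 => h _ (by simpa using h1) (by simpa [ha] using h2)
      rw [rh_cons, rev_apply, k _ (by simp [← hn]) (by simpa [or_comm] using hl),
        k _ (by omega) hl, dl_congr (ψ := 0) fun m' h1 h2 => ih m'.length (by omega) m' rfl _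
          (fun y hy => hl y (h2 y hy)) fun m'' h3 h4 => k _ (by omega) h4]
      simp

end Pool.Agent.Work.MP_8c604c_gt.TZ
end
end

-- merged part: Pool.Agent.Work.MP_8c604c_gt.TZ.FH
section
/-! Formal properties of the cohomology groups `H U Z`. -/

noncomputable section

set_option linter.unusedSectionVars false

namespace Pool.Agent.Work.MP_8c604c_gt.TZ

open Set Topology Filter

variable {R : Type} [CommRing R] {X Y W : Type} [TopologicalSpace X] [TopologicalSpace Y] [TopologicalSpace W]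
variable {U Z U₁ Z₁ U₂ Z₂ : Set X} {U' Z' U₁' Z₁' U₂' Z₂' : Set Y} {U'' Z'' : Set W}
variable {φ ψ : List X → R}

theorem lz_anti {A B : Set X} (h : A ⊆ B) : lz R B ≤ lz R A := fun _ k x hx => k x (h hx)

theorem lz_empty (φ : List X → R) : φ ∈ lz R (∅ : Set X) := fun _ hx => hx.elim

theorem lz_union {A B : Set X} (h1 : φ ∈ lz R A) (h2 : φ ∈ lz R B) : φ ∈ lz R (A ∪ B) :=
  fun x hx => hx.elim (h1 x) (h2 x)

theorem lz_of_zero {A : Set X} (h : φ ∈ lz R A) (k : ∀ l, φ l = 0 → ψ l = 0) : ψ ∈ lz R A :=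
  fun x hx => (h x hx).imp fun _ e => ⟨e.1, fun l hl => k l (e.2 l hl)⟩

theorem bd_of_zero (h : φ ∈ bd R X) (k : ∀ l, φ l = 0 → ψ l = 0) : ψ ∈ bd R X :=
  ⟨k _ h.1, h.2.imp fun _ e l hl => k l (e l hl)⟩

theorem dl_bd (h : φ ∈ bd R X) : dl φ ∈ bd R X := by
  obtain ⟨-, m, k⟩ := h
  exact ⟨rfl, m + 1, fun l hl => (dl_congr (ψ := 0) fun m' e _ => k _ (by omega)).trans (by simp)⟩

theorem msk_lz {A : Set X} (s : Set ℤ) (h : φ ∈ lz R A) : msk s φ ∈ lz R A :=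
  lz_of_zero h fun _ => msk_zero

theorem msk_bd (s : Set ℤ) (h : φ ∈ bd R X) : msk s φ ∈ bd R X := bd_of_zero h fun _ => msk_zero

theorem cut_lz {A : Set X} (O : Set X) (h : φ ∈ lz R A) : cut O φ ∈ lz R A :=
  lz_of_zero h fun _ => cut_zero O

theorem cut_bd (O : Set X) (h : φ ∈ bd R X) : cut O φ ∈ bd R X := bd_of_zero h fun _ => cut_zero O

theorem cut_lz_of_disjoint {A O V : Set X} (hV : IsOpen V) (hA : A ⊆ V) (h : Disjoint O V)
    (φ : List X → R) : cut O φ ∈ lz R A := fun x hx => ⟨V, hV.mem_nhds (hA hx), fun l hl => by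
  cases l with
  | nil => exact cut_nil _ _
  | cons a l => exact cut_of_not_mem _ _ (h.notMem_of_mem_right (hl a List.mem_cons_self))⟩

theorem sub_cut_lz {A O : Set X} (hO : IsOpen O) (hA : A ⊆ O) (h : φ [] = 0) :
    φ - cut O φ ∈ lz R A := fun x hx => ⟨O, hO.mem_nhds (hA hx), fun l hl => by
  cases l with
  | nil => simp [cut_nil, h]
  | cons a l => simp [cut_of_mem _ _ (hl a List.mem_cons_self)]⟩

theorem Hom.mem_bd {p : ℤ} (h : Hom p φ) (h0 : φ [] = 0) : φ ∈ bd R X :=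
  ⟨h0, (p + 1).toNat, fun l hl => h l (by omega)⟩

theorem zc_bd (θ : X → R) : zc θ ∈ bd R X := (hom_zc θ).mem_bd rfl

theorem onec_bd : onec ∈ bd R X := hom_onec.mem_bd rfl

theorem cn_lz {a : X} (h : φ ∈ lz R {a}) : cn a φ ∈ lz R {a} := by
  rintro x rfl
  obtain ⟨V, hV, k⟩ := h x rfl
  exact ⟨V, hV, fun l hl => k _ (by simpa [mem_of_mem_nhds hV] using hl)⟩

theorem mem_Zc : φ ∈ Zc R U Z ↔ φ ∈ bd R X ∧ dl φ ∈ lz R U ∧ φ ∈ lz R (U \ Z) := and_assoc

theorem mem_Bc : φ ∈ Bc R U Z ↔ ∃ ψ ∈ bd R X, ψ ∈ lz R (U \ Z) ∧ φ - dl ψ ∈ lz R U := by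
  rw [Bc, Submodule.mem_sup]
  constructor
  · rintro ⟨_, ⟨ψ, h1, rfl⟩, η, h2, rfl⟩
    exact ⟨ψ, h1.1, h1.2, by simpa using h2⟩
  · rintro ⟨ψ, h1, h2, h3⟩
    exact ⟨_, ⟨ψ, ⟨h1, h2⟩, rfl⟩, _, h3, by simp⟩

theorem cls_eq_mk (h : φ ∈ Zc R U Z) : cls U Z φ = Submodule.Quotient.mk ⟨φ, h⟩ := dif_pos h

theorem exists_cls (a : H R U Z) : ∃ φ ∈ Zc R U Z, a = cls U Z φ := by
  obtain ⟨⟨φ, h⟩, rfl⟩ := Submodule.Quotient.mk_surjective _ a
  exact ⟨φ, h, (cls_eq_mk h).symm⟩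

theorem cls_add (h1 : φ ∈ Zc R U Z) (h2 : ψ ∈ Zc R U Z) :
    cls U Z (φ + ψ) = cls U Z φ + cls U Z ψ := by
  rw [cls_eq_mk h1, cls_eq_mk h2, cls_eq_mk (add_mem h1 h2)]; rfl

theorem cls_sub (h1 : φ ∈ Zc R U Z) (h2 : ψ ∈ Zc R U Z) :
    cls U Z (φ - ψ) = cls U Z φ - cls U Z ψ := by
  rw [cls_eq_mk h1, cls_eq_mk h2, cls_eq_mk (sub_mem h1 h2)]; rfl

theorem cls_neg (h1 : φ ∈ Zc R U Z) : cls U Z (-φ) = -cls U Z φ := by
  rw [cls_eq_mk h1, cls_eq_mk (neg_mem h1)]; rfl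

theorem cls_smul (c : R) (h1 : φ ∈ Zc R U Z) : cls U Z (c • φ) = c • cls U Z φ := by
  rw [cls_eq_mk h1, cls_eq_mk (Submodule.smul_mem _ c h1)]; rfl

theorem cls_zero : cls U Z (0 : List X → R) = 0 := by rw [cls_eq_mk (zero_mem _)]; rfl

theorem cls_sum {ι : Type} (s : Finset ι) {φ : ι → List X → R} (h : ∀ i ∈ s, φ i ∈ Zc R U Z) :
    cls U Z (∑ i ∈ s, φ i) = ∑ i ∈ s, cls U Z (φ i) := by
  classical
  induction s using Finset.induction_on with
  | empty => simpa using cls_zero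
  | insert a s ha ih =>
    rw [Finset.sum_insert ha, Finset.sum_insert ha, cls_add (h a (by simp))
      (sum_mem fun i hi => h i (by simp [hi])), ih fun i hi => h i (by simp [hi])]

theorem cls_eq_zero (h : φ ∈ Zc R U Z) :
    cls U Z φ = 0 ↔ ∃ ψ ∈ bd R X, ψ ∈ lz R (U \ Z) ∧ φ - dl ψ ∈ lz R U := by
  rw [cls_eq_mk h, Submodule.Quotient.mk_eq_zero, ← mem_Bc]; rfl

theorem cls_eq_cls (h1 : φ ∈ Zc R U Z) (h2 : ψ ∈ Zc R U Z) :
    cls U Z φ = cls U Z ψ ↔ ∃ χ ∈ bd R X, χ ∈ lz R (U \ Z) ∧ φ - ψ - dl χ ∈ lz R U := by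
  rw [← sub_eq_zero, ← cls_sub h1 h2, cls_eq_zero (sub_mem h1 h2)]

theorem Zc_of_sub_lz (h1 : φ ∈ Zc R U Z) (h2 : ψ ∈ bd R X) (h : φ - ψ ∈ lz R U) : ψ ∈ Zc R U Z :=
  mem_Zc.2 ⟨h2, by simpa using sub_mem h1.1.2 (dl_lz h),
    by simpa using sub_mem h1.2 (lz_anti sdiff_subset h)⟩

theorem cls_eq_of_lz (h1 : φ ∈ Zc R U Z) (h2 : ψ ∈ bd R X) (h : φ - ψ ∈ lz R U) :
    cls U Z φ = cls U Z ψ :=
  (cls_eq_cls h1 (Zc_of_sub_lz h1 h2 h)).2 ⟨0, zero_mem _, zero_mem _, by simpa using h⟩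

theorem H_ext {A : Type} [AddCommGroup A] [Module R A] {F G : H R U Z →ₗ[R] A}
    (h : ∀ φ ∈ Zc R U Z, F (cls U Z φ) = G (cls U Z φ)) : F = G :=
  LinearMap.ext fun a => by obtain ⟨φ, k, rfl⟩ := exists_cls a; exact h φ k

theorem subsingleton_H (h : Disjoint U Z) : Subsingleton (H R U Z) :=
  subsingleton_of_forall_eq 0 fun a => by
    obtain ⟨φ, k, rfl⟩ := exists_cls a
    exact (cls_eq_zero k).2 ⟨0, zero_mem _, zero_mem _, by simpa [h.sdiff_eq_left] using k.2⟩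

/-- The map induced by a cochain operator. -/
def mapH (T : (List Y → R) →ₗ[R] (List X → R)) (h1 : ∀ φ ∈ Zc R U' Z', T φ ∈ Zc R U Z)
    (h2 : ∀ φ ∈ Zc R U' Z', φ ∈ Bc R U' Z' → T φ ∈ Bc R U Z) : H R U' Z' →ₗ[R] H R U Z :=
  Submodule.mapQ _ _ (T.restrict h1) fun φ k => h2 φ.1 φ.2 k

theorem mapH_cls {T : (List Y → R) →ₗ[R] (List X → R)} (h1 : ∀ φ ∈ Zc R U' Z', T φ ∈ Zc R U Z)
    (h2 : ∀ φ ∈ Zc R U' Z', φ ∈ Bc R U' Z' → T φ ∈ Bc R U Z) {φ : List Y → R} (h : φ ∈ Zc R U' Z') :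
    mapH T h1 h2 (cls U' Z' φ) = cls U Z (T φ) := by
  rw [cls_eq_mk h, cls_eq_mk (h1 φ h)]; rfl

/-! Pull-back -/

/-- `f` agrees on `U` with a map that is continuous at the points of `U`. -/
def Ext (f : X → Y) (U : Set X) : Prop := ∃ g, EqOn f g U ∧ ∀ x ∈ U, ContinuousAt g x

/-- The condition under which `pull f U Z : H R U' Z' → H R U Z` is defined. -/
structure Ok (f : X → Y) (U Z : Set X) (U' Z' : Set Y) : Prop where
  ext : Ext f U
  maps : MapsTo f U U'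
  supp : MapsTo f (U \ Z) (U' \ Z')

variable {f g : X → Y} {f' : Y → W}

theorem Ext.mono (h : Ext f U) (k : U₁ ⊆ U) : Ext f U₁ :=
  h.imp fun _ e => ⟨e.1.mono k, fun x hx => e.2 x (k hx)⟩

theorem Ext.of_continuous (h : Continuous f) (U : Set X) : Ext f U :=
  ⟨f, fun _ _ => rfl, fun _ _ => h.continuousAt⟩

theorem Ext.of_continuousAt (h : ∀ x ∈ U, ContinuousAt f x) : Ext f U := ⟨f, fun _ _ => rfl, h⟩

theorem Ext.congr (h : Ext f U) (k : EqOn f g U) : Ext g U :=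
  h.imp fun _ e => ⟨k.symm.trans e.1, e.2⟩

theorem Ext.continuousOn (h : Ext f U) : ContinuousOn f U := by
  obtain ⟨g, h1, h2⟩ := h
  exact ContinuousOn.congr (fun x hx => (h2 x hx).continuousWithinAt) h1

theorem Ext.comp (h' : Ext f' U') (h : Ext f U) (k : MapsTo f U U') : Ext (f' ∘ f) U := by
  obtain ⟨g, h1, h2⟩ := h
  obtain ⟨g', h3, h4⟩ := h'
  refine ⟨g' ∘ g, fun x hx => ?_, fun x hx => (h4 _ (h1 hx ▸ k hx)).comp (h2 x hx)⟩
  rw [Function.comp_apply, h3 (k hx), h1 hx]; rfl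

theorem Ext.prodMk {f₂ : X → W} (h : Ext f U) (h' : Ext f₂ U) : Ext (fun x => (f x, f₂ x)) U := by
  obtain ⟨g, h1, h2⟩ := h
  obtain ⟨g', h3, h4⟩ := h'
  exact ⟨fun x => (g x, g' x), fun x hx => Prod.ext (h1 hx) (h3 hx),
    fun x hx => (h2 x hx).prodMk (h4 x hx)⟩

theorem Ext.prodMap {V : Type} [TopologicalSpace V] {f₂ : W → V} (h : Ext f U) (h' : Ext f₂ U'') :
    Ext (Prod.map f f₂) (U ×ˢ U'') :=
  (h.comp (.of_continuous continuous_fst _) fun _ k => k.1).prodMk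
    (h'.comp (.of_continuous continuous_snd _) fun _ k => k.2)

/-- A locally closed set is a retract, continuously at its own points. -/
theorem exists_retr [RegularSpace X] [SecondCountableTopology X] (hU : IsLocallyClosed U)
    (hne : U.Nonempty) : ∃ r : X → X, (∀ x, r x ∈ U) ∧ (∀ x ∈ U, r x = x) ∧
      ∀ x ∈ U, ContinuousAt r x := by
  let _ := TopologicalSpace.pseudoMetrizableSpacePseudoMetric X
  have : ∀ x, ∃ y ∈ U, (x ∈ U → y = x) ∧ (x ∉ closure U → dist x y < 2 * Metric.infDist x U) := by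
    intro x
    by_cases h : x ∈ U
    · exact ⟨x, h, fun _ => rfl, fun k => (k (subset_closure h)).elim⟩
    by_cases k : x ∈ closure U
    · exact ⟨_, hne.choose_spec, fun e => (h e).elim, fun e => (e k).elim⟩
    have := (Metric.infDist_pos_iff_notMem_closure hne).1 k
    obtain ⟨y, h1, h2⟩ := (Metric.infDist_lt_iff hne).1
      (show Metric.infDist x U < 2 * Metric.infDist x U by linarith)
    exact ⟨y, h1, fun e => (h e).elim, fun _ => h2⟩
  choose r r1 r2 r3 using this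
  refine ⟨r, r1, r2, fun x hx => Metric.continuousAt_iff'.2 fun ε hε => ?_⟩
  have key : ∀ x ∈ U, ∃ O, x ∈ O ∧ IsOpen O ∧ O ∩ closure U ⊆ U :=
    ((isLocallyClosed_tfae U).out 0 3).1 hU
  obtain ⟨O, hO, hO', e⟩ := key x hx
  filter_upwards [hO'.mem_nhds hO, Metric.ball_mem_nhds x (show 0 < ε / 3 by positivity)] with y h1 h2
  rw [r2 x hx]
  have h2' : dist y x < ε / 3 := h2
  by_cases k : y ∈ closure U
  · rw [r2 y (e ⟨h1, k⟩)]; linarith
  · have := r3 y k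
    have := Metric.infDist_le_dist_of_mem (x := y) hx
    have := dist_triangle_left (r y) x y
    linarith

theorem Ext.of_continuousOn [RegularSpace X] [SecondCountableTopology X] (hU : IsLocallyClosed U)
    (h : ContinuousOn f U) : Ext f U := by
  rcases U.eq_empty_or_nonempty with rfl | hne
  · exact ⟨f, fun _ _ => rfl, fun _ k => k.elim⟩
  obtain ⟨r, r1, r2, r3⟩ := exists_retr hU hne
  refine ⟨f ∘ r, fun x hx => by rw [Function.comp_apply, r2 x hx], fun x hx => ?_⟩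
  have : Tendsto r (𝓝 x) (𝓝[U] x) :=
    tendsto_nhdsWithin_iff.2 ⟨by simpa only [ContinuousAt, r2 x hx] using r3 x hx, .of_forall r1⟩
  simpa only [ContinuousAt, Function.comp_apply, r2 x hx] using (h x hx).tendsto.comp this

theorem Ok.adm (h : Ok f U Z U' Z') (e : EqOn f g U) (k : ∀ x ∈ U, ContinuousAt g x) :
    Adm g U Z U' Z' :=
  ⟨k, h.maps.congr e, h.supp.congr (e.mono sdiff_subset)⟩

theorem ok_iff : Ok f U Z U' Z' ↔ ∃ g, EqOn f g U ∧ Adm g U Z U' Z' :=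
  ⟨fun h => h.ext.imp fun _ e => ⟨e.1, h.adm e.1 e.2⟩, fun ⟨g, e, k⟩ =>
    ⟨⟨g, e, k.cont⟩, k.maps.congr e.symm, k.supp.congr (e.mono sdiff_subset).symm⟩⟩

theorem Adm.ok (h : Adm f U Z U' Z') : Ok f U Z U' Z' := ok_iff.2 ⟨f, fun _ _ => rfl, h⟩

theorem Ok.of_mem (h : Ext f U) (h1 : MapsTo f U U') (h2 : ∀ x ∈ U, f x ∈ Z' → x ∈ Z) :
    Ok f U Z U' Z' := ⟨h, h1, fun x hx => ⟨h1 hx.1, fun k => hx.2 (h2 x hx.1 k)⟩⟩

theorem Ok.mem (h : Ok f U Z U' Z') {x : X} (hx : x ∈ U) (k : f x ∈ Z') : x ∈ Z :=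
  by_contra fun e => (h.supp ⟨hx, e⟩).2 k

theorem Ok.id (h1 : U₁ ⊆ U) (h2 : ∀ x ∈ U₁, x ∈ Z → x ∈ Z₁) : Ok id U₁ Z₁ U Z :=
  .of_mem (.of_continuous continuous_id _) h1 h2

theorem Ok.refl : Ok _root_.id U Z U Z := .id subset_rfl fun _ _ h => h

theorem Ok.comp (h' : Ok f' U' Z' U'' Z'') (h : Ok f U Z U' Z') : Ok (f' ∘ f) U Z U'' Z'' :=
  ⟨h'.ext.comp h.ext h.maps, h'.maps.comp h.maps, h'.supp.comp h.supp⟩

theorem Ok.congr (h : Ok f U Z U' Z') (e : EqOn f g U) : Ok g U Z U' Z' :=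
  ⟨h.ext.congr e, h.maps.congr e, h.supp.congr (e.mono sdiff_subset)⟩

theorem Adm.zc (h : Adm f U Z U' Z') {φ : List Y → R} (k : φ ∈ Zc R U' Z') : pullc f φ ∈ Zc R U Z :=
  mem_Zc.2 ⟨bd_pullc f k.1.1, dl_pullc f φ ▸ lz_pullc h.cont h.maps k.1.2,
    lz_pullc (fun x hx => h.cont x hx.1) h.supp k.2⟩

theorem pull0_cls (h : Adm f U Z U' Z') {φ : List Y → R} (k : φ ∈ Zc R U' Z') :
    pull0 h (cls U' Z' φ) = cls U Z (pullc f φ) := by
  rw [cls_eq_mk k, cls_eq_mk (h.zc k)]; rfl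

theorem prc_lz {A : Set X} {A' : Set Y} (e : EqOn f g A) (h1 : ∀ x ∈ A, ContinuousAt f x)
    (h2 : ∀ x ∈ A, ContinuousAt g x) (h3 : MapsTo f A A') {φ : List Y → R} (h : φ ∈ lz R A') :
    prc f g φ ∈ lz R A := fun x hx => by
  obtain ⟨V, hV, k⟩ := h _ (h3 hx)
  refine ⟨f ⁻¹' V ∩ g ⁻¹' V, inter_mem (h1 x hx hV) (h2 x hx (e hx ▸ hV)), fun l hl =>
    prc_zero f g l φ fun m _ hm => k m fun y hy => ?_⟩
  obtain ⟨x, k1, rfl | rfl⟩ := hm y hy
  exacts [(hl x k1).1, (hl x k1).2]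

theorem prc_bd (f g : X → Y) {φ : List Y → R} (h : φ ∈ bd R Y) : prc f g φ ∈ bd R X :=
  ⟨rfl, h.2.imp fun _ k l hl => prc_zero f g l φ fun m e _ => k m (by omega)⟩

theorem cls_pullc_congr (h1 : Adm f U Z U' Z') (h2 : Adm g U Z U' Z') (e : EqOn f g U)
    {φ : List Y → R} (k : φ ∈ Zc R U' Z') : cls U Z (pullc g φ) = cls U Z (pullc f φ) :=
  (cls_eq_cls (h2.zc k) (h1.zc k)).2 ⟨prc f g φ, prc_bd f g k.1.1,
    prc_lz (e.mono sdiff_subset) (fun x hx => h1.cont x hx.1) (fun x hx => h2.cont x hx.1)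
      h1.supp k.2, by
    rw [← dl_prc, add_sub_cancel_left]
    exact prc_lz e h1.cont h2.cont h1.maps k.1.2⟩

theorem pull_cls (e : EqOn f g U) (h : Adm g U Z U' Z') {φ : List Y → R} (k : φ ∈ Zc R U' Z') :
    pull f U Z (cls U' Z' φ) = cls U Z (pullc g φ) := by
  have h0 : ∃ g, EqOn f g U ∧ Adm g U Z U' Z' := ⟨g, e, h⟩
  rw [pull_eq h0, pull0_cls _ k]
  exact cls_pullc_congr h h0.choose_spec.2 (e.symm.trans h0.choose_spec.1) k

theorem Adm.pull_cls (h : Adm f U Z U' Z') {φ : List Y → R} (k : φ ∈ Zc R U' Z') :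
    pull f U Z (cls U' Z' φ) = cls U Z (pullc f φ) := TZ.pull_cls (fun _ _ => rfl) h k

theorem pull_of_not_ok (h : ¬ Ok f U Z U' Z') : (pull f U Z : H R U' Z' →ₗ[R] H R U Z) = 0 :=
  dif_neg (ok_iff.not.1 h)

theorem Ok.adm_id (h : Ok _root_.id U₁ Z₁ U Z) : Adm _root_.id U₁ Z₁ U Z :=
  h.adm (fun _ _ => rfl) fun _ _ => continuousAt_id

theorem Ok.zc_id (h : Ok _root_.id U₁ Z₁ U Z) (k : φ ∈ Zc R U Z) : φ ∈ Zc R U₁ Z₁ :=
  pullc_id φ ▸ h.adm_id.zc k

theorem res_cls (h : Ok id U₁ Z₁ U Z) (k : φ ∈ Zc R U Z) :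
    pull id U₁ Z₁ (cls U Z φ) = cls U₁ Z₁ φ := by rw [h.adm_id.pull_cls k, pullc_id]

theorem pull_id (a : H R U Z) : pull id U Z a = a := by
  obtain ⟨φ, k, rfl⟩ := exists_cls a
  exact res_cls .refl k

theorem pull_congr (e : EqOn f g U) : (pull f U Z : H R U' Z' →ₗ[R] H R U Z) = pull g U Z := by
  by_cases h : Ok f U Z U' Z'
  · obtain ⟨g', h1, h2⟩ := ok_iff.1 h
    exact H_ext fun φ k => by rw [pull_cls h1 h2 k, pull_cls (e.symm.trans h1) h2 k]
  · rw [pull_of_not_ok h, pull_of_not_ok fun k => h (k.congr e.symm)]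

theorem pull_pull (h : Ok f U Z U' Z') (h' : Ok f' U' Z' U'' Z'') (a : H R U'' Z'') :
    pull f U Z (pull f' U' Z' a) = pull (f' ∘ f) U Z a := by
  obtain ⟨φ, k, rfl⟩ := exists_cls a
  obtain ⟨g, h1, h2⟩ := ok_iff.1 h
  obtain ⟨g', h3, h4⟩ := ok_iff.1 h'
  have e : EqOn (f' ∘ f) (g' ∘ g) U := fun x hx => by
    rw [Function.comp_apply, h3 (h.maps hx), h1 hx]; rfl
  rw [pull_cls h3 h4 k, pull_cls h1 h2 (h4.zc k), pullc_pullc, pull_cls e
    ((h'.comp h).adm e fun x hx => (h4.cont _ (h2.maps hx)).comp (h2.cont x hx)) k]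

theorem pull_pull' {F : X → W} (h : Ok f U Z U' Z') (h' : Ok f' U' Z' U'' Z'')
    (e : ∀ x ∈ U, f' (f x) = F x) (a : H R U'' Z'') :
    pull f U Z (pull f' U' Z' a) = pull F U Z a := by
  rw [pull_pull h h', pull_congr (f := f' ∘ f) (g := F) e]

/-- Pull-back along a homeomorphism of pairs. -/
theorem pull_bij_of_inv {s : Y → X} (h : Ok f U Z U' Z') (h' : Ok s U' Z' U Z)
    (e : ∀ x ∈ U, s (f x) = x) (e' : ∀ y ∈ U', f (s y) = y) :
    Function.Bijective (pull f U Z : H R U' Z' → H R U Z) :=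
  Function.bijective_iff_has_inverse.2 ⟨pull s U' Z', fun a => by
    rw [pull_pull' (F := id) h' h e', pull_id], fun a => by
    rw [pull_pull' (F := id) h h' e, pull_id]⟩

theorem res_bij_of_eq (h : ∀ x ∈ U, x ∈ Z ↔ x ∈ Z₁) :
    Function.Bijective (pull id U Z₁ : H R U Z → H R U Z₁) :=
  pull_bij_of_inv (s := id) (.id subset_rfl fun x k => (h x k).1)
    (.id subset_rfl fun x k => (h x k).2) (fun _ _ => rfl) fun _ _ => rfl

/-! Cup product -/

theorem cup_cls (h : CupOK U₁ Z₁ U₂ Z₂ U Z) (h1 : φ ∈ Zc R U₁ Z₁) (h2 : ψ ∈ Zc R U₂ Z₂) :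
    cup U Z (cls U₁ Z₁ φ) (cls U₂ Z₂ ψ) = cls U Z (cupc φ ψ) := by
  rw [cup_eq h, cls_eq_mk h1, cls_eq_mk h2, cls_eq_mk (h.zc h1 h2)]; rfl

theorem CupOK.of_subset (h1 : U ⊆ U₁) (h2 : U ⊆ U₂) (h : ∀ x ∈ U, x ∈ Z₁ → x ∈ Z₂ → x ∈ Z) :
    CupOK U₁ Z₁ U₂ Z₂ U Z :=
  ⟨fun _ k => Or.inr (h2 k), fun _ k => Or.inl (h1 k), fun x k => by
    by_cases e : x ∈ Z₁
    · exact Or.inr ⟨h2 k.1, fun e' => k.2 (h x k.1 e e')⟩
    · exact Or.inl ⟨h1 k.1, e⟩⟩

theorem CupOK.symm (h : CupOK U₁ Z₁ U₂ Z₂ U Z) : CupOK U₂ Z₂ U₁ Z₁ U Z :=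
  ⟨fun _ k => (h.right k).symm, fun _ k => (h.left k).symm, fun _ k => (h.supp k).symm⟩

theorem pull_cup {V : Set X} (hV : Ext f V) (k : U ⊆ V) (k1 : U₁ ⊆ V) (k2 : U₂ ⊆ V)
    (h : Ok f U Z U' Z') (h1 : Ok f U₁ Z₁ U₁' Z₁') (h2 : Ok f U₂ Z₂ U₂' Z₂')
    (c : CupOK U₁ Z₁ U₂ Z₂ U Z) (c' : CupOK U₁' Z₁' U₂' Z₂' U' Z') (a : H R U₁' Z₁')
    (b : H R U₂' Z₂') :
    pull f U Z (cup U' Z' a b) = cup U Z (pull f U₁ Z₁ a) (pull f U₂ Z₂ b) := by
  obtain ⟨φ, m1, rfl⟩ := exists_cls a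
  obtain ⟨ψ, m2, rfl⟩ := exists_cls b
  obtain ⟨g, e, hg⟩ := hV
  have a0 := h.adm (e.mono k) fun x hx => hg x (k hx)
  have a1 := h1.adm (e.mono k1) fun x hx => hg x (k1 hx)
  have a2 := h2.adm (e.mono k2) fun x hx => hg x (k2 hx)
  rw [cup_cls c' m1 m2, pull_cls (e.mono k) a0 (c'.zc m1 m2), pull_cls (e.mono k1) a1 m1,
    pull_cls (e.mono k2) a2 m2, cup_cls c (a1.zc m1) (a2.zc m2), pullc_cupc]

theorem pull_cup' (h : Ok f U Z U' Z') (h1 : Ok f U Z₁ U₁' Z₁') (h2 : Ok f U Z₂ U₂' Z₂')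
    (c : ∀ x ∈ U, x ∈ Z₁ → x ∈ Z₂ → x ∈ Z) (c' : CupOK U₁' Z₁' U₂' Z₂' U' Z') (a : H R U₁' Z₁')
    (b : H R U₂' Z₂') :
    pull f U Z (cup U' Z' a b) = cup U Z (pull f U Z₁ a) (pull f U Z₂ b) :=
  pull_cup h.ext subset_rfl subset_rfl subset_rfl h h1 h2 (.of_subset subset_rfl subset_rfl c) c' a b

theorem res_cup {V W V₁ W₁ V₂ W₂ : Set X} (h : Ok id V W U Z) (h1 : Ok id V₁ W₁ U₁ Z₁)
    (h2 : Ok id V₂ W₂ U₂ Z₂) (c : CupOK V₁ W₁ V₂ W₂ V W) (c' : CupOK U₁ Z₁ U₂ Z₂ U Z)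
    (a : H R U₁ Z₁) (b : H R U₂ Z₂) :
    pull id V W (cup U Z a b) = cup V W (pull id V₁ W₁ a) (pull id V₂ W₂ b) :=
  pull_cup (.of_continuous continuous_id univ) (subset_univ _) (subset_univ _) (subset_univ _)
    h h1 h2 c c' a b

theorem res_cup_out {V W : Set X} (h : Ok id V W U Z) (c' : CupOK U₁ Z₁ U₂ Z₂ U Z)
    (a : H R U₁ Z₁) (b : H R U₂ Z₂) : pull id V W (cup U Z a b) = cup V W a b := by
  rw [res_cup h .refl .refl ⟨fun _ k => c'.left (h.maps k), fun _ k => c'.right (h.maps k),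
    fun _ k => c'.supp (h.supp k)⟩ c', pull_id, pull_id]

theorem cup_res_left {V₁ W₁ : Set X} (h1 : Ok id V₁ W₁ U₁ Z₁) (c : CupOK V₁ W₁ U₂ Z₂ U Z)
    (a : H R U₁ Z₁) (b : H R U₂ Z₂) : cup U Z (pull id V₁ W₁ a) b = cup U Z a b := by
  have := res_cup .refl h1 .refl c ⟨fun _ k => (c.left k).imp_left fun e => h1.supp e,
    fun _ k => (c.right k).imp_left fun e => h1.maps e,
    fun _ k => (c.supp k).imp_left fun e => h1.supp e⟩ a b
  rw [pull_id, pull_id] at this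
  exact this.symm

theorem cup_res_right {V₂ W₂ : Set X} (h2 : Ok id V₂ W₂ U₂ Z₂) (c : CupOK U₁ Z₁ V₂ W₂ U Z)
    (a : H R U₁ Z₁) (b : H R U₂ Z₂) : cup U Z a (pull id V₂ W₂ b) = cup U Z a b := by
  have := res_cup .refl .refl h2 c ⟨fun _ k => (c.left k).imp_right fun e => h2.maps e,
    fun _ k => (c.right k).imp_right fun e => h2.supp e,
    fun _ k => (c.supp k).imp_right fun e => h2.supp e⟩ a b
  rw [pull_id, pull_id] at this
  exact this.symm

theorem cup_assoc {U₃ Z₃ V W V' W' : Set X} (c1 : CupOK U₁ Z₁ U₂ Z₂ V W) (c2 : CupOK V W U₃ Z₃ U Z)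
    (c3 : CupOK U₂ Z₂ U₃ Z₃ V' W') (c4 : CupOK U₁ Z₁ V' W' U Z) (a : H R U₁ Z₁) (b : H R U₂ Z₂)
    (c : H R U₃ Z₃) : cup U Z (cup V W a b) c = cup U Z a (cup V' W' b c) := by
  obtain ⟨φ, m1, rfl⟩ := exists_cls a
  obtain ⟨ψ, m2, rfl⟩ := exists_cls b
  obtain ⟨χ, m3, rfl⟩ := exists_cls c
  rw [cup_cls c1 m1 m2, cup_cls c2 (c1.zc m1 m2) m3, cup_cls c3 m2 m3,
    cup_cls c4 m1 (c3.zc m2 m3), cupc_assoc]

theorem onec_zc (h : U ⊆ Z) : onec ∈ Zc R U Z :=
  mem_Zc.2 ⟨onec_bd, dl_onec (X := X) (R := R) ▸ zero_mem _, by rw [sdiff_eq_empty.2 h]; exact lz_empty _⟩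

theorem cup_one (h : U₂ ⊆ Z₂) (c : CupOK U₁ Z₁ U₂ Z₂ U Z) (k : Ok id U Z U₁ Z₁) (a : H R U₁ Z₁) :
    cup U Z a (cls U₂ Z₂ onec) = pull id U Z a := by
  obtain ⟨φ, m1, rfl⟩ := exists_cls a
  rw [cup_cls c m1 (onec_zc h), cupc_onec m1.1.1.1, res_cls k m1]

theorem one_cup (h : U₁ ⊆ Z₁) (c : CupOK U₁ Z₁ U₂ Z₂ U Z) (k : Ok id U Z U₂ Z₂) (a : H R U₂ Z₂) :
    cup U Z (cls U₁ Z₁ onec) a = pull id U Z a := by
  obtain ⟨φ, m1, rfl⟩ := exists_cls a
  rw [cup_cls c (onec_zc h) m1, onec_cupc m1.1.1.1, res_cls k m1]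

theorem cup_one' (h : U ⊆ Z₂) (a : H R U Z) : cup U Z a (cls U Z₂ onec) = a := by
  rw [cup_one h (.of_subset subset_rfl subset_rfl fun _ _ k _ => k) .refl, pull_id]

theorem one_cup' (h : U ⊆ Z₁) (a : H R U Z) : cup U Z (cls U Z₁ onec) a = a := by
  rw [one_cup h (.of_subset subset_rfl subset_rfl fun _ _ _ k => k) .refl, pull_id]

theorem pull_one (h : Ok f U Z U' Z') (k : U' ⊆ Z') :
    pull f U Z (cls U' Z' onec) = (cls U Z onec : H R U Z) := by
  obtain ⟨g, h1, h2⟩ := ok_iff.1 h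
  rw [pull_cls h1 h2 (onec_zc k), pullc_onec]

theorem rev_lz {A : Set X} (h : φ ∈ lz R A) : rev φ ∈ lz R A := fun x hx =>
  (h x hx).imp fun _ k => ⟨k.1, fun l hl => by
    rw [rev_apply, k.2 _ (by simpa using hl), mul_zero]⟩

theorem rev_bd (h : φ ∈ bd R X) : rev φ ∈ bd R X :=
  ⟨by simp [rev_apply, h.1], h.2.imp fun _ k l hl => by
    rw [rev_apply, k _ (by simpa using hl), mul_zero]⟩

theorem rh_lz {A : Set X} (h : φ ∈ lz R A) : rh φ ∈ lz R A := fun x hx =>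
  (h x hx).imp fun V k => ⟨k.1, fun l hl => rh_zero V l φ hl fun m _ => k.2 m⟩

theorem rh_bd (h : φ ∈ bd R X) : rh φ ∈ bd R X :=
  ⟨rfl, h.2.imp fun _ k l hl => rh_zero univ l φ (fun _ _ => trivial) fun m e _ => k m (by omega)⟩

theorem rev_zc (h : φ ∈ Zc R U Z) : rev φ ∈ Zc R U Z :=
  mem_Zc.2 ⟨rev_bd h.1.1, dl_rev φ ▸ rev_lz h.1.2, rev_lz h.2⟩

theorem cls_rev (h : φ ∈ Zc R U Z) : cls U Z (rev φ) = cls U Z φ :=
  (cls_eq_cls (rev_zc h) h).2 ⟨rh φ, rh_bd h.1.1, rh_lz h.2, by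
    rw [← dl_rh, add_sub_cancel_left]; exact rh_lz h.1.2⟩

/-- Graded commutativity. -/
theorem cup_comm (c : CupOK U₁ Z₁ U₂ Z₂ U Z) {p q : ℤ} {a : H R U₁ Z₁} {b : H R U₂ Z₂}
    (ha : IsDeg p a) (hb : IsDeg q b) : cup U Z b a = sg R (p * q) • cup U Z a b := by
  obtain ⟨φ, m1, rfl, d1⟩ := ha
  obtain ⟨ψ, m2, rfl, d2⟩ := hb
  rw [cup_cls c.symm m2 m1, ← cls_rev (c.symm.zc m2 m1), rev_cupc_hom d1 d2,
    cls_smul _ (c.zc (rev_zc m1) (rev_zc m2)), ← cup_cls c (rev_zc m1) (rev_zc m2), cls_rev m1,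
    cls_rev m2]

/-- Classes of even degree are central. -/
theorem cup_comm_even (c : CupOK U₁ Z₁ U₂ Z₂ U Z) {p : ℤ} {a : H R U₁ Z₁} (ha : IsDeg (2 * p) a)
    (b : H R U₂ Z₂) : cup U Z b a = cup U Z a b := by
  obtain ⟨φ, m1, rfl, d1⟩ := ha
  obtain ⟨ψ, m2, rfl⟩ := exists_cls b
  rw [cup_cls c.symm m2 m1, ← cls_rev (c.symm.zc m2 m1), rev_cupc_even d1,
    ← cup_cls c (rev_zc m1) (rev_zc m2), cls_rev m1, cls_rev m2]

/-! Degrees -/

theorem msk_zc (s : Set ℤ) (h : φ ∈ Zc R U Z) : msk s φ ∈ Zc R U Z :=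
  mem_Zc.2 ⟨msk_bd s h.1.1, by
    rw [dl_msk (t := {p | p - 1 ∈ s}) (by simp)]; exact msk_lz _ h.1.2, msk_lz s h.2⟩

/-- The components of a class whose degree lies in `s`. -/
def prj (s : Set ℤ) : H R U Z →ₗ[R] H R U Z :=
  mapH (msk s) (fun _ => msk_zc s) fun φ _ h => by
    obtain ⟨ψ, h1, h2, h3⟩ := mem_Bc.1 h
    refine mem_Bc.2 ⟨msk {p | p + 1 ∈ s} ψ, msk_bd _ h1, msk_lz _ h2, ?_⟩
    rw [dl_msk (t := s) (by simp), ← map_sub]
    exact msk_lz _ h3

theorem prj_cls (s : Set ℤ) (h : φ ∈ Zc R U Z) : prj s (cls U Z φ) = cls U Z (msk s φ) :=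
  mapH_cls _ _ h

theorem isDeg_prj (p : ℤ) (a : H R U Z) : IsDeg p (prj {p} a) := by
  obtain ⟨φ, m, rfl⟩ := exists_cls a
  exact ⟨_, msk_zc _ m, prj_cls _ m, Hom.msk p φ⟩

theorem IsDeg.prj_eq {p : ℤ} {a : H R U Z} (h : IsDeg p a) {s : Set ℤ} (hs : p ∈ s) :
    prj s a = a := by
  obtain ⟨φ, m, rfl, d⟩ := h
  rw [prj_cls _ m, Hom.msk_eq d hs]

theorem IsDeg.prj_eq_zero {p : ℤ} {a : H R U Z} (h : IsDeg p a) {s : Set ℤ} (hs : p ∉ s) :
    prj s a = 0 := by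
  obtain ⟨φ, m, rfl, d⟩ := h
  rw [prj_cls _ m, Hom.msk_eq_zero d hs, cls_zero]

theorem isDeg_iff {p : ℤ} {a : H R U Z} : IsDeg p a ↔ prj {p} a = a :=
  ⟨fun h => h.prj_eq rfl, fun h => h ▸ isDeg_prj p a⟩

theorem isDeg_cls {p : ℤ} (h : φ ∈ Zc R U Z) (d : Hom p φ) : IsDeg p (cls U Z φ) := ⟨φ, h, rfl, d⟩

theorem IsDeg.zero (p : ℤ) : IsDeg p (0 : H R U Z) := isDeg_iff.2 (map_zero _)

theorem IsDeg.add {p : ℤ} {a b : H R U Z} (h1 : IsDeg p a) (h2 : IsDeg p b) : IsDeg p (a + b) :=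
  isDeg_iff.2 (by rw [map_add, isDeg_iff.1 h1, isDeg_iff.1 h2])

theorem IsDeg.sub {p : ℤ} {a b : H R U Z} (h1 : IsDeg p a) (h2 : IsDeg p b) : IsDeg p (a - b) :=
  isDeg_iff.2 (by rw [map_sub, isDeg_iff.1 h1, isDeg_iff.1 h2])

theorem IsDeg.neg {p : ℤ} {a : H R U Z} (h1 : IsDeg p a) : IsDeg p (-a) :=
  isDeg_iff.2 (by rw [map_neg, isDeg_iff.1 h1])

theorem IsDeg.smul {p : ℤ} {a : H R U Z} (h1 : IsDeg p a) (c : R) : IsDeg p (c • a) :=
  isDeg_iff.2 (by rw [map_smul, isDeg_iff.1 h1])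

theorem IsDeg.sum {ι : Type} {p : ℤ} (s : Finset ι) {a : ι → H R U Z} (h : ∀ i ∈ s, IsDeg p (a i)) :
    IsDeg p (∑ i ∈ s, a i) :=
  isDeg_iff.2 (by rw [map_sum]; exact Finset.sum_congr rfl fun i hi => isDeg_iff.1 (h i hi))

theorem IsDeg.eq_zero_of_ne {p q : ℤ} {a : H R U Z} (h1 : IsDeg p a) (h2 : IsDeg q a) (h : p ≠ q) :
    a = 0 := by rw [← isDeg_iff.1 h2, h1.prj_eq_zero h]

theorem IsDeg.eq_zero_of_neg {p : ℤ} {a : H R U Z} (h1 : IsDeg p a) (h : p < 0) : a = 0 := by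
  obtain ⟨φ, m, rfl, d⟩ := h1
  have : φ = 0 := funext fun l => by
    cases l with
    | nil => exact m.1.1.1
    | cons a l => exact d _ (by simp; omega)
  rw [this, cls_zero]

theorem exists_sum_prj (a : H R U Z) : ∃ n : ℕ, a = ∑ p ∈ Finset.range n, prj {(p : ℤ)} a := by
  obtain ⟨φ, m, rfl⟩ := exists_cls a
  obtain ⟨h0, n, hn⟩ := m.1.1
  refine ⟨n, ?_⟩
  simp only [prj_cls _ m]
  rw [← cls_sum _ fun p _ => msk_zc _ m]
  congr 1
  funext l
  rw [Finset.sum_apply]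
  by_cases k : 0 < l.length ∧ l.length ≤ n
  · rw [Finset.sum_eq_single (l.length - 1), msk_of_mem _ (by simp; omega)]
    · exact fun b _ hb => msk_of_not_mem _ (by simp; omega)
    · simp; omega
  · have : φ l = 0 := by
      cases l with
      | nil => exact h0
      | cons a l => exact hn _ (by simp at k ⊢; omega)
    rw [this]
    exact (Finset.sum_eq_zero fun p _ => msk_zero this).symm

theorem eq_zero_of_prj {a : H R U Z} (h : ∀ p : ℕ, prj {(p : ℤ)} a = 0) : a = 0 := by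
  obtain ⟨n, e⟩ := exists_sum_prj a
  rw [e]; simp [h]

theorem pull_prj (s : Set ℤ) (a : H R U' Z') : pull f U Z (prj s a) = prj s (pull f U Z a) := by
  by_cases h : Ok f U Z U' Z'
  · obtain ⟨φ, m, rfl⟩ := exists_cls a
    obtain ⟨g, h1, h2⟩ := ok_iff.1 h
    rw [prj_cls _ m, pull_cls h1 h2 m, pull_cls h1 h2 (msk_zc _ m), prj_cls _ (h2.zc m), pullc_msk]
  · simp [pull_of_not_ok h]

theorem IsDeg.pull {p : ℤ} {a : H R U' Z'} (h : IsDeg p a) (f : X → Y) (U Z : Set X) :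
    IsDeg p (pull f U Z a) := isDeg_iff.2 (by rw [← pull_prj, isDeg_iff.1 h])

theorem cup_of_not_ok (h : ¬ CupOK U₁ Z₁ U₂ Z₂ U Z) (a : H R U₁ Z₁) (b : H R U₂ Z₂) :
    cup U Z a b = 0 := by rw [cup, if_neg h]; rfl

theorem cup_prj_left {s t : Set ℤ} {k : ℤ} (h : ∀ p, p + k ∈ t ↔ p ∈ s) (a : H R U₁ Z₁)
    {b : H R U₂ Z₂} (hb : IsDeg k b) : cup U Z (prj s a) b = prj t (cup U Z a b) := by
  by_cases c : CupOK U₁ Z₁ U₂ Z₂ U Z
  · obtain ⟨φ, m, rfl⟩ := exists_cls a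
    obtain ⟨ψ, m2, rfl, d⟩ := hb
    rw [prj_cls _ m, cup_cls c m m2, cup_cls c (msk_zc _ m) m2, prj_cls _ (c.zc m m2),
      msk_cupc_left h φ d]
  · simp [cup_of_not_ok c]

theorem cup_prj_right {s t : Set ℤ} {k : ℤ} (h : ∀ p, p + k ∈ t ↔ p ∈ s) {a : H R U₁ Z₁}
    (ha : IsDeg k a) (b : H R U₂ Z₂) : cup U Z a (prj s b) = prj t (cup U Z a b) := by
  by_cases c : CupOK U₁ Z₁ U₂ Z₂ U Z
  · obtain ⟨φ, m, rfl⟩ := exists_cls b
    obtain ⟨ψ, m2, rfl, d⟩ := ha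
    rw [prj_cls _ m, cup_cls c m2 m, cup_cls c m2 (msk_zc _ m), prj_cls _ (c.zc m2 m),
      msk_cupc_right h φ d]
  · simp [cup_of_not_ok c]

theorem IsDeg.cup {p q : ℤ} {a : H R U₁ Z₁} {b : H R U₂ Z₂} (ha : IsDeg p a) (hb : IsDeg q b)
    (U Z : Set X) : IsDeg (p + q) (cup U Z a b) :=
  isDeg_iff.2 (by rw [← cup_prj_left (s := {p}) (by simp) a hb, isDeg_iff.1 ha])

theorem isDeg_one : IsDeg 0 (cls U Z onec : H R U Z) := by
  by_cases h : onec ∈ Zc R U Z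
  · exact isDeg_cls h hom_onec
  · rw [cls, dif_neg h]; exact .zero _

/-! Values of classes of degree zero -/

/-- The value at `x` of the component of degree zero. -/
def ev (x : X) : H R U Z →ₗ[R] R :=
  open Classical in
  if h : x ∈ U then Submodule.liftQ _ (LinearMap.proj [x] ∘ₗ (Zc R U Z).subtype) fun φ k => by
    obtain ⟨ψ, h1, -, h3⟩ := mem_Bc.1 k
    obtain ⟨V, hV, e⟩ := h3 x h
    have := e [x] (by simpa using mem_of_mem_nhds hV)
    rw [Pi.sub_apply, dl_cons', dl_nil, h1.1] at this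
    simpa using this
  else 0

theorem ev_cls {x : X} (hx : x ∈ U) (h : φ ∈ Zc R U Z) : ev x (cls U Z φ) = φ [x] := by
  rw [ev, dif_pos hx, cls_eq_mk h]; rfl

theorem ev_pull (h : Ok f U Z U' Z') {x : X} (hx : x ∈ U) (a : H R U' Z') :
    ev x (pull f U Z a) = ev (f x) a := by
  obtain ⟨φ, m, rfl⟩ := exists_cls a
  obtain ⟨g, h1, h2⟩ := ok_iff.1 h
  rw [pull_cls h1 h2 m, ev_cls hx (h2.zc m), ev_cls (h.maps hx) m, h1 hx]; rfl

theorem ev_one {x : X} (hx : x ∈ U) (h : U ⊆ Z) : ev x (cls U Z onec : H R U Z) = 1 := by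
  rw [ev_cls hx (onec_zc h)]; rfl

theorem ev_cup (c : CupOK U₁ Z₁ U₂ Z₂ U Z) {x : X} (hx : x ∈ U) (h1 : x ∈ U₁) (h2 : x ∈ U₂)
    (a : H R U₁ Z₁) (b : H R U₂ Z₂) : ev x (cup U Z a b) = ev x a * ev x b := by
  obtain ⟨φ, m1, rfl⟩ := exists_cls a
  obtain ⟨ψ, m2, rfl⟩ := exists_cls b
  rw [cup_cls c m1 m2, ev_cls hx (c.zc m1 m2), ev_cls h1 m1, ev_cls h2 m2, cupc_cons', cupc_nil,
    add_zero]

theorem eventually_apply_eq (h : dl φ ∈ lz R U) {x : X} (hx : x ∈ U) :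
    ∀ᶠ y in 𝓝 x, φ [y] = φ [x] := by
  obtain ⟨V, hV, k⟩ := h x hx
  filter_upwards [hV] with y hy
  have := k [x, y] (by simp [hy, mem_of_mem_nhds hV])
  simp only [dl_cons', dl_nil, cn_apply] at this
  linear_combination this

theorem ev_eventually (a : H R U Z) {x : X} (hx : x ∈ U) : ∀ᶠ y in 𝓝[U] x, ev y a = ev x a := by
  obtain ⟨φ, m, rfl⟩ := exists_cls a
  filter_upwards [mem_nhdsWithin_of_mem_nhds (eventually_apply_eq m.1.2 hx), self_mem_nhdsWithin]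
    with y h1 h2
  rw [ev_cls hx m, ev_cls h2 m, h1]

theorem zc_lz {θ : X → R} {A : Set X} (h : ∀ x ∈ A, ∀ᶠ y in 𝓝 x, θ y = 0) : zc θ ∈ lz R A :=
  fun x hx => ⟨_, h x hx, fun l hl => by
    rcases l with _ | ⟨a, _ | ⟨b, l⟩⟩
    · rfl
    · exact hl a (by simp)
    · rfl⟩

theorem dl_zc_lz {θ : X → R} {A : Set X} (h : ∀ x ∈ A, ∀ᶠ y in 𝓝 x, θ y = θ x) :
    dl (zc θ) ∈ lz R A := fun x hx => ⟨_, h x hx, fun l hl => by
  rw [dl_congr (ψ := θ x • onec), map_smul, dl_onec]; · simp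
  rintro (_ | ⟨a, _ | ⟨b, m⟩⟩) - k
  · simp [zc, onec]
  · simpa [zc, onec] using hl a (k a (by simp))
  · simp [zc, onec]⟩

theorem IsDeg.eq_zero_of_ev {a : H R U Z} (h : IsDeg 0 a) (k : ∀ x ∈ U, ev x a = 0) : a = 0 := by
  obtain ⟨φ, m, rfl, d⟩ := h
  refine (cls_eq_zero m).2 ⟨0, zero_mem _, zero_mem _, ?_⟩
  rw [map_zero, sub_zero, Hom.eq_zc d]
  refine zc_lz fun x hx => (eventually_apply_eq m.1.2 hx).mono fun y hy => ?_
  rw [hy, ← ev_cls hx m, k x hx]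

/-- The cohomology of a point. -/
theorem pt_eq {x : X} (hx : x ∈ Z) (a : H R {x} Z) : a = ev x a • cls {x} Z onec := by
  obtain ⟨φ, m, rfl⟩ := exists_cls a
  have h1 : onec ∈ Zc R {x} Z := onec_zc (singleton_subset_iff.2 hx)
  have m' : φ - φ [x] • onec ∈ Zc R {x} Z := sub_mem m (Submodule.smul_mem _ (φ [x]) h1)
  rw [ev_cls (mem_singleton x) m, ← cls_smul _ h1,
    cls_eq_cls m (Submodule.smul_mem _ (φ [x]) h1)]
  refine ⟨cn x (φ - φ [x] • onec), ⟨by simp [onec], m'.1.1.2.imp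
    fun n k l hl => k (x :: l) (by simp; omega)⟩, ?_, ?_⟩
  · rw [sdiff_eq_empty.2 (singleton_subset_iff.2 hx)]; exact lz_empty _
  · rw [← cn_dl]; exact cn_lz m'.1.2

/-! The long exact sequence -/

theorem dl_zc (h : U \ Z ⊆ U₁) (k : φ ∈ Zc R U₁ Z₁) : dl φ ∈ Zc R U Z :=
  mem_Zc.2 ⟨dl_bd k.1.1, dl_dl φ ▸ zero_mem _, lz_anti h k.1.2⟩

/-- The connecting homomorphism; `0` unless `U \ Z ⊆ U₁`. -/
def dlt (U Z : Set X) {U₁ Z₁ : Set X} : H R U₁ Z₁ →ₗ[R] H R U Z :=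
  open Classical in
  if h : U \ Z ⊆ U₁ then mapH dl (fun _ => dl_zc h) fun φ m k => by
    obtain ⟨ψ, h1, -, h3⟩ := mem_Bc.1 k
    exact mem_Bc.2 ⟨_, sub_mem m.1.1 (dl_bd h1), lz_anti h h3, by simp [dl_dl]⟩
  else 0

theorem dlt_cls (h : U \ Z ⊆ U₁) (k : φ ∈ Zc R U₁ Z₁) :
    dlt U Z (cls U₁ Z₁ φ) = cls U Z (dl φ) := by rw [dlt, dif_pos h, mapH_cls _ _ k]

theorem IsDeg.dlt {p : ℤ} {a : H R U₁ Z₁} (h : IsDeg p a) (U Z : Set X) :
    IsDeg (p + 1) (dlt U Z a) := by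
  by_cases k : U \ Z ⊆ U₁
  · obtain ⟨φ, m, rfl, d⟩ := h
    rw [dlt_cls k m]; exact isDeg_cls (dl_zc k m) (Hom.dl d)
  · rw [TZ.dlt, dif_neg k]; exact .zero _

theorem dlt_prj {s t : Set ℤ} (h : ∀ p, p + 1 ∈ t ↔ p ∈ s) (a : H R U₁ Z₁) :
    dlt U Z (prj s a) = prj t (dlt U Z a) := by
  by_cases k : U \ Z ⊆ U₁
  · obtain ⟨φ, m, rfl⟩ := exists_cls a
    rw [prj_cls _ m, dlt_cls k m, dlt_cls k (msk_zc _ m), prj_cls _ (dl_zc k m), dl_msk h]
  · simp [TZ.dlt, dif_neg k]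

theorem pull_dlt {V : Set X} (hV : Ext f V) (k : U ⊆ V) (k1 : U₁ ⊆ V) (h : Ok f U Z U' Z')
    (h1 : Ok f U₁ Z₁ U₁' Z₁') (c : U \ Z ⊆ U₁) (c' : U' \ Z' ⊆ U₁') (a : H R U₁' Z₁') :
    pull f U Z (dlt U' Z' a) = dlt U Z (pull f U₁ Z₁ a) := by
  obtain ⟨φ, m, rfl⟩ := exists_cls a
  obtain ⟨g, e, hg⟩ := hV
  have a0 := h.adm (e.mono k) fun x hx => hg x (k hx)
  have a1 := h1.adm (e.mono k1) fun x hx => hg x (k1 hx)
  rw [dlt_cls c' m, pull_cls (e.mono k) a0 (dl_zc c' m), pull_cls (e.mono k1) a1 m,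
    dlt_cls c (a1.zc m), dl_pullc]

theorem dlt_cup {V W V₁ W₁ : Set X} (c : CupOK U₁ Z₁ U₂ Z₂ V W) (c' : CupOK V₁ W₁ U₂ Z₂ U Z)
    (k : U \ Z ⊆ V) (k1 : V₁ \ W₁ ⊆ U₁) (k2 : U ⊆ (U₁ \ Z₁) ∪ U₂) (a : H R U₁ Z₁) (b : H R U₂ Z₂) :
    dlt U Z (cup V W a b) = cup U Z (dlt V₁ W₁ a) b := by
  obtain ⟨φ, m1, rfl⟩ := exists_cls a
  obtain ⟨ψ, m2, rfl⟩ := exists_cls b
  rw [cup_cls c m1 m2, dlt_cls k (c.zc m1 m2), dlt_cls k1 m1, cup_cls c' (dl_zc k1 m1) m2]
  refine cls_eq_of_lz (dl_zc k (c.zc m1 m2)) (cupc_bd (dl_bd m1.1.1) m2.1.1) ?_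
  rw [dl_cupc m1.1.1.1 m2.1.1.1, add_sub_cancel_left]
  exact cupc_lz (sgc_lz m1.2) m2.1.2 k2

theorem cup_dlt {V W V₂ W₂ : Set X} (c : CupOK U₁ Z₁ U₂ Z₂ V W) (c' : CupOK U₁ Z₁ V₂ W₂ U Z)
    (k : U \ Z ⊆ V) (k1 : V₂ \ W₂ ⊆ U₂) (k2 : U ⊆ U₁ ∪ (U₂ \ Z₂)) {p : ℤ} {a : H R U₁ Z₁}
    (ha : IsDeg p a) (b : H R U₂ Z₂) :
    dlt U Z (cup V W a b) = sg R p • cup U Z a (dlt V₂ W₂ b) := by
  obtain ⟨φ, m1, rfl, d⟩ := ha
  obtain ⟨ψ, m2, rfl⟩ := exists_cls b
  rw [cup_cls c m1 m2, dlt_cls k (c.zc m1 m2), dlt_cls k1 m2, cup_cls c' m1 (dl_zc k1 m2),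
    ← cls_smul _ (c'.zc m1 (dl_zc k1 m2))]
  refine cls_eq_of_lz (dl_zc k (c.zc m1 m2))
    (Submodule.smul_mem _ _ (cupc_bd m1.1.1 (dl_bd m2.1.1))) ?_
  rw [dl_cupc m1.1.1.1 m2.1.1.1, Hom.sgc d, map_smul, LinearMap.smul_apply, add_sub_cancel_right]
  exact cupc_lz m1.1.2 m2.2 k2

section LES
variable (h1 : U \ Z₁ = U₂) (h2 : U₂ \ Z₂ = U \ Z)
include h1 h2

theorem ok_supp : Ok id U Z U Z₁ :=
  ⟨.of_continuous continuous_id _, fun _ k => k, fun _ k => h1 ▸ (h2 ▸ k : _ ∈ U₂ \ Z₂).1⟩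

theorem ok_res : Ok id U₂ Z₂ U Z :=
  ⟨.of_continuous continuous_id _, fun _ k => (h1 ▸ k : _ ∈ U \ Z₁).1, fun _ k => h2 ▸ k⟩

/-- Exactness of `H U Z₁ → H R U Z → H R (U \ Z₁) Z`. -/
theorem exact_supp_res :
    Function.Exact (pull id U Z : H R U Z₁ → H R U Z) (pull id U₂ Z₂ : H R U Z → H R U₂ Z₂) := by
  have o1 := ok_supp h1 h2
  have o2 := ok_res h1 h2
  intro a
  constructor
  · obtain ⟨φ, m, rfl⟩ := exists_cls a
    rw [res_cls o2 m, cls_eq_zero (o2.zc_id m)]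
    rintro ⟨ψ, k1, k2, k3⟩
    have m' : φ - dl ψ ∈ Zc R U Z₁ := mem_Zc.2 ⟨sub_mem m.1.1 (dl_bd k1), by
      simpa [dl_dl] using m.1.2, h1 ▸ k3⟩
    refine ⟨cls _ _ (φ - dl ψ), ?_⟩
    rw [res_cls o1 m']
    exact (cls_eq_cls (o1.zc_id m') m).2 ⟨-ψ, neg_mem k1, neg_mem (h2 ▸ k2), by simp⟩
  · rintro ⟨b, rfl⟩
    obtain ⟨φ, m, rfl⟩ := exists_cls b
    rw [res_cls o1 m, res_cls o2 (o1.zc_id m), cls_eq_zero (o2.zc_id (o1.zc_id m))]
    exact ⟨0, zero_mem _, zero_mem _, by simpa [h1] using m.2⟩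

/-- Exactness of `H U Z → H R (U \ Z₁) Z → H R U Z₁`. -/
theorem exact_res_dlt :
    Function.Exact (pull id U₂ Z₂ : H R U Z → H R U₂ Z₂) (dlt U Z₁ : H R U₂ Z₂ → H R U Z₁) := by
  have o2 := ok_res h1 h2
  intro a
  constructor
  · obtain ⟨φ, m, rfl⟩ := exists_cls a
    rw [dlt_cls h1.subset m, cls_eq_zero (dl_zc h1.subset m)]
    rintro ⟨ψ, k1, k2, k3⟩
    have m' : φ - ψ ∈ Zc R U Z := mem_Zc.2 ⟨sub_mem m.1.1 k1, by rwa [map_sub],
      sub_mem (h2 ▸ m.2) (lz_anti (ok_supp h1 h2).supp k2)⟩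
    refine ⟨cls _ _ (φ - ψ), ?_⟩
    rw [res_cls o2 m']
    exact cls_eq_of_lz (o2.zc_id m') m.1.1 (by simpa [h1] using k2)
  · rintro ⟨b, rfl⟩
    obtain ⟨φ, m, rfl⟩ := exists_cls b
    rw [res_cls o2 m, dlt_cls h1.subset (o2.zc_id m), cls_eq_zero (dl_zc h1.subset (o2.zc_id m))]
    exact ⟨0, zero_mem _, zero_mem _, by simpa using m.1.2⟩

/-- Exactness of `H (U \ Z₁) Z → H R U Z₁ → H R U Z`. -/
theorem exact_dlt_supp :
    Function.Exact (dlt U Z₁ : H R U₂ Z₂ → H R U Z₁) (pull id U Z : H R U Z₁ → H R U Z) := by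
  have o1 := ok_supp h1 h2
  intro a
  constructor
  · obtain ⟨φ, m, rfl⟩ := exists_cls a
    rw [res_cls o1 m, cls_eq_zero (o1.zc_id m)]
    rintro ⟨ψ, k1, k2, k3⟩
    have m' : ψ ∈ Zc R U₂ Z₂ := mem_Zc.2 ⟨k1, by
      simpa [h1] using sub_mem m.2 (lz_anti sdiff_subset k3), h2 ▸ k2⟩
    refine ⟨cls _ _ ψ, ?_⟩
    rw [dlt_cls h1.subset m']
    exact (cls_eq_of_lz m (dl_bd k1) k3).symm
  · rintro ⟨b, rfl⟩
    obtain ⟨φ, m, rfl⟩ := exists_cls b
    rw [dlt_cls h1.subset m, res_cls o1 (dl_zc h1.subset m),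
      cls_eq_zero (o1.zc_id (dl_zc h1.subset m))]
    exact ⟨φ, m.1.1, h2 ▸ m.2, by simp⟩

end LES

end Pool.Agent.Work.MP_8c604c_gt.TZ
end
end

-- merged part: Pool.Agent.Work.MP_8c604c_gt.TZ.FGlue
section
/-! Excision, additivity and the theorem of Leray-Hirsch. -/

noncomputable section

set_option linter.unusedSectionVars false

namespace Pool.Agent.Work.MP_8c604c_gt.TZ

open Set Topology Filter

variable {R : Type} [CommRing R] {X Y T : Type} [TopologicalSpace X] [TopologicalSpace Y] [TopologicalSpace T]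
variable {U Z U₁ Z₁ U₂ Z₂ V W : Set X} {U' Z' : Set Y} {φ ψ : List X → R} {f g : X → Y}

/-- `U ∩ Z` is closed in `U`. -/
def Cl (U Z : Set X) : Prop := U ∩ closure (U ∩ Z) ⊆ Z

theorem Cl.of_isClosed (h : IsClosed Z) (U : Set X) : Cl U Z :=
  fun _ k => closure_minimal inter_subset_right h k.2

theorem Cl.of_subset (h : U ⊆ Z) : Cl U Z := fun _ k => h k.1

theorem Cl.univ (U : Set X) : Cl U univ := .of_subset (subset_univ _)

theorem Cl.mono (h : Cl U Z) (k : U₁ ⊆ U) : Cl U₁ Z :=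
  fun _ e => h ⟨k e.1, closure_mono (inter_subset_inter_left _ k) e.2⟩

theorem Cl.congr (h : Cl U Z) (k : ∀ x ∈ U, x ∈ Z ↔ x ∈ Z₁) : Cl U Z₁ := fun x e =>
  (k x e.1).1 (h ⟨e.1, closure_mono (by exact fun y hy => ⟨hy.1, (k y hy.1).2 hy.2⟩) e.2⟩)

theorem Cl.inter (h : Cl U Z) (k : Cl U Z₁) : Cl U (Z ∩ Z₁) := fun _ e =>
  ⟨h ⟨e.1, closure_mono (by exact fun _ hy => ⟨hy.1, hy.2.1⟩) e.2⟩,
    k ⟨e.1, closure_mono (by exact fun _ hy => ⟨hy.1, hy.2.2⟩) e.2⟩⟩

theorem Cl.union (h : Cl U Z) (k : Cl U Z₁) : Cl U (Z ∪ Z₁) := fun x e => by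
  have := e.2
  rw [inter_union_distrib_left, closure_union] at this
  exact this.imp (fun a => h ⟨e.1, a⟩) fun a => k ⟨e.1, a⟩

theorem Cl.preimage (h : Cl U' Z') (hf : ContinuousOn f U) (k : MapsTo f U U') :
    Cl U (f ⁻¹' Z') := fun x e =>
  h ⟨k e.1, ((hf x e.1).mono inter_subset_left).mem_closure e.2 fun _ hy => ⟨k hy.1, hy.2⟩⟩

theorem Cl.eq_inter (h : Cl U Z) : U \ Z = U ∩ (closure (U ∩ Z))ᶜ :=
  Subset.antisymm (fun _ k => ⟨k.1, fun e => k.2 (h ⟨k.1, e⟩)⟩)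
    fun _ k => ⟨k.1, fun e => k.2 (subset_closure ⟨k.1, e⟩)⟩

theorem Cl.isLocallyClosed_diff (h : Cl U Z) (k : IsLocallyClosed U) : IsLocallyClosed (U \ Z) :=
  h.eq_inter ▸ k.inter isClosed_closure.isOpen_compl.isLocallyClosed

theorem Cl.isLocallyClosed_inter (h : Cl U Z) (k : IsLocallyClosed U) :
    IsLocallyClosed (U ∩ Z) := by
  have : U ∩ Z = U ∩ closure (U ∩ Z) :=
    Subset.antisymm (fun _ e => ⟨e.1, subset_closure e⟩) fun _ e => ⟨e.1, h e⟩
  exact this ▸ k.inter isClosed_closure.isLocallyClosed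

theorem Cl.diff_mem_nhdsWithin (h : Cl U Z) {x : X} (hx : x ∈ U \ Z) : U \ Z ∈ 𝓝[U] x := by
  rw [h.eq_inter] at hx ⊢
  exact inter_mem_nhdsWithin _ (isClosed_closure.isOpen_compl.mem_nhds hx.2)

theorem exists_sep [RegularSpace X] [SecondCountableTopology X] {A B : Set X}
    (h1 : Disjoint (closure A) B) (h2 : Disjoint A (closure B)) :
    ∃ O O', IsOpen O ∧ IsOpen O' ∧ A ⊆ O ∧ B ⊆ O' ∧ Disjoint O O' :=
  separatedNhds_iff_disjoint.2 (completely_normal h1 h2)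

/-- The open set near which a cochain vanishes. -/
def nul (φ : List X → R) : Set X := {x | ∃ V ∈ 𝓝 x, ∀ l : List X, (∀ y ∈ l, y ∈ V) → φ l = 0}

theorem isOpen_nul (φ : List X → R) : IsOpen (nul φ) := by
  rw [isOpen_iff_mem_nhds]
  rintro x ⟨U, hU, h⟩
  filter_upwards [eventually_mem_nhds_iff.2 hU] with y hy using ⟨U, hy, h⟩

theorem mem_lz {A : Set X} : φ ∈ lz R A ↔ A ⊆ nul φ := Iff.rfl

theorem lz_nul (φ : List X → R) : φ ∈ lz R (nul φ) := mem_lz.2 subset_rfl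

theorem lz_cover {A B C : Set X} (h1 : φ ∈ lz R A) (h2 : φ ∈ lz R B) (h : ∀ x ∈ C, x ∉ A → x ∈ B) :
    φ ∈ lz R C := fun x hx => by
  by_cases k : x ∈ A
  exacts [h1 x k, h2 x (h x hx k)]

/-- The complex of cochains. -/
def cx (R : Type) [CommRing R] (X : Type) [TopologicalSpace X] : Cx R (List X → R) where
  d := dl
  B := bd R X
  tr p := msk (Iic p)
  dB _ := dl_bd
  trB _ _ := msk_bd _
  tr_tr p x := funext fun l => by
    by_cases h : (l.length : ℤ) - 1 ∈ Iic p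
    · rw [msk_of_mem _ h]
    · rw [msk_of_not_mem _ h, msk_of_not_mem _ h]
  d_tr p := dl_msk (by simp)
  bdd x hx := by
    obtain ⟨m, k⟩ := hx.2
    filter_upwards [eventually_ge_atTop (m : ℤ)] with p hp
    funext l
    by_cases h : m < l.length
    · rw [msk_zero (k l h), k l h]
    · exact msk_of_mem _ (by simp; omega)
  low := by
    filter_upwards [eventually_le_atBot (-2 : ℤ)] with p hp
    ext x l
    exact msk_of_not_mem _ (by simp; omega)

section Reg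
variable [RegularSpace X] [SecondCountableTopology X]

theorem loc_lz {q : X → T} {A B : Set X} (hq : ContinuousOn q A) (hAB : Disjoint B (closure A))
    {S : Set T → Set X} (hS : ∀ W, S W = A ∩ q ⁻¹' W ∪ B) : (cx R X).Loc fun W => lz R (S W) := by
  obtain rfl : S = fun W => A ∩ q ⁻¹' W ∪ B := funext hS
  have op : ∀ W, IsOpen W → ∀ x ∈ A ∩ q ⁻¹' W, x ∉ closure (A \ q ⁻¹' W) := fun W o x hx k =>
    o.isClosed_compl.closure_subset
      (((hq x hx.1).mono sdiff_subset).mem_closure (t := Wᶜ) k fun _ e => e.2) hx.2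
  refine ⟨fun _ _ => dl_lz, fun W x _ _ => ?_, fun _ _ _ => msk_lz _, fun W W' k => lz_anti ?_,
    fun W x h a ha => ?_, fun W W' o o' x hx h => ?_, fun W o dj p y hy => ?_⟩
  · exact (dl_dl x).symm ▸ zero_mem _
  · exact union_subset_union_left _ (inter_subset_inter_right _ (preimage_mono k))
  · rcases ha with ⟨h1, h2⟩ | h1
    · obtain ⟨k, h3⟩ := mem_iUnion.1 h2
      exact h k a (Or.inl ⟨h1, h3⟩)
    · exact h 0 a (Or.inr h1)
  · obtain ⟨O, O', o1, o2, k1, k2, k3⟩ := exists_sep (A := (A ∩ q ⁻¹' W) \ nul x)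
      (B := (A ∩ q ⁻¹' W') \ nul x) (Set.disjoint_left.2 fun a h1 h2 => op W' o' a h2.1
        (closure_mono (by
          exact fun b hb => ⟨hb.1.1, fun e => hb.2 (h b (Or.inl ⟨hb.1.1, hb.1.2, e⟩))⟩) h1))
      (Set.disjoint_left.2 fun a h1 h2 => op W o a h1.1
        (closure_mono (by
          exact fun b hb => ⟨hb.1.1, fun e => hb.2 (h b (Or.inl ⟨hb.1.1, e, hb.1.2⟩))⟩) h2))
    refine ⟨cut O' x, cut_bd _ hx, lz_cover (cut_lz O' (lz_nul x))
      (cut_lz_of_disjoint o1 k1 k3.symm x) ?_, lz_cover (sub_mem (lz_nul x) (cut_lz O' (lz_nul x)))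
      (sub_cut_lz o2 k2 hx.1) ?_⟩
    all_goals exact fun a ha k => ⟨ha.resolve_right fun e => k (h a (Or.inr e)), k⟩
  let _ := TopologicalSpace.pseudoMetrizableSpacePseudoMetric X
  let O : ℕ → Set X := fun k => {x | Metric.infEDist x (A ∩ q ⁻¹' W k) <
    Metric.infEDist x (A \ q ⁻¹' W k)} ∩ {x | Metric.infEDist x A < ((k : ENNReal) + 1)⁻¹}
  have oO : ∀ k, IsOpen (O k) := fun k =>
    (isOpen_lt Metric.continuous_infEDist Metric.continuous_infEDist).inter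
      (isOpen_lt Metric.continuous_infEDist continuous_const)
  have cO : ∀ k, A ∩ q ⁻¹' W k ⊆ O k := fun k x hx => by
    constructor
    · rw [mem_ofPred_eq, Metric.infEDist_zero_of_mem hx]
      exact Metric.infEDist_pos_iff_notMem_closure.2 (op _ (o k) x hx)
    · rw [mem_ofPred_eq, Metric.infEDist_zero_of_mem hx.1]
      simp
  have dO : ∀ j k x, x ∈ O j → x ∈ O k → j = k := fun j k x h1 h2 => by
    by_contra e
    have a1 : Metric.infEDist x (A \ q ⁻¹' W j) ≤ Metric.infEDist x (A ∩ q ⁻¹' W k) :=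
      Metric.infEDist_anti fun b hb => ⟨hb.1, fun c => (dj e).notMem_of_mem_left c hb.2⟩
    have a2 : Metric.infEDist x (A \ q ⁻¹' W k) ≤ Metric.infEDist x (A ∩ q ⁻¹' W j) :=
      Metric.infEDist_anti fun b hb => ⟨hb.1, fun c => (dj e).notMem_of_mem_right c hb.2⟩
    exact lt_irrefl _ ((a1.trans_lt h2.1).trans (a2.trans_lt h1.1))
  classical
  let z : List X → R := fun l => match l with
    | [] => 0
    | a :: m => if h : ∃ k, a ∈ O k then y h.choose (a :: m) else 0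
  have z1 : ∀ k a m, a ∈ O k → z (a :: m) = y k (a :: m) := fun k a m h => by
    have e : ∃ k, a ∈ O k := ⟨k, h⟩
    simp only [z, dif_pos e]
    rw [dO _ _ a e.choose_spec h]
  have z2 : ∀ a m, (∀ k, a ∈ O k → y k (a :: m) = 0) → z (a :: m) = 0 := fun a m h => by
    by_cases e : ∃ k, a ∈ O k
    · obtain ⟨k, e⟩ := e
      rw [z1 k a m e, h k e]
    · simp only [z, dif_neg e]
  have zB : z ∈ lz R B := fun b hb => by
    have hp : 0 < Metric.infEDist b A :=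
      Metric.infEDist_pos_iff_notMem_closure.2 (hAB.notMem_of_mem_left hb)
    obtain ⟨n, hn⟩ := ENNReal.exists_inv_nat_lt hp.ne'
    choose V v1 v2 using fun k => (hy k).2.2 b (Or.inr hb)
    refine ⟨{x | (n : ENNReal)⁻¹ < Metric.infEDist x A} ∩ ⋂ k ∈ Iio n, V k, inter_mem
      ((isOpen_lt continuous_const Metric.continuous_infEDist).mem_nhds hn)
      ((biInter_mem (finite_Iio n)).2 fun k _ => v1 k), fun l hl => ?_⟩
    cases l with
    | nil => rfl
    | cons a m =>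
      refine z2 a m fun k hk => v2 k _ fun c hc => mem_iInter₂.1 (hl c hc).2 k ?_
      have a1 : (n : ENNReal)⁻¹ < _ := (hl a List.mem_cons_self).1
      have a2 : _ < ((k : ENNReal) + 1)⁻¹ := hk.2
      have := a1.trans a2
      rw [ENNReal.inv_lt_inv] at this
      have : k + 1 < n := by exact_mod_cast this
      exact (by omega : k < n)
  refine ⟨z, ⟨rfl, (p + 1).toNat, fun l hl => ?_⟩, lz_anti (by simp) zB, fun k => lz_union ?_
    (sub_mem zB (lz_anti subset_union_right (hy k).2.2))⟩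
  · cases l with
    | nil => rfl
    | cons a m =>
      refine z2 a m fun k _ => ?_
      rw [← (hy k).2.1]
      exact msk_of_not_mem _ (by simp only [mem_Iic]; omega)
  · refine fun x hx => ⟨O k, (oO k).mem_nhds (cO k hx), fun l hl => ?_⟩
    cases l with
    | nil => simpa [z] using (hy k).1.1
    | cons a m => simp [z1 k a m (hl a List.mem_cons_self)]

/-- Excision. -/
theorem res_excision (hU : U₁ ⊆ U) (hc : Cl U Z) (hn : ∀ x ∈ U, x ∈ Z → U₁ ∈ 𝓝[U] x)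
    (hZ : ∀ x ∈ U₁, x ∈ Z ↔ x ∈ Z₁) : Function.Bijective (pull id U₁ Z₁ : H R U Z → H R U₁ Z₁) := by
  have ok : Ok id U₁ Z₁ U Z := .id hU fun x k => (hZ x k).1
  have s1 : ∀ x ∈ U, x ∈ Z → x ∈ U₁ := fun x k1 k2 => mem_of_mem_nhdsWithin k1 (hn x k1 k2)
  obtain ⟨O, O', o1, o2, k1, k2, k3⟩ := exists_sep (A := U ∩ Z) (B := U \ U₁)
    (Set.disjoint_left.2 fun a h1 h2 => h2.2 (s1 a h2.1 (hc ⟨h2.1, h1⟩)))
    (Set.disjoint_left.2 fun a h1 h2 => by
      obtain ⟨N, n1, n2⟩ := mem_nhdsWithin_iff_exists_mem_nhds_inter.1 (hn a h1.1 h1.2)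
      obtain ⟨b, b1, b2⟩ := mem_closure_iff_nhds.1 h2 N n1
      exact b2.2 (n2 ⟨b1, b2.1⟩))
  have c1 : ∀ χ ∈ lz R (U₁ \ Z₁), cut O χ ∈ lz R (U \ Z) := fun χ h =>
    lz_cover (cut_lz_of_disjoint o2 k2 k3 χ) (cut_lz O h) fun x hx k => by
      have : x ∈ U₁ := by_contra fun e => k ⟨hx.1, e⟩
      exact ⟨this, fun e => hx.2 ((hZ x this).2 e)⟩
  constructor
  · refine (injective_iff_map_eq_zero _).2 fun a => ?_
    obtain ⟨φ, m, rfl⟩ := exists_cls a
    rw [res_cls ok m, cls_eq_zero (ok.zc_id m), cls_eq_zero m]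
    rintro ⟨χ, h1, h2, h3⟩
    refine ⟨cut O χ, cut_bd _ h1, c1 χ h2, lz_cover (sub_mem m.2 (dl_lz (c1 χ h2)))
      (B := U ∩ Z) ?_ fun x hx k => ⟨hx, by_contra fun e => k ⟨hx, e⟩⟩⟩
    convert add_mem (lz_anti (fun x k => s1 x k.1 k.2) h3) (dl_lz (sub_cut_lz o1 k1 h1.1)) using 1
    rw [map_sub]; abel
  · intro a
    obtain ⟨φ, m, rfl⟩ := exists_cls a
    have e := sub_cut_lz o1 k1 m.1.1.1
    have m' : cut O φ ∈ Zc R U Z := mem_Zc.2 ⟨cut_bd _ m.1.1, lz_cover (dl_lz (c1 φ m.2))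
      (B := U ∩ Z) (by simpa using sub_mem (lz_anti (fun x k => s1 x k.1 k.2) m.1.2) (dl_lz e))
      fun x hx k => ⟨hx, by_contra fun e => k ⟨hx, e⟩⟩, c1 φ m.2⟩
    refine ⟨cls U Z (cut O φ), ?_⟩
    rw [res_cls ok m']
    exact (cls_eq_of_lz m (cut_bd _ m.1.1) (lz_cover e (sub_mem m.2 (cut_lz O m.2))
      fun x hx k => ⟨hx, fun e => k ⟨hU hx, (hZ x hx).2 e⟩⟩)).symm

theorem res_excision_open {O : Set X} (hO : IsOpen O) (hc : Cl U Z) (h : ∀ x ∈ U, x ∈ Z → x ∈ O) :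
    Function.Bijective (pull id (U ∩ O) Z : H R U Z → H R (U ∩ O) Z) :=
  res_excision inter_subset_left hc (fun x k1 k2 => inter_mem_nhdsWithin _ (hO.mem_nhds (h x k1 k2)))
    fun _ _ => Iff.rfl

/-- Additivity for disjoint closed supports. -/
theorem additivity {ι : Type} [Fintype ι] {Zi : ι → Set X} (hc : ∀ i, Cl U (Zi i))
    (hd : ∀ i j, ∀ x ∈ U, x ∈ Zi i → x ∈ Zi j → i = j) (hZ : ∀ x ∈ U, x ∈ Z ↔ ∃ i, x ∈ Zi i) :
    Function.Bijective fun a : ∀ i, H R U (Zi i) => ∑ i, pull id U Z (a i) := by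
  classical
  have ok : ∀ i, Ok id U Z U (Zi i) := fun i => .id subset_rfl fun x k e => (hZ x k).2 ⟨i, e⟩
  have : ∀ i, ∃ O O', IsOpen O ∧ IsOpen O' ∧ U ∩ Zi i ⊆ O ∧ (U ∩ Z) \ Zi i ⊆ O' ∧ Disjoint O O' :=
    fun i => exists_sep (Set.disjoint_left.2 fun a h1 h2 => h2.2 (hc i ⟨h2.1.1, h1⟩))
      (Set.disjoint_left.2 fun a h1 h2 => by
        have : (U ∩ Z) \ Zi i ⊆ ⋃ j ∈ {j | j ≠ i}, U ∩ Zi j := fun x hx => by
          obtain ⟨j, hj⟩ := (hZ x hx.1.1).1 hx.1.2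
          exact mem_biUnion (show j ≠ i from fun e => hx.2 (e ▸ hj)) ⟨hx.1.1, hj⟩
        have := closure_mono this h2
        rw [(toFinite _).closure_biUnion] at this
        obtain ⟨j, j1, j2⟩ := mem_iUnion₂.1 this
        exact j1 (hd j i a h1.1 (hc j ⟨h1.1, j2⟩) h1.2))
  choose O O' o1 o2 k1 k2 k3 using this
  have c1 : ∀ i, ∀ χ ∈ lz R (U \ Z), cut (O i) χ ∈ lz R (U \ Zi i) := fun i χ h =>
    lz_cover (cut_lz _ h) (cut_lz_of_disjoint (o2 i) (k2 i) (k3 i) χ) fun x hx k =>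
      ⟨⟨hx.1, by_contra fun e => k ⟨hx.1, e⟩⟩, hx.2⟩
  have c2 : ∀ i (φ : ι → List X → R), (∀ j, φ j ∈ lz R (U \ Zi j)) →
      ∑ j, φ j - φ i ∈ lz R (U ∩ Zi i) := fun i φ h => by
    rw [← Finset.add_sum_erase _ _ (Finset.mem_univ i), add_sub_cancel_left]
    exact sum_mem fun j hj => lz_anti
      (by exact fun x k => ⟨k.1, fun e => Finset.ne_of_mem_erase hj (hd j i x k.1 e k.2)⟩) (h j)
  constructor
  · intro a b hab
    rw [← sub_eq_zero]
    have : ∑ i, pull id U Z ((a - b) i) = 0 := by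
      simpa [map_sub, Finset.sum_sub_distrib, sub_eq_zero] using hab
    generalize a - b = c at this
    choose φ m e using fun i => exists_cls (c i)
    funext i
    simp only [e, fun i => res_cls (ok i) (m i)] at this
    rw [← cls_sum _ fun i _ => (ok i).zc_id (m i),
      cls_eq_zero (sum_mem fun i _ => (ok i).zc_id (m i))] at this
    obtain ⟨χ, h1, h2, h3⟩ := this
    rw [e, Pi.zero_apply, cls_eq_zero (m i)]
    refine ⟨cut (O i) χ, cut_bd _ h1, c1 i χ h2, lz_cover (sub_mem (m i).2 (dl_lz (c1 i χ h2)))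
      (B := U ∩ Zi i) ?_ fun x hx k => ⟨hx, by_contra fun e => k ⟨hx, e⟩⟩⟩
    convert sub_mem (add_mem (lz_anti inter_subset_left h3) (dl_lz (sub_cut_lz (o1 i) (k1 i) h1.1)))
      (c2 i φ fun j => (m j).2) using 1
    rw [map_sub]; abel
  · intro a
    obtain ⟨φ, m, rfl⟩ := exists_cls a
    have e := fun i => sub_cut_lz (o1 i) (k1 i) m.1.1.1
    have m' : ∀ i, cut (O i) φ ∈ Zc R U (Zi i) := fun i => mem_Zc.2 ⟨cut_bd _ m.1.1,
      lz_cover (dl_lz (c1 i φ m.2)) (B := U ∩ Zi i)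
        (by simpa using sub_mem (lz_anti inter_subset_left m.1.2) (dl_lz (e i)))
        fun x hx k => ⟨hx, by_contra fun e => k ⟨hx, e⟩⟩, c1 i φ m.2⟩
    refine ⟨fun i => cls U (Zi i) (cut (O i) φ), ?_⟩
    simp only [fun i => res_cls (ok i) (m' i)]
    rw [← cls_sum _ fun i _ => (ok i).zc_id (m' i)]
    refine (cls_eq_of_lz m (sum_mem fun i _ => cut_bd _ m.1.1) fun x hx => ?_).symm
    by_cases k : x ∈ Z
    · obtain ⟨i, hi⟩ := (hZ x hx).1 k
      have := sub_mem (e i) (c2 i _ fun j => (m' j).2)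
      rw [sub_sub_sub_cancel_right] at this
      exact this x ⟨hx, hi⟩
    · exact sub_mem m.2 (sum_mem fun i _ => cut_lz _ m.2) x ⟨hx, k⟩

theorem additivity₂ (h1 : Cl U Z₁) (h2 : Cl U Z₂) (hd : ∀ x ∈ U, x ∈ Z₁ → x ∉ Z₂)
    (hZ : ∀ x ∈ U, x ∈ Z ↔ x ∈ Z₁ ∨ x ∈ Z₂) :
    Function.Bijective fun a : H R U Z₁ × H R U Z₂ => pull id U Z a.1 + pull id U Z a.2 := by
  have := additivity (R := R) (U := U) (Z := Z) (Zi := fun b : Bool => Bool.rec Z₂ Z₁ b)
    (fun b => by cases b <;> assumption) (fun i j x hx a b => by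
      cases i <;> cases j <;> first | rfl | exact (hd x hx ‹_› ‹_›).elim)
    fun x hx => by simpa [or_comm] using hZ x hx
  simp only [Fintype.sum_bool] at this
  constructor
  · intro a b h
    have := @this.1 (fun i => Bool.rec a.2 a.1 i) (fun i => Bool.rec b.2 b.1 i) h
    exact Prod.ext (congrFun this true) (congrFun this false)
  · intro c
    obtain ⟨a, h⟩ := this.2 c
    exact ⟨(a true, a false), h⟩

end Reg

variable {ι : Type} [Fintype ι]

/-- `(φ i) ↦ ∑ g^* (φ i) ∪ γ i`. -/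
def lhc (g : X → Y) (γ : ι → List X → R) : (ι → List Y → R) →ₗ[R] (List X → R) :=
  ∑ i, cupc.flip (γ i) ∘ₗ pullc g ∘ₗ LinearMap.proj i

theorem lhc_apply (g : X → Y) (γ : ι → List X → R) (φ : ι → List Y → R) :
    lhc g γ φ = ∑ i, cupc (pullc g (φ i)) (γ i) := by simp [lhc]

theorem lhc_ch (g : X → Y) {γ : ι → List X → R} {k : ι → ℤ} (h1 : ∀ i, γ i ∈ bd R X)
    (h2 : ∀ i, Hom (k i) (γ i)) : Cx.IsCh ((cx R Y).pi k) (cx R X) (lhc g γ) where
  bd φ h := by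
    rw [lhc_apply]; exact sum_mem fun i _ => cupc_bd (bd_pullc g (h i trivial)) (h1 i)
  tr p φ := by
    rw [lhc_apply, lhc_apply, map_sum]
    refine Finset.sum_congr rfl fun i _ => ?_
    change cupc (pullc g (msk (Iic (p - k i)) (φ i))) (γ i) = msk (Iic p) _
    rw [pullc_msk, msk_cupc_left (t := Iic p) (by simp [le_sub_iff_add_le]) _ (h2 i)]
  dd φ := funext fun i => dl_dl (φ i)
  dd' := dl_dl

theorem lhc_pair {γ : ι → List X → R} (k : ι → ℤ) (hg : ∀ x ∈ U, ContinuousAt g x)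
    (hγ : ∀ i, γ i ∈ Zc R U Z₂) {P Q : Set X} {P' Q' : Set Y} (hP : P ⊆ U) (hQ : Q ⊆ U)
    (hP' : ∀ x ∈ P, x ∈ Z₂ → g x ∈ P') (hQ' : ∀ x ∈ Q, x ∈ Z₂ → g x ∈ Q') :
    Cx.IsPair ((cx R Y).pi k) (cx R X) (lhc g γ) (.pi univ fun _ => lz R P') (.pi univ fun _ => lz R Q')
      (lz R P) (lz R Q) := by
  have key : ∀ {P : Set X} {P' : Set Y}, P ⊆ U → (∀ x ∈ P, x ∈ Z₂ → g x ∈ P') →
      ∀ φ ∈ Submodule.pi univ fun _ : ι => lz R P', lhc g γ φ ∈ lz R P := fun {P P'} h1 h2 φ h => by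
    rw [lhc_apply]
    refine sum_mem fun i _ => cupc_lz (lz_pullc (U := P ∩ Z₂) (fun x e => hg x (h1 e.1))
      (fun x e => h2 x e.1 e.2) (h i trivial)) (hγ i).2 fun x hx => ?_
    by_cases e : x ∈ Z₂
    exacts [Or.inl ⟨hx, e⟩, Or.inr ⟨h1 hx, e⟩]
  refine ⟨key hP hP', key hQ hQ', fun φ h _ => ?_⟩
  rw [lhc_apply, lhc_apply, map_sum, ← Finset.sum_sub_distrib]
  refine sum_mem fun i _ => ?_
  change dl _ - cupc (pullc g (dl (φ i))) _ ∈ _
  rw [dl_cupc (bd_pullc g (h i trivial)).1 (hγ i).1.1.1, dl_pullc, add_sub_cancel_left]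
  exact cupc_lz (lz_empty _) (hγ i).1.2 fun x hx => Or.inr (hP hx)

theorem lh_bij_iff {γ : ι → List X → R} (k : ι → ℤ) (e : EqOn f g U₁) (ha : Adm g U₁ Z₁ U' Z')
    (hc : CupOK U₁ Z₁ U₂ Z₂ V W) (hγ : ∀ i, γ i ∈ Zc R U₂ Z₂) {P Q : Set X} {P' Q' : Set Y}
    (e1 : P = V) (e2 : Q = V \ W) (e3 : P' = U') (e4 : Q' = U' \ Z') :
    (Function.Bijective fun a : ι → H R U' Z' =>
      ∑ i, cup V W (pull f U₁ Z₁ (a i)) (cls U₂ Z₂ (γ i))) ↔
    Cx.QI ((cx R Y).pi k) (cx R X) (lhc g γ) (.pi univ fun _ => lz R P') (.pi univ fun _ => lz R Q')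
      (lz R P) (lz R Q) := by
  subst e1 e2 e3 e4
  have mz : ∀ φ : ι → List Y → R, (∀ i, φ i ∈ Zc R P' Z') → lhc g γ φ ∈ Zc R P W := fun φ m => by
    rw [lhc_apply]; exact sum_mem fun i _ => hc.zc (ha.zc (m i)) (hγ i)
  have key : ∀ φ : ι → List Y → R, (∀ i, φ i ∈ Zc R P' Z') →
      ∑ i, cup P W (pull f U₁ Z₁ (cls P' Z' (φ i))) (cls U₂ Z₂ (γ i)) = cls P W (lhc g γ φ) := by
    intro φ m
    rw [lhc_apply, cls_sum _ fun i _ => hc.zc (ha.zc (m i)) (hγ i)]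
    exact Finset.sum_congr rfl fun i _ => by rw [pull_cls e ha (m i), cup_cls hc (ha.zc (m i)) (hγ i)]
  constructor
  · intro h
    constructor
    · intro φ h1 h2 h3 ψ h4 h5 h6
      have m : ∀ i, φ i ∈ Zc R P' Z' := fun i => mem_Zc.2 ⟨h1 i trivial, h3 i trivial, h2 i trivial⟩
      have : (fun i => cls P' Z' (φ i)) = 0 := h.1 (by
        simp only [key φ m, Pi.zero_apply, map_zero, LinearMap.zero_apply, Finset.sum_const_zero]
        exact (cls_eq_zero (mz φ m)).2 ⟨ψ, h4, h5, h6⟩)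
      choose χ c1 c2 c3 using fun i => (cls_eq_zero (m i)).1 (congrFun this i)
      exact ⟨χ, fun i _ => c1 i, fun i _ => c2 i, fun i _ => c3 i⟩
    · intro ψ h1 h2 h3
      have m' : ψ ∈ Zc R P W := mem_Zc.2 ⟨h1, h3, h2⟩
      obtain ⟨a, ha⟩ := h.2 (cls P W ψ)
      choose φ m e using fun i => exists_cls (a i)
      simp only [e, key φ m] at ha
      exact ⟨φ, fun i _ => (m i).1.1, fun i _ => (m i).2, fun i _ => (m i).1.2,
        (cls_eq_cls m' (mz φ m)).1 ha.symm⟩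
  · intro h
    constructor
    · intro a b hab
      rw [← sub_eq_zero]
      have : ∑ i, cup P W (pull f U₁ Z₁ ((a - b) i)) (cls U₂ Z₂ (γ i)) = 0 := by
        simpa [map_sub, Finset.sum_sub_distrib, sub_eq_zero] using hab
      generalize a - b = c at this
      choose φ m e using fun i => exists_cls (c i)
      simp only [e, key φ m] at this
      obtain ⟨ψ, h4, h5, h6⟩ := (cls_eq_zero (mz φ m)).1 this
      obtain ⟨χ, c1, c2, c3⟩ := h.inj φ (fun i _ => (m i).1.1) (fun i _ => (m i).2)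
        (fun i _ => (m i).1.2) ψ h4 h5 h6
      funext i
      rw [e]
      exact (cls_eq_zero (m i)).2 ⟨χ i, c1 i trivial, c2 i trivial, c3 i trivial⟩
    · intro b
      obtain ⟨ψ, m', rfl⟩ := exists_cls b
      obtain ⟨φ, h1, h2, h3, h4⟩ := h.surj ψ m'.1.1 m'.2 m'.1.2
      have m : ∀ i, φ i ∈ Zc R P' Z' := fun i => mem_Zc.2 ⟨h1 i trivial, h3 i trivial, h2 i trivial⟩
      exact ⟨fun i => cls P' Z' (φ i), (key φ m).trans ((cls_eq_cls m' (mz φ m)).2 h4).symm⟩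

theorem pi_lz_anti {A B : Set Y} (h : A ⊆ B) :
    (Submodule.pi univ fun _ : ι => lz R B) ≤ .pi univ fun _ => lz R A :=
  fun _ k i hi => lz_anti h (k i hi)

variable [RegularSpace X] [SecondCountableTopology X] [RegularSpace Y] [SecondCountableTopology Y]

/-- Leray-Hirsch from small open sets of the base. -/
theorem lh_local (hf : Ext f U) (hm : MapsTo f U U') (hc' : Cl U' Z') (hc : Cl U Z₂)
    (h1 : ∀ x ∈ U, x ∈ Z₁ ↔ f x ∈ Z') (h2 : ∀ x ∈ U, x ∈ Z ↔ f x ∈ Z' ∧ x ∈ Z₂)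
    {c : ι → H R U Z₂} {k : ι → ℤ} (hk : ∀ i, IsDeg (k i) (c i))
    (loc : ∀ y ∈ U', ∃ V, IsOpen V ∧ y ∈ V ∧ ∀ W, IsOpen W → W ⊆ V →
      Function.Bijective fun a : ι → H R (U' ∩ W) univ =>
        ∑ i, cup (U ∩ f ⁻¹' W) Z₂ (pull f (U ∩ f ⁻¹' W) univ (a i)) (c i)) :
    Function.Bijective fun a : ι → H R U' Z' => ∑ i, cup U Z (pull f U Z₁ (a i)) (c i) := by
  have hf' := hf.continuousOn
  obtain ⟨g, e, hg⟩ := hf
  choose γ m ec d using hk
  obtain rfl : c = fun i => cls U Z₂ (γ i) := funext ec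
  have ch := lhc_ch g (fun i => (m i).1.1) d
  have pr : ∀ W W' : Set Y, Cx.IsPair ((cx R Y).pi k) (cx R X) (lhc g γ)
      (.pi univ fun _ => lz R (U' ∩ W)) (.pi univ fun _ => lz R (U' ∩ W'))
      (lz R (U ∩ Z₂ ∩ f ⁻¹' W ∪ U \ Z₂)) (lz R (U ∩ Z₂ ∩ f ⁻¹' W' ∪ U \ Z₂)) := fun W W' =>
    lhc_pair k hg m (fun x h => h.elim (·.1.1) (·.1)) (fun x h => h.elim (·.1.1) (·.1))
      (fun x h a => h.elim (fun h => e h.1.1 ▸ ⟨hm h.1.1, h.2⟩) fun h => (h.2 a).elim)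
      (fun x h a => h.elim (fun h => e h.1.1 ▸ ⟨hm h.1.1, h.2⟩) fun h => (h.2 a).elim)
  have qi := Cx.Loc.qi_of_local ch
    ((loc_lz (q := id) (A := U') (B := ∅) (S := fun W => U' ∩ W) continuousOn_id (by simp)
      (by simp)).pi k)
    (loc_lz (q := f) (A := U ∩ Z₂) (B := U \ Z₂) (hf'.mono inter_subset_left)
      (Set.disjoint_left.2 fun x a b => a.2 (hc ⟨a.1, b⟩)) fun _ => rfl) (fun W => pr W ∅) U'
    (fun W => pi_lz_anti fun y h => ⟨h.1, h.2, h.1⟩)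
    (fun W => lz_anti fun x h => h.imp_left fun h => ⟨h.1, h.2, hm h.1.1⟩) fun y hy => by
      obtain ⟨V, v1, v2, v3⟩ := loc y hy
      refine ⟨V, v1, v2, fun W w1 w2 => ?_⟩
      have ad : Adm g (U ∩ f ⁻¹' W) univ (U' ∩ W) univ := ⟨fun x h => hg x h.1,
        fun x h => e h.1 ▸ ⟨hm h.1, h.2⟩, fun x h => (h.2 trivial).elim⟩
      have cu : CupOK (U ∩ f ⁻¹' W) univ U Z₂ (U ∩ Z₂ ∩ f ⁻¹' W ∪ U \ Z₂) Z₂ :=
        ⟨fun x h => Or.inr (h.elim (·.1.1) (·.1)), fun x h => h.imp_left fun h => ⟨h.1.1, h.2⟩,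
          fun x h => Or.inr ⟨h.1.elim (·.1.1) (·.1), h.2⟩⟩
      have sb : U ∩ f ⁻¹' W ⊆ U ∩ Z₂ ∩ f ⁻¹' W ∪ U \ Z₂ := fun x h => by
        by_cases a : x ∈ Z₂
        exacts [Or.inl ⟨⟨h.1, a⟩, h.2⟩, Or.inr ⟨h.1, a⟩]
      refine (lh_bij_iff k (e.mono inter_subset_left) ad cu m rfl ?_ rfl (by simp)).1 ?_
      · ext x
        simp only [preimage_empty, inter_empty, empty_union, Set.mem_sdiff, mem_union, mem_inter_iff]
        tauto
      have ex := res_excision (R := R) (Z := Z₂) (Z₁ := Z₂) sb (hc.mono fun x h => h.elim (·.1.1) (·.1))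
        (fun x h a => by
          have h' := h.resolve_right fun b => b.2 a
          exact nhdsWithin_mono _ (fun x h => h.elim (·.1.1) (·.1))
            (inter_mem self_mem_nhdsWithin (hf' x h'.1.1 (w1.mem_nhds h'.2))))
        fun _ _ => Iff.rfl
      refine (Function.Bijective.of_comp_iff' ex _).1 ?_
      convert v3 W w1 w2 using 1
      funext a
      simp only [Function.comp_apply, map_sum]
      exact Finset.sum_congr rfl fun i _ => res_cup_out (.id sb fun _ _ h => h) cu _ _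
  refine (lh_bij_iff k e (Ok.adm (.of_mem ⟨g, e, hg⟩ hm fun x a => (h1 x a).2) e hg)
    (.of_subset subset_rfl subset_rfl fun x a b c => (h2 x a).2 ⟨(h1 x a).1 b, c⟩) m
    (P := U ∩ Z₂ ∩ f ⁻¹' univ ∪ U \ Z₂) (Q := U ∩ Z₂ ∩ f ⁻¹' (closure (U' ∩ Z'))ᶜ ∪ U \ Z₂)
    (P' := U' ∩ univ) (Q' := U' ∩ (closure (U' ∩ Z'))ᶜ) (by simp) ?_ (by simp)
    hc'.eq_inter.symm).2 ?_
  · ext x
    have a1 := h2 x
    have a2 := fun h => Set.ext_iff.1 hc'.eq_inter (f x) |>.trans (and_iff_right (hm h))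
    have a3 := @hm x
    simp only [Set.mem_sdiff, mem_union, mem_inter_iff, mem_preimage] at a2 ⊢
    tauto
  exact Cx.QI.left ch (pi_lz_anti (by simp)) (pi_lz_anti (by simp))
    (lz_anti (union_subset_union_left _ fun _ h => ⟨h.1, trivial⟩))
    (lz_anti (union_subset_union_left _ (by simp)))
    (pr _ _) (pr _ _) (pr _ _) (qi _ isOpen_univ) (qi _ isClosed_closure.isOpen_compl)

/-- Leray-Hirsch for closed maps from the fibres. -/
theorem lh_stalk (hf : Ext f U) (hm : MapsTo f U U')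
    (h1 : ∀ x ∈ U, x ∈ Z₁ ↔ f x ∈ Z') (h2 : ∀ x ∈ U, x ∈ Z ↔ f x ∈ Z')
    (cl : ∀ y ∈ U', ∀ O, IsOpen O → U ∩ f ⁻¹' {y} ⊆ O → ∃ W ∈ 𝓝 y, U ∩ f ⁻¹' W ⊆ O)
    {c : ι → H R U Z₂} {k : ι → ℤ} (hk : ∀ i, IsDeg (k i) (c i))
    (loc : ∀ y ∈ U', Function.Bijective fun a : ι → R =>
      ∑ i, a i • pull id (U ∩ f ⁻¹' {y}) univ (c i)) :
    Function.Bijective fun a : ι → H R U' Z' => ∑ i, cup U Z (pull f U Z₁ (a i)) (c i) := by
  have hf' := hf.continuousOn
  obtain ⟨g, e, hg⟩ := hf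
  choose γ m ec d using hk
  obtain rfl : c = fun i => cls U Z₂ (γ i) := funext ec
  have ch := lhc_ch g (fun i => (m i).1.1) d
  have pr : ∀ S S' : Set Y, Cx.IsPair ((cx R Y).pi k) (cx R X) (lhc g γ)
      (.pi univ fun _ => lz R S) (.pi univ fun _ => lz R S') (lz R (U ∩ f ⁻¹' S)) (lz R (U ∩ f ⁻¹' S')) :=
    fun W W' => lhc_pair k hg m inter_subset_left inter_subset_left (fun x h _ => e h.1 ▸ h.2)
      fun x h _ => e h.1 ▸ h.2
  have qi : ∀ S ⊆ U', Cx.QI ((cx R Y).pi k) (cx R X) (lhc g γ) (.pi univ fun _ => lz R S)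
      (.pi univ fun _ => lz R ∅) (lz R (U ∩ f ⁻¹' S)) (lz R (U ∩ f ⁻¹' ∅)) := fun S hS => by
    have := Cx.Loc.qi_of_stalk ch
      ((loc_lz (q := id) (A := S) (B := ∅) (S := fun W => S ∩ W) continuousOn_id (by simp)
        (by simp)).pi k)
      (loc_lz (q := f) (A := U ∩ f ⁻¹' S) (B := ∅) (S := fun W => U ∩ f ⁻¹' (S ∩ W))
        (hf'.mono inter_subset_left) (by simp) (by simp [inter_assoc])) (fun W => pr _ _) S
      (fun W => pi_lz_anti fun y h => ⟨h.1, h.2, h.1⟩)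
      (fun W => lz_anti fun x h => ⟨h.1, h.2.1, h.2.2, h.2.1⟩)
      (fun y hy φ h => ⟨⋂ i, nul (φ i), iInter_mem.2 fun i =>
        (isOpen_nul _).mem_nhds (h i trivial y ⟨hy, rfl⟩), fun i _ x a => mem_iInter.1 a.2 i⟩)
      (fun y hy φ h => (cl y (hS hy) _ (isOpen_nul φ) fun x a =>
        h x ⟨a.1, (show f x = y from a.2) ▸ hy, a.2⟩).imp fun W a =>
          ⟨a.1, fun x b => a.2 ⟨b.1, b.2.2⟩⟩)
      (fun y hy => ?_) univ isOpen_univ
    · simpa using this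
    have ad : Adm g (U ∩ f ⁻¹' {y}) univ {y} univ := ⟨fun x h => hg x h.1,
      fun x h => e h.1 ▸ h.2, fun x h => (h.2 trivial).elim⟩
    have ok : Ok f (U ∩ f ⁻¹' {y}) univ {y} univ := ad.ok.congr (e.mono inter_subset_left).symm
    have cu : CupOK (U ∩ f ⁻¹' {y}) univ U Z₂ (U ∩ f ⁻¹' {y}) univ :=
      .of_subset subset_rfl inter_subset_left fun _ _ _ _ => trivial
    refine (lh_bij_iff k (e.mono inter_subset_left) ad cu m
      (by rw [inter_eq_right.2 (singleton_subset_iff.2 hy)]) (by simp)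
      (inter_eq_right.2 (singleton_subset_iff.2 hy)) (by simp)).1 ?_
    have b : Function.Bijective fun (a : ι → H R {y} univ) i => ev y (a i) :=
      Function.Bijective.piMap (f := fun (_ : ι) (a : H R {y} univ) => ev y a) fun i =>
        ⟨fun a b h => by rw [pt_eq (mem_univ y) a, pt_eq (mem_univ y) b]; exact congrArg (· • _) h,
          fun t => ⟨t • cls _ _ onec, by simp [ev_one (mem_singleton y) (subset_univ _)]⟩⟩
    convert (loc y (hS hy)).comp b using 1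
    funext a
    refine Finset.sum_congr rfl fun i _ => ?_
    rw [pt_eq (mem_univ y) (a i), map_smul, map_smul, pull_one ok (subset_univ _),
      LinearMap.smul_apply, one_cup (subset_univ _) cu (.id inter_subset_left fun _ _ _ => trivial)]
  refine (lh_bij_iff k e (Ok.adm (.of_mem ⟨g, e, hg⟩ hm fun x a => (h1 x a).2) e hg)
    (.of_subset subset_rfl subset_rfl fun x a b _ => (h2 x a).2 ((h1 x a).1 b)) m
    (P := U ∩ f ⁻¹' U') (Q := U ∩ f ⁻¹' (U' \ Z')) (inter_eq_left.2 hm) ?_ rfl rfl).2 ?_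
  · ext x
    have a1 := h2 x
    have a3 := @hm x
    simp only [Set.mem_sdiff, mem_inter_iff, mem_preimage]
    tauto
  exact Cx.QI.left ch (pi_lz_anti sdiff_subset) (pi_lz_anti (by simp))
    (lz_anti (inter_subset_inter_right _ (preimage_mono sdiff_subset))) (lz_anti (by simp))
    (pr _ _) (pr _ _) (pr _ _) (qi _ subset_rfl) (qi _ sdiff_subset)

end Pool.Agent.Work.MP_8c604c_gt.TZ
end
end

-- merged part: Pool.Agent.Work.MP_8c604c_gt.TZ.FHtpy
section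
/-! Vietoris-Begle, homotopy invariance and the suspension isomorphism. -/

noncomputable section

set_option linter.unusedSectionVars false

namespace Pool.Agent.Work.MP_8c604c_gt.TZ

open Set Topology Filter

variable {R : Type} [CommRing R] {X Y : Type} [TopologicalSpace X] [TopologicalSpace Y]
variable {U Z U₁ Z₁ Z₂ : Set X} {U' Z' : Set Y} {φ ψ : List X → R} {f g : X → Y}

theorem bij_unit_iff {A B : Type} [AddCommMonoid B] {F : A → B} :
    (Function.Bijective fun a : Unit → A => ∑ i, F (a i)) ↔ Function.Bijective F := by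
  simp only [Fintype.sum_unique]
  exact Function.Bijective.of_comp_iff F (Equiv.funUnique Unit A).bijective

/-- `U` has the cohomology of a point. -/
def Acy (R : Type) [CommRing R] (U : Set X) : Prop :=
  U.Nonempty ∧ ∀ a : H R U univ, ∃ t : R, a = t • cls U univ onec

theorem Acy.bij (h : Acy R U) : 
    Function.Bijective fun t : R => t • (cls U univ onec : H R U univ) :=
  ⟨fun s t e => by
    obtain ⟨x, hx⟩ := h.1
    simpa [ev_one hx (subset_univ _)] using congrArg (ev x) e, fun a => (h.2 a).imp fun _ e => e.symm⟩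

theorem acy_singleton (x : X) : Acy R {x} := ⟨singleton_nonempty x, fun a => ⟨_, pt_eq (mem_univ x) a⟩⟩

theorem Acy.of_surj (h : Acy R U') (hne : U.Nonempty) (ok : Ok f U univ U' univ)
    (k : Function.Surjective (pull f U univ : H R U' univ → _)) : Acy R U :=
  ⟨hne, fun a => by
    obtain ⟨b, rfl⟩ := k a
    obtain ⟨t, rfl⟩ := h.2 b
    exact ⟨t, by rw [map_smul, pull_one ok (subset_univ _)]⟩⟩

/-- Homotopy invariance for compact sets. -/
theorem pull_htpy_compact (hU : IsCompact U) {F : X × ℝ → Y} (hF : Continuous F)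
    (h : ∀ x ∈ U, ∀ t ∈ Icc (0 : ℝ) 1, F (x, t) ∈ U') (a : H R U' univ) :
    pull (fun x => F (x, 0)) U univ a = pull (fun x => F (x, 1)) U univ a := by
  obtain ⟨φ, m, rfl⟩ := exists_cls a
  have ad : ∀ t ∈ Icc (0 : ℝ) 1, Adm (fun x => F (x, t)) U univ U' univ := fun t ht =>
    ⟨fun x _ => (hF.comp (by fun_prop)).continuousAt, fun x hx => h x hx t ht,
      fun x k => (k.2 trivial).elim⟩
  let _ : TopologicalSpace (H R U univ) := ⊥
  have : DiscreteTopology (H R U univ) := ⟨rfl⟩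
  rw [(ad 0 (by simp)).pull_cls m, (ad 1 (by simp)).pull_cls m]
  refine isPreconnected_Icc.constant (f := fun t => cls U univ (pullc (fun x => F (x, t)) φ))
    (fun s hs => ?_) (left_mem_Icc.2 zero_le_one) (right_mem_Icc.2 zero_le_one)
  rw [ContinuousWithinAt, nhds_discrete, tendsto_pure]
  have := hU.eventually_forall_of_forall_eventually (x₀ := s) (P := fun t x => ∃ V : Set Y,
    (∀ l : List Y, (∀ y ∈ l, y ∈ V) → dl φ l = 0) ∧ ∀ᶠ x' in 𝓝 x, F (x', t) ∈ V ∧ F (x', s) ∈ V)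
    fun x hx => by
      obtain ⟨V, v1, v2⟩ := m.1.2 _ (h x hx s hs)
      have a1 : Continuous fun z : ℝ × X => F (z.2, z.1) := by fun_prop
      have a2 : Continuous fun z : ℝ × X => F (z.2, s) := by fun_prop
      have : ∀ᶠ z : ℝ × X in 𝓝 (s, x), F (z.2, z.1) ∈ V ∧ F (z.2, s) ∈ V :=
        (a1.continuousAt.eventually_mem v1).and (a2.continuousAt.eventually_mem v1)
      exact this.eventually_nhds.mono fun z hz =>
        ⟨V, v2, (Continuous.prodMk_right z.1).continuousAt.eventually hz⟩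
  filter_upwards [mem_nhdsWithin_of_mem_nhds this, self_mem_nhdsWithin] with t h1 ht
  refine (cls_eq_cls ((ad t ht).zc m) ((ad s hs).zc m)).2 ⟨prc (fun x => F (x, s))
    (fun x => F (x, t)) φ, prc_bd _ _ m.1.1, by simpa using lz_empty _, ?_⟩
  rw [← dl_prc, add_sub_cancel_left]
  intro x hx
  obtain ⟨V, v1, v2⟩ := h1 x hx
  refine ⟨_, v2, fun l hl => prc_zero _ _ l _ fun n _ hn => v1 n fun y hy => ?_⟩
  obtain ⟨x', k1, rfl | rfl⟩ := hn y hy
  exacts [(hl x' k1).2, (hl x' k1).1]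

theorem acy_of_compact (hU : IsCompact U) {F : X × ℝ → X} (hF : Continuous F)
    (h : ∀ x ∈ U, ∀ t ∈ Icc (0 : ℝ) 1, F (x, t) ∈ U) {x₀ : X} (hx : x₀ ∈ U)
    (h0 : ∀ x ∈ U, F (x, 0) = x₀) (h1 : ∀ x ∈ U, F (x, 1) = x) : Acy R U :=
  ⟨⟨x₀, hx⟩, fun a => by
    have o1 : Ok (fun _ => x₀) U univ {x₀} univ :=
      .of_mem (.of_continuous continuous_const _) (fun _ _ => rfl) fun _ _ _ => trivial
    have := pull_htpy_compact hU hF h a
    rw [pull_congr (g := id) (f := fun x => F (x, 1)) h1, pull_id,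
      ← pull_pull' o1 (.id (singleton_subset_iff.2 hx) fun _ _ _ => trivial)
        fun x k => (h0 x k).symm, pt_eq (mem_univ x₀) (pull id {x₀} univ a), map_smul,
      pull_one o1 (subset_univ _)] at this
    exact ⟨_, this.symm⟩⟩

section Reg
variable [RegularSpace X] [SecondCountableTopology X] [RegularSpace Y] [SecondCountableTopology Y]

/-- Vietoris-Begle. -/
theorem pull_bij_stalk (hf : Ext f U) (hm : MapsTo f U U') (h : ∀ x ∈ U, x ∈ Z ↔ f x ∈ Z')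
    (cl : ∀ y ∈ U', ∀ O, IsOpen O → U ∩ f ⁻¹' {y} ⊆ O → ∃ W ∈ 𝓝 y, U ∩ f ⁻¹' W ⊆ O)
    (loc : ∀ y ∈ U', Acy R (U ∩ f ⁻¹' {y})) : Function.Bijective (pull f U Z : H R U' Z' → H R U Z) := by
  have := lh_stalk (R := R) (c := fun _ : Unit => cls U univ onec) hf hm h h cl (fun _ => isDeg_one)
    fun y hy => by
      rw [pull_one (.id inter_subset_left fun x _ _ => mem_univ x) (subset_univ _)]
      exact (bij_unit_iff (F := fun t : R => t • cls _ univ onec)).2 (loc y hy).bij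
  simp only [cup_one' (subset_univ U)] at this
  exact bij_unit_iff.1 this

theorem cup_bij_local (hf : Ext f U) (hm : MapsTo f U U') (hc' : Cl U' Z') (hc : Cl U Z₂)
    (h1 : ∀ x ∈ U, x ∈ Z₁ ↔ f x ∈ Z') (h2 : ∀ x ∈ U, x ∈ Z ↔ f x ∈ Z' ∧ x ∈ Z₂)
    {c : H R U Z₂} {k : ℤ} (hk : IsDeg k c)
    (loc : ∀ y ∈ U', ∃ V, IsOpen V ∧ y ∈ V ∧ ∀ W, IsOpen W → W ⊆ V →
      Function.Bijective fun a : H R (U' ∩ W) univ =>
        cup (U ∩ f ⁻¹' W) Z₂ (pull f (U ∩ f ⁻¹' W) univ a) c) :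
    Function.Bijective fun a : H R U' Z' => cup U Z (pull f U Z₁ a) c :=
  (bij_unit_iff (F := fun a : H R U' Z' => cup U Z (pull f U Z₁ a) c)).1
    (lh_local (c := fun _ : Unit => c) hf hm hc' hc h1 h2 (fun _ => hk) fun y hy =>
      (loc y hy).imp fun _ e => ⟨e.1, e.2.1, fun W w1 w2 => bij_unit_iff.2 (e.2.2 W w1 w2)⟩)

theorem pull_bij_local (hf : Ext f U) (hm : MapsTo f U U') (hc' : Cl U' Z')
    (h : ∀ x ∈ U, x ∈ Z ↔ f x ∈ Z')
    (loc : ∀ y ∈ U', ∃ V, IsOpen V ∧ y ∈ V ∧ ∀ W, IsOpen W → W ⊆ V →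
      Function.Bijective (pull f (U ∩ f ⁻¹' W) univ : H R (U' ∩ W) univ → _)) :
    Function.Bijective (pull f U Z : H R U' Z' → H R U Z) := by
  have := cup_bij_local (R := R) (c := cls U univ onec) hf hm hc' (.univ U) h (Z := Z) (by simpa using h)
    isDeg_one fun y hy => (loc y hy).imp fun _ e => ⟨e.1, e.2.1, fun W w1 w2 => by
      simp only [cup_one (U := U ∩ f ⁻¹' W) (subset_univ U) (.of_subset subset_rfl inter_subset_left
        fun x _ _ _ => mem_univ x) Ok.refl, pull_id]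
      exact e.2.2 W w1 w2⟩
  simpa only [cup_one' (subset_univ U)] using this

end Reg

section Reg
variable [RegularSpace X] [SecondCountableTopology X]

theorem pull_fst_Icc_bij :
    Function.Bijective (pull Prod.fst (U ×ˢ Icc (0 : ℝ) 1) (Z ×ˢ univ) : H R U Z → _) := by
  refine pull_bij_stalk (.of_continuous continuous_fst _) (fun _ k => k.1) (by simp)
    (fun y hy O o k => ?_) fun y hy => ?_
  · refine ⟨_, isCompact_Icc.eventually_forall_of_forall_eventually (x₀ := y)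
      (P := fun x t => (x, t) ∈ O) fun t ht => o.mem_nhds (k ⟨⟨hy, ht⟩, rfl⟩), fun z hz => ?_⟩
    exact hz.2 z.2 hz.1.2
  · have e : U ×ˢ Icc (0 : ℝ) 1 ∩ Prod.fst ⁻¹' {y} = {y} ×ˢ Icc 0 1 :=
      Subset.antisymm (fun z k => ⟨k.2, k.1.2⟩) fun z k => ⟨⟨(show z.1 = y from k.1) ▸ hy, k.2⟩, k.1⟩
    rw [e]
    refine acy_of_compact (isCompact_singleton.prod isCompact_Icc)
      (F := fun z => (y, z.2 * z.1.2)) (by fun_prop) (fun z k t ht => ⟨rfl, mul_nonneg ht.1 k.2.1,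
        mul_le_one₀ ht.2 k.2.1 k.2.2⟩) (x₀ := (y, 0)) (by simp) (by simp) fun z k => ?_
    exact Prod.ext (Eq.symm k.1) (one_mul _)

/-- Homotopy invariance. -/
theorem pull_htpy {F : X × ℝ → Y} (h : Ok F (U ×ˢ Icc 0 1) (Z ×ˢ univ) U' Z') :
    (pull (fun x => F (x, 0)) U Z : H R U' Z' →ₗ[R] H R U Z) = pull (fun x => F (x, 1)) U Z := by
  have o : ∀ t ∈ Icc (0 : ℝ) 1, Ok (fun x => (x, t)) U Z (U ×ˢ Icc 0 1) (Z ×ˢ univ) := fun t ht =>
    .of_mem (.of_continuous (by fun_prop) _) (fun _ k => ⟨k, ht⟩) fun _ _ k => k.1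
  have p : Ok Prod.fst (U ×ˢ Icc (0 : ℝ) 1) (Z ×ˢ univ) U Z :=
    .of_mem (.of_continuous continuous_fst _) (fun _ k => k.1) fun _ _ k => ⟨k, trivial⟩
  refine LinearMap.ext fun a => ?_
  rw [← pull_pull' (o 0 (by simp)) h fun _ _ => rfl, ← pull_pull' (o 1 (by simp)) h fun _ _ => rfl]
  obtain ⟨b, e⟩ := pull_fst_Icc_bij.2 (pull F (U ×ˢ Icc 0 1) (Z ×ˢ univ) a)
  rw [← e, pull_pull' (F := id) (o 0 (by simp)) p fun _ _ => rfl,
    pull_pull' (F := id) (o 1 (by simp)) p fun _ _ => rfl]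

theorem pull_htpy' {F : X × ℝ → Y} (hF : Ext F (U ×ˢ Icc 0 1))
    (h1 : ∀ x ∈ U, ∀ t ∈ Icc (0 : ℝ) 1, F (x, t) ∈ U')
    (h2 : ∀ x ∈ U, ∀ t ∈ Icc (0 : ℝ) 1, F (x, t) ∈ Z' → x ∈ Z) (e0 : ∀ x ∈ U, F (x, 0) = f x)
    (e1 : ∀ x ∈ U, F (x, 1) = g x) : (pull f U Z : H R U' Z' →ₗ[R] H R U Z) = pull g U Z := by
  rw [← pull_congr (g := f) e0, ← pull_congr (g := g) e1]
  exact pull_htpy (.of_mem hF (fun z k => h1 _ k.1 _ k.2) fun z k e => ⟨h2 _ k.1 _ k.2 e, trivial⟩)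

theorem ext_htpy {F : X × ℝ → Y} (hU : IsLocallyClosed U) (hF : ContinuousOn F (U ×ˢ Icc 0 1)) :
    Ext F (U ×ˢ Icc 0 1) := .of_continuousOn (by
  rw [Set.prod_eq]
  exact (hU.preimage continuous_fst).inter
    (isClosed_Icc.preimage continuous_snd).isLocallyClosed) hF

/-- Deformation retracts. -/
theorem res_bij_of_retract (hU : U₁ ⊆ U) (hZ : ∀ x ∈ U₁, x ∈ Z ↔ x ∈ Z₁) {F : X × ℝ → X}
    (hF : Ext F (U ×ˢ Icc 0 1)) (h1 : ∀ x ∈ U, ∀ t ∈ Icc (0 : ℝ) 1, F (x, t) ∈ U)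
    (h2 : ∀ x ∈ U₁, ∀ t ∈ Icc (0 : ℝ) 1, F (x, t) ∈ U₁)
    (h3 : ∀ x ∈ U, ∀ t ∈ Icc (0 : ℝ) 1, F (x, t) ∈ Z → x ∈ Z) (e0 : ∀ x ∈ U, F (x, 0) = x)
    (e1 : ∀ x ∈ U, F (x, 1) ∈ U₁) : Function.Bijective (pull id U₁ Z₁ : H R U Z → H R U₁ Z₁) := by
  have o1 : Ok id U₁ Z₁ U Z := .id hU fun x k => (hZ x k).1
  have o2 : Ok (fun x => F (x, 1)) U Z U₁ Z₁ := .of_mem (hF.comp (f := fun x => (x, (1 : ℝ)))
    (.of_continuous (by fun_prop) _) fun _ k => ⟨k, by simp⟩) e1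
    fun x k e => h3 x k 1 (by simp) ((hZ _ (e1 x k)).2 e)
  refine Function.bijective_iff_has_inverse.2 ⟨pull (fun x => F (x, 1)) U Z, fun a => ?_,
    fun a => ?_⟩
  · rw [pull_pull' (F := fun x => F (x, 1)) o2 o1 fun _ _ => rfl,
      ← pull_htpy' (f := id) hF h1 h3 e0 fun _ _ => rfl, pull_id]
  · rw [pull_pull' (F := fun x => F (x, 1)) o1 o2 fun _ _ => rfl,
      ← pull_htpy' (f := id) (hF.mono (prod_mono hU subset_rfl)) h2 (fun x k t ht e =>
        (hZ x k).1 (h3 x (hU k) t ht ((hZ _ (h2 x k t ht)).2 e))) (fun x k => e0 x (hU k))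
        fun _ _ => rfl, pull_id]

/-- A projection with a section that is a deformation retract. -/
theorem pull_bij_of_section {s : Y → X} (h : Ok f U Z U' Z') (h' : Ok s U' Z' U Z)
    (e : ∀ y ∈ U', f (s y) = y) {F : X × ℝ → X} (hF : Ext F (U ×ˢ Icc 0 1))
    (h1 : ∀ x ∈ U, ∀ t ∈ Icc (0 : ℝ) 1, F (x, t) ∈ U)
    (h3 : ∀ x ∈ U, ∀ t ∈ Icc (0 : ℝ) 1, F (x, t) ∈ Z → x ∈ Z) (e0 : ∀ x ∈ U, F (x, 0) = s (f x))
    (e1 : ∀ x ∈ U, F (x, 1) = x) : Function.Bijective (pull f U Z : H R U' Z' → H R U Z) :=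
  Function.bijective_iff_has_inverse.2 ⟨pull s U' Z', fun a => by
    rw [pull_pull' (F := id) h' h e, pull_id], fun a => by
    rw [pull_pull h h', pull_htpy' (f := s ∘ f) (g := id) hF h1 h3 e0 e1, pull_id]⟩

end Reg

theorem supp_bij_of_subsingleton (h : U \ Z ⊆ U \ Z₁) [Subsingleton (H R (U \ Z₁) Z)] :
    Function.Bijective (pull id U Z : H R U Z₁ → H R U Z) := by
  have e : (U \ Z₁) \ Z = U \ Z := Subset.antisymm (fun _ k => ⟨k.1.1, k.2⟩) fun _ k => ⟨h k, k.2⟩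
  refine ⟨(injective_iff_map_eq_zero _).2 fun a k => ?_,
    fun a => (exact_supp_res rfl e a).1 (Subsingleton.elim _ _)⟩
  obtain ⟨b, rfl⟩ := (exact_dlt_supp rfl e a).1 k
  rw [Subsingleton.elim b 0, map_zero]

theorem subsingleton_of_res_bij
    (h : Function.Bijective (pull id (U \ Z) univ : H R U univ → H R (U \ Z) univ)) :
    Subsingleton (H R U Z) := by
  have e : (U \ Z) \ univ = U \ univ := by simp
  refine subsingleton_of_forall_eq 0 fun a => ?_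
  obtain ⟨b, rfl⟩ := (exact_dlt_supp rfl e a).1 (h.1 (by
    rw [map_zero]; exact (exact_supp_res rfl e _).2 ⟨a, rfl⟩))
  exact (exact_res_dlt rfl e b).2 (h.2 b)

theorem sgc_zc (h : φ ∈ Zc R U Z) : sgc φ ∈ Zc R U Z :=
  mem_Zc.2 ⟨sgc_bd h.1.1, dl_sgc φ ▸ neg_mem (sgc_lz h.1.2), sgc_lz h.2⟩

theorem cls_sgc_eq_zero (h : φ ∈ Zc R U Z) (k : cls U Z φ = 0) : cls U Z (sgc φ) = 0 := by
  obtain ⟨ψ, h1, h2, h3⟩ := (cls_eq_zero h).1 k
  refine (cls_eq_zero (sgc_zc h)).2 ⟨-sgc ψ, neg_mem (sgc_bd h1), neg_mem (sgc_lz h2), ?_⟩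
  convert sgc_lz h3 using 1
  rw [map_neg, dl_sgc]
  funext l
  simp [sgc, mul_sub]

theorem jump_eq (c : X → ℝ) : jump c = dl (zc fun x => if 0 < c x then (1 : R) else 0) := by
  funext l
  rcases l with _ | ⟨a, _ | ⟨b, _ | ⟨d, l⟩⟩⟩
  · rfl
  · simp [jump, dl_apply, zc]
  · simp only [jump, dl_cons', dl_nil, cn_apply, zc, sub_zero]
  · exact ((hom_zc _).dl _ (by simp; omega)).symm

theorem hom_jump (c : X → ℝ) : Hom 1 (jump c : List X → R) := jump_eq (R := R) c ▸ (hom_zc _).dl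

theorem step_lz_neg {c : X → ℝ} (hc : ∀ x ∈ U, ContinuousAt c x) :
    zc (fun x => if 0 < c x then 1 else 0) ∈ lz R (U ∩ {x | c x < 0}) := zc_lz fun x hx =>
  ((hc x hx.1).eventually_lt continuousAt_const hx.2).mono fun _ k => if_neg k.not_gt

theorem step_lz_pos {c : X → ℝ} (hc : ∀ x ∈ U, ContinuousAt c x) :
    zc (fun x => if 0 < c x then 1 else 0) - onec ∈ lz R (U ∩ {x | 0 < c x}) := by
  have : zc (fun x => if 0 < c x then (1 : R) else 0) - onec =
      zc fun x => (if 0 < c x then 1 else 0) - 1 := by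
    funext l
    rcases l with _ | ⟨a, _ | ⟨b, l⟩⟩ <;> simp [zc, onec]
  rw [this]
  exact zc_lz fun x hx => (continuousAt_const.eventually_lt (hc x hx.1) hx.2).mono fun _ k => by
    simp [k]

theorem jump_zc {c : X → ℝ} (hc : ∀ x ∈ U, ContinuousAt c x) (h : ∀ x ∈ U, c x = 0 → x ∈ Z) :
    jump c ∈ Zc R U Z := by
  rw [jump_eq]
  refine mem_Zc.2 ⟨dl_bd (zc_bd _), dl_dl (X := X) (R := R) _ ▸ zero_mem _, lz_cover (dl_lz (step_lz_neg hc))
    (B := U ∩ {x | 0 < c x}) (by simpa [dl_onec] using dl_lz (step_lz_pos (R := R) hc))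
      fun x hx k => ⟨hx.1, ?_⟩⟩
  exact lt_of_le_of_ne (not_lt.1 fun e => k ⟨hx.1, e⟩) fun e => hx.2 (h x hx.1 e.symm)

variable [RegularSpace X] [SecondCountableTopology X]

theorem res_bij_union (hU : U₁ ⊆ U) (hc : Cl U Z) (hn : ∀ x ∈ U₁, U₁ ∈ 𝓝[U] x)
    (h : Function.Bijective (pull id U₁ Z : H R U Z → _)) :
    Function.Bijective (pull id (U₁ ∪ U \ Z) Z : H R U Z → _) := by
  have sb : U₁ ∪ U \ Z ⊆ U := union_subset hU sdiff_subset
  have ex := res_excision (R := R) (U := U₁ ∪ U \ Z) (Z := Z) (Z₁ := Z) subset_union_left (hc.mono sb)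
    (fun x k e => nhdsWithin_mono _ sb (hn x (k.resolve_right fun b => b.2 e))) fun _ _ => Iff.rfl
  refine (Function.Bijective.of_comp_iff' ex _).1 ?_
  convert h using 1
  exact funext fun a => pull_pull' (.id subset_union_left fun _ _ k => k) (.id sb fun _ _ k => k)
    (fun _ _ => rfl) a

/-- The suspension isomorphism. -/
theorem jump_bij {c : X → ℝ} (hc : ∀ x ∈ U, ContinuousAt c x) (hZ : Cl U Z)
    (h1 : ∀ x ∈ U, c x = 0 → x ∈ Z₁) (h1' : ∀ x ∈ U, x ∈ Z₁ → c x = 0)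
    (h2 : ∀ x ∈ U, x ∈ Z₂ ↔ x ∈ Z ∧ c x = 0)
    (hp : Function.Bijective (pull id (U ∩ {x | 0 < c x}) Z : H R U Z → _))
    (hn : Function.Bijective (pull id (U ∩ {x | c x < 0}) Z : H R U Z → _)) :
    Function.Bijective fun a : H R U Z => cup U Z₂ a (cls U Z₁ (jump c)) := by
  have cu : CupOK U Z U Z₁ U Z₂ :=
    .of_subset subset_rfl subset_rfl fun x a b d => (h2 x a).2 ⟨b, h1' x a d⟩
  have mj := jump_zc (R := R) hc h1
  have hp' := res_bij_union inter_subset_left hZ (fun x k => inter_mem_nhdsWithin _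
    (continuousAt_const.eventually_lt (hc x k.1) k.2)) hp
  have hn' := res_bij_union inter_subset_left hZ (fun x k => inter_mem_nhdsWithin _
    ((hc x k.1).eventually_lt continuousAt_const k.2)) hn
  have lp := step_lz_pos (R := R) hc
  have ln := step_lz_neg (R := R) hc
  have ej := jump_eq (R := R) c
  have θb := zc_bd fun x => if 0 < c x then (1 : R) else 0
  generalize (zc fun x => if 0 < c x then (1 : R) else 0) = θ at lp ln ej θb
  generalize (jump c : List X → R) = j at ej mj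
  subst ej
  set P := U ∩ {x | 0 < c x}
  set N := U ∩ {x | c x < 0}
  have ap : ∀ χ ∈ bd R X, cupc χ θ - χ ∈ lz R P := fun χ k => by
    have := cupc_lz (lz_empty χ) lp subset_union_right
    rwa [map_sub, cupc_onec k.1] at this
  have an : ∀ χ, cupc χ θ ∈ lz R N := fun χ => cupc_lz (lz_empty χ) ln subset_union_right
  have al : ∀ {S χ}, χ ∈ lz R S → cupc χ θ ∈ lz R S := fun k =>
    cupc_lz k (lz_empty θ) subset_union_left
  have sP : P ⊆ U \ Z₂ := fun x k => ⟨k.1, fun e => ne_of_gt k.2 ((h2 x k.1).1 e).2⟩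
  have sN : N ⊆ U \ Z₂ := fun x k => ⟨k.1, fun e => ne_of_lt k.2 ((h2 x k.1).1 e).2⟩
  have sZ : U \ Z ⊆ U \ Z₂ := fun x k => ⟨k.1, fun e => k.2 ((h2 x k.1).1 e).1⟩
  have oP : Ok id P Z U Z := .id inter_subset_left fun _ _ k => k
  have oN : Ok id N Z U Z := .id inter_subset_left fun _ _ k => k
  have zN : ∀ χ ∈ Zc R U Z, χ ∈ lz R N → cls U Z χ = 0 := fun χ k e => hn.1 (by
    rw [res_cls oN k, map_zero, cls_eq_of_lz (oN.zc_id k) (zero_mem _) (by simpa using e), cls_zero])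
  constructor
  · refine (injective_iff_map_eq_zero ((cup U Z₂).flip (cls U Z₁ (dl θ)))).2 fun a => ?_
    obtain ⟨φ', m', rfl⟩ := exists_cls a
    obtain ⟨φ, m, rfl⟩ : ∃ φ ∈ Zc R U Z, φ' = sgc φ := ⟨_, sgc_zc m', (sgc_sgc _).symm⟩
    rw [LinearMap.flip_apply, cup_cls cu m' mj, cls_eq_zero (cu.zc m' mj)]
    rintro ⟨ψ, k1, k2, k3⟩
    have mω : cupc φ θ - ψ ∈ Zc R U Z := mem_Zc.2 ⟨sub_mem (cupc_bd m.1.1 θb) k1, by
      rw [map_sub, dl_cupc m.1.1.1 θb.1, add_sub_assoc]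
      exact add_mem (al m.1.2) k3, sub_mem (al m.2) (lz_anti sZ k2)⟩
    refine cls_sgc_eq_zero m (hp.1 ?_)
    rw [res_cls oP m, map_zero, ← cls_eq_of_lz (oP.zc_id mω) m.1.1 (by
      rw [sub_right_comm]; exact sub_mem (ap φ m.1.1) (lz_anti sP k2)), ← res_cls oP mω,
      zN _ mω (sub_mem (an φ) (lz_anti sN k2)), map_zero]
  · intro a
    obtain ⟨ψ, m, rfl⟩ := exists_cls a
    have m1 : ψ ∈ Zc R U Z := mem_Zc.2 ⟨m.1.1, m.1.2, lz_anti sZ m.2⟩
    obtain ⟨ω, w1, w2, w3⟩ := (cls_eq_zero m1).1 (zN ψ m1 (lz_anti sN m.2))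
    have key : ∀ S ⊆ U \ Z₂, Function.Bijective (pull id (S ∪ U \ Z) Z : H R U Z → _) →
        ∃ b ∈ Zc R U Z, ∃ η ∈ bd R X, η ∈ lz R (U \ Z) ∧ ω - b - dl η ∈ lz R S := fun S hS hb => by
      have sb : S ∪ U \ Z ⊆ U \ Z₂ := union_subset hS sZ
      have o : Ok id (S ∪ U \ Z) Z U Z := .id (sb.trans sdiff_subset) fun _ _ k => k
      have mω : ω ∈ Zc R (S ∪ U \ Z) Z := mem_Zc.2 ⟨w1, by
        simpa using sub_mem (lz_anti sb m.2) (lz_anti (sb.trans sdiff_subset) w3),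
        lz_anti o.supp w2⟩
      obtain ⟨b, e⟩ := hb.2 (cls _ _ ω)
      obtain ⟨b, mb, rfl⟩ := exists_cls b
      rw [res_cls o mb, eq_comm, cls_eq_cls mω (o.zc_id mb)] at e
      obtain ⟨η, e1, e2, e3⟩ := e
      exact ⟨b, mb, η, e1, lz_anti (by exact fun x k => ⟨Or.inr k, k.2⟩) e2, lz_anti subset_union_left e3⟩
    obtain ⟨b, mb, η, e1, e2, e3⟩ := key P sP hp'
    obtain ⟨b', mb', η', e1', e2', e3'⟩ := key N sN hn'
    have mβ := sub_mem mb mb'
    refine ⟨cls U Z (sgc (b - b')), ?_⟩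
    change cup U Z₂ _ _ = _
    rw [cup_cls cu (sgc_zc mβ) mj, eq_comm, cls_eq_cls m (cu.zc (sgc_zc mβ) mj)]
    have bη := sub_mem e1 e1'
    refine ⟨ω - b' - cupc (b - b') θ - dl (η' + cupc (η - η') θ), sub_mem (sub_mem (sub_mem w1
      mb'.1.1) (cupc_bd mβ.1.1 θb)) (dl_bd (add_mem e1' (cupc_bd bη θb))), ?_, ?_⟩
    · refine lz_cover (A := U \ Z) (B := P ∪ N) (sub_mem (sub_mem (sub_mem w2 mb'.2) (al mβ.2))
        (dl_lz (add_mem e2' (al (sub_mem e2 e2'))))) (lz_union ?_ ?_) fun x k e => ?_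
      · convert sub_mem (sub_mem e3 (ap _ mβ.1.1)) (dl_lz (ap _ bη)) using 1
        simp only [map_sub, map_add]; abel
      · convert sub_mem (sub_mem e3' (an (b - b'))) (dl_lz (an (η - η'))) using 1
        simp only [map_add]; abel
      · rcases lt_trichotomy (c x) 0 with a | a | a
        · exact Or.inr ⟨k.1, a⟩
        · exact (k.2 ((h2 x k.1).2 ⟨by_contra fun b => e ⟨k.1, b⟩, a⟩)).elim
        · exact Or.inl ⟨k.1, a⟩
    · convert add_mem (add_mem w3 mb'.1.2) (al mβ.1.2) using 1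
      rw [map_sub, map_sub, map_sub, dl_dl, dl_cupc mβ.1.1.1 θb.1]
      abel

/-- The suspension isomorphism in the presence of a flow that translates `c`. -/
theorem jump_bij_flow {c : X → ℝ} (hc : Continuous c) (hZ : Cl U Z)
    (h1 : ∀ x ∈ U, c x = 0 → x ∈ Z₁) (h1' : ∀ x ∈ U, x ∈ Z₁ → c x = 0)
    (h2 : ∀ x ∈ U, x ∈ Z₂ ↔ x ∈ Z ∧ c x = 0) {Φ : X × ℝ → X} (hΦ : Continuous Φ)
    (e0 : ∀ x, Φ (x, 0) = x) (e1 : ∀ x t, c (Φ (x, t)) = c x + t)
    (e2 : ∀ x ∈ U, ∀ t, Φ (x, t) ∈ U) (e3 : ∀ x ∈ U, ∀ t, Φ (x, t) ∈ Z → x ∈ Z) :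
    Function.Bijective fun a : H R U Z => cup U Z₂ a (cls U Z₁ (jump c)) := by
  refine jump_bij (fun _ _ => hc.continuousAt) hZ h1 h1' h2 ?_ ?_
  · refine res_bij_of_retract inter_subset_left (fun _ _ => Iff.rfl)
      (F := fun z => Φ (z.1, z.2 * (1 - c z.1))) (.of_continuous (by fun_prop) _)
      (fun x k _ _ => e2 x k _) (fun x k t ht => ⟨e2 x k.1 _, ?_⟩) (fun x k _ _ => e3 x k _)
      (fun x _ => by simp [e0]) fun x k => ⟨e2 x k _, by simp [e1]⟩
    have : 0 < c x := k.2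
    rw [mem_ofPred_eq, e1]
    rcases ht.2.eq_or_lt with rfl | h
    · linarith
    · nlinarith [ht.1, mul_pos this (sub_pos.2 h)]
  · refine res_bij_of_retract inter_subset_left (fun _ _ => Iff.rfl)
      (F := fun z => Φ (z.1, z.2 * (-1 - c z.1))) (.of_continuous (by fun_prop) _)
      (fun x k _ _ => e2 x k _) (fun x k t ht => ⟨e2 x k.1 _, ?_⟩) (fun x k _ _ => e3 x k _)
      (fun x _ => by simp [e0]) fun x k => ⟨e2 x k _, by simp [e1]⟩
    have : c x < 0 := k.2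
    rw [mem_ofPred_eq, e1]
    rcases ht.2.eq_or_lt with rfl | h
    · linarith
    · nlinarith [ht.1, mul_pos (neg_pos.2 this) (sub_pos.2 h)]

end Pool.Agent.Work.MP_8c604c_gt.TZ
end
end

-- merged part: Pool.Agent.Work.MP_8c604c_gt.TZ.FThom
section
/-! Orientation classes, Mayer-Vietoris gluing and the Thom isomorphism. -/

noncomputable section

set_option linter.unusedSectionVars false

namespace Pool.Agent.Work.MP_8c604c_gt.TZ

open Set Topology Filter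

variable {R : Type} [CommRing R] {X Y : Type} {J J' : Type}

/-- The `2`-cocycle of a complex function. -/
def uc (w : X → ℂ) : List X → R := cupc (jump fun x => (w x).re) (jump fun x => (w x).im)

/-- The product of the cocycles of a list of complex functions. -/
def oc (w : J → X → ℂ) (L : List J) : List X → R := L.foldr (fun j φ => cupc (uc (w j)) φ) onec

theorem oc_cons (w : J → X → ℂ) (j : J) (L : List J) : 
    (oc w (j :: L) : List X → R) = cupc (uc (w j)) (oc w L) :=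
  rfl

theorem oc_nil_apply (w : J → X → ℂ) (L : List J) : (oc w L [] : R) = 0 := by
  cases L
  · simp [oc, onec]
  · rfl

theorem oc_append (w : J → X → ℂ) (L L' : List J) : 
    (oc w (L ++ L') : List X → R) = cupc (oc w L) (oc w L') := by
  induction L with
  | nil => exact (onec_cupc (oc_nil_apply w L')).symm
  | cons j L ih => rw [List.cons_append, oc_cons, oc_cons, ih, cupc_assoc]

theorem oc_map (w : J → X → ℂ) (e : J' → J) (L : List J') : 
    (oc w (L.map e) : List X → R) = oc (w ∘ e) L := by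
  induction L with
  | nil => rfl
  | cons j L ih => rw [List.map_cons, oc_cons, oc_cons, ih]; rfl

theorem pullc_jump (f : X → Y) (c : Y → ℝ) : pullc f (jump c : List Y → R) = jump (c ∘ f) := by
  funext l
  rcases l with _ | ⟨a, _ | ⟨b, _ | ⟨d, l⟩⟩⟩ <;> rfl

theorem pullc_oc (f : X → Y) (w : J → Y → ℂ) (L : List J) :
    pullc f (oc w L : List Y → R) = oc (fun j x => w j (f x)) L := by
  induction L with
  | nil => exact pullc_onec f
  | cons j L ih => rw [oc_cons, oc_cons, pullc_cupc, ih, uc, pullc_cupc, pullc_jump, pullc_jump]; rfl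

variable [TopologicalSpace X] [TopologicalSpace Y]
variable {U Z U₁ Z₁ Z₂ Z₀ A B : Set X} {U' Z' : Set Y} {φ ψ : List X → R} {f g : X → Y}

theorem hom_uc (w : X → ℂ) : Hom (2 * 1) (uc w : List X → R) := (hom_jump _).cupc (hom_jump _)

theorem hom_oc (w : J → X → ℂ) (L : List J) : Hom (2 * L.length) (oc w L : List X → R) := by
  induction L with
  | nil => exact hom_onec
  | cons j L ih =>
    rw [oc_cons, List.length_cons, Nat.cast_succ, mul_add, add_comm]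
    exact (hom_uc (w j)).cupc ih

theorem cupOK (h : ∀ x ∈ U, x ∈ Z₁ → x ∈ Z₂ → x ∈ Z) : CupOK U Z₁ U Z₂ U Z :=
  .of_subset subset_rfl subset_rfl h

theorem jre_zc {w : X → ℂ} (hw : ∀ x ∈ U, ContinuousAt w x) :
    jump (fun x => (w x).re) ∈ Zc R U {x | (w x).re = 0} :=
  jump_zc (fun x k => Complex.continuous_re.continuousAt.comp (hw x k)) fun _ _ k => k

theorem jim_zc {w : X → ℂ} (hw : ∀ x ∈ U, ContinuousAt w x) :
    jump (fun x => (w x).im) ∈ Zc R U {x | (w x).im = 0} :=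
  jump_zc (fun x k => Complex.continuous_im.continuousAt.comp (hw x k)) fun _ _ k => k

theorem uc_zc {w : X → ℂ} (hw : ∀ x ∈ U, ContinuousAt w x) : uc w ∈ Zc R U {x | w x = 0} :=
  (cupOK fun _ _ a b => Complex.ext a b).zc (jre_zc hw) (jim_zc hw)

theorem oc_zc {w : J → X → ℂ} (hw : ∀ j, ∀ x ∈ U, ContinuousAt (w j) x) (L : List J) :
    ∀ {Z : Set X}, (∀ x ∈ U, (∀ j ∈ L, w j x = 0) → x ∈ Z) → oc w L ∈ Zc R U Z := by
  induction L with
  | nil => exact fun h => onec_zc fun x k => h x k (by simp)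
  | cons j L ih =>
    exact fun h => (cupOK (Z₂ := {x | ∀ j ∈ L, w j x = 0}) fun x k a b =>
      h x k (List.forall_mem_cons.2 ⟨a, b⟩)).zc (uc_zc (hw j)) (ih fun _ _ k => k)

theorem oc_perm {w : J → X → ℂ} (hw : ∀ j, ∀ x ∈ U, ContinuousAt (w j) x) {L L' : List J}
    (p : L.Perm L') : ∀ {Z : Set X}, (∀ x ∈ U, (∀ j ∈ L, w j x = 0) → x ∈ Z) →
      cls U Z (oc w L) = (cls U Z (oc w L') : H R U Z) := by
  induction p with
  | nil => exact fun _ => rfl
  | @cons j L L' p ih =>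
    intro Z h
    have c := cupOK (Z₁ := {x | w j x = 0}) (Z₂ := {x | ∀ j ∈ L, w j x = 0}) fun x k a b =>
      h x k (List.forall_mem_cons.2 ⟨a, b⟩)
    rw [oc_cons, oc_cons, ← cup_cls c (uc_zc (hw j)) (oc_zc hw L fun _ _ k => k),
      ih (Z := {x | ∀ j ∈ L, w j x = 0}) fun _ _ k => k, cup_cls c (uc_zc (hw j))
        (oc_zc hw L' fun _ _ k i hi => k i (p.subset hi))]
  | swap i j L =>
    intro Z h
    have c1 := cupOK (U := U) (Z₁ := {x | w i x = 0}) (Z₂ := {x | w j x = 0})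
      (Z := {x | w i x = 0 ∧ w j x = 0}) fun x k a b => ⟨a, b⟩
    have c := cupOK (Z₁ := {x | w i x = 0 ∧ w j x = 0}) (Z₂ := {x | ∀ j ∈ L, w j x = 0})
      fun x k a b => h x k (List.forall_mem_cons.2 ⟨a.2, List.forall_mem_cons.2 ⟨a.1, b⟩⟩)
    have m := oc_zc (R := R) hw L (Z := {x | ∀ j ∈ L, w j x = 0}) fun _ _ k => k
    rw [oc_cons, oc_cons, oc_cons, oc_cons, ← cupc_assoc, ← cupc_assoc,
      ← cup_cls c (c1.symm.zc (uc_zc (hw j)) (uc_zc (hw i))) m,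
      ← cup_cls c (c1.zc (uc_zc (hw i)) (uc_zc (hw j))) m,
      ← cup_cls c1.symm (uc_zc (hw j)) (uc_zc (hw i)), ← cup_cls c1 (uc_zc (hw i)) (uc_zc (hw j)),
      cup_comm_even c1 (isDeg_cls (uc_zc (hw i)) (hom_uc _))]
  | trans p _ ih ih' =>
    exact fun h => (ih h).trans (ih' fun x k e => h x k fun i hi => e i (p.subset hi))

section Orient
variable [Fintype J] [Fintype J']

theorem orient_eq : orC R J = cls univ {0} (oc (fun j v => v j) (Finset.univ : Finset J).toList) :=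
  rfl

theorem orient_zc : oc (fun j v => v j) (Finset.univ : Finset J).toList ∈
    Zc R (univ : Set (J → ℂ)) {0} :=
  oc_zc (fun j _ _ => (continuous_apply j).continuousAt) _ fun _ _ k =>
    funext fun j => k j (by simp)

theorem isDeg_orient : IsDeg (2 * Fintype.card J) (orC R J) :=
  isDeg_cls orient_zc (by
    have := hom_oc (R := R) (fun j (v : J → ℂ) => v j) Finset.univ.toList
    rwa [Finset.length_toList] at this)

theorem pull_orient {F : X → J → ℂ} (hF : ∀ x ∈ U, ContinuousAt F x)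
    (h : ∀ x ∈ U, F x = 0 → x ∈ Z) {L : List J} (h1 : L.Nodup) (h2 : ∀ j, j ∈ L) :
    pull F U Z (orC R J) = cls U Z (oc (fun j x => F x j) L) := by
  have a : Adm F U Z univ {0} := ⟨hF, fun _ _ => trivial, fun x k => ⟨trivial, fun e =>
    k.2 (h x k.1 e)⟩⟩
  rw [orient_eq, a.pull_cls orient_zc, pullc_oc]
  exact oc_perm (fun j x k => (continuous_apply j).continuousAt.comp (hF x k))
    ((List.perm_ext_iff_of_nodup (Finset.nodup_toList _) h1).2 (by simp [h2]))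
    fun x k e => h x k (funext fun j => e j (by simp))

theorem cont_comp_right {K K' : Type} (k : K → K') : Continuous fun v : K' → ℂ => v ∘ k :=
  continuous_pi fun j => continuous_apply (k j)

theorem orient_equiv (e : J' ≃ J) :
    pull (fun v : J → ℂ => v ∘ e) univ {0} (orC R J') = orC R J := by
  rw [pull_orient (F := fun v : J → ℂ => v ∘ e) (U := univ) (Z := {0})
    (L := (Finset.univ : Finset J).toList.map e.symm) (fun _ _ => (cont_comp_right _).continuousAt)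
    (fun v _ k => funext fun j => by simpa using congrFun k (e.symm j))
    ((Finset.nodup_toList _).map e.symm.injective) fun j => by simpa using ⟨e j, by simp⟩, oc_map,
    orient_eq]
  congr 2
  funext j v
  simp

theorem orient_sum {J₁ J₂ : Type} [Fintype J₁] [Fintype J₂] (e : J₁ ⊕ J₂ ≃ J) :
    orC R J = cup univ {0}
      (pull (fun v : J → ℂ => v ∘ e ∘ Sum.inl) univ {v | v ∘ e ∘ Sum.inl = 0} (orC R J₁))
      (pull (fun v : J → ℂ => v ∘ e ∘ Sum.inr) univ {v | v ∘ e ∘ Sum.inr = 0} (orC R J₂)) := by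
  have c : ∀ {K : Type} (k : K → J) (j : K), ∀ v ∈ (univ : Set (J → ℂ)),
      ContinuousAt (fun v : J → ℂ => (v ∘ k) j) v := fun k j _ _ =>
    (continuous_apply (k j)).continuousAt
  have d : ∀ {K : Type} [Fintype K] (k : K → J),
      pull (fun v : J → ℂ => v ∘ k) univ {v | v ∘ k = 0} (orC R K) =
        cls univ {v | v ∘ k = 0} (oc (fun j v => (v ∘ k) j) Finset.univ.toList) := fun k =>
    pull_orient (fun _ _ => (cont_comp_right _).continuousAt) (fun _ _ k => k)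
      (Finset.nodup_toList Finset.univ) (by simp)
  have cu : CupOK univ {v : J → ℂ | v ∘ e ∘ Sum.inl = 0} univ {v | v ∘ e ∘ Sum.inr = 0} univ {0} :=
    cupOK fun v _ a b => funext fun j => by
      obtain ⟨j | j, rfl⟩ := e.surjective j
      exacts [congrFun a j, congrFun b j]
  rw [d, d, cup_cls cu (oc_zc (c _) _ fun _ _ k => funext fun j => k j (by simp))
    (oc_zc (c _) _ fun _ _ k => funext fun j => k j (by simp)), ← pull_id (orC R J),
    pull_orient (F := id) (U := univ) (Z := {0}) (L := Finset.univ.toList.map (e ∘ Sum.inl) ++ Finset.univ.toList.map (e ∘ Sum.inr))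
    (fun _ _ => continuousAt_id) (fun _ _ k => k) (List.nodup_append.2
      ⟨(Finset.nodup_toList _).map (e.injective.comp Sum.inl_injective),
        (Finset.nodup_toList _).map (e.injective.comp Sum.inr_injective), by simp⟩)
    (fun j => by obtain ⟨j | j, rfl⟩ := e.surjective j <;> simp), oc_append, oc_map, oc_map]
  rfl

theorem orient_end {M : (J → ℂ) →ₗ[ℂ] J → ℂ} (hM : Function.Injective M) :
    pull M univ {0} (orC R J) = orC R J := by
  have hc : {z : ℂ | z ≠ 0 ∧ Module.End.HasEigenvalue M ((z - 1) / z)}.Countable :=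
    ((Module.End.finite_hasEigenvalue M).image fun μ => 1 / (1 - μ)).countable.mono
      (by exact fun z k => ⟨_, k.2, by have := k.1; field_simp; ring⟩)
  obtain ⟨γ, hγ⟩ := (hc.isPathConnected_compl_of_one_lt_rank (by simp)).joinedIn 0 (by simp) 1 (by
    rintro ⟨-, k⟩
    obtain ⟨v, h1, h2⟩ := k.exists_hasEigenvector
    exact h2 (hM (by simpa using h1)))
  have cM := M.continuous_of_finiteDimensional
  rw [← pull_htpy' (f := id) (g := M) (U := univ) (U' := univ) (Z := {0}) (Z' := {0}) (F := fun z => (1 - γ.extend z.2) • z.1 + γ.extend z.2 • M z.1)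
    (.of_continuous (by fun_prop) _) (fun _ _ _ _ => trivial) (fun v _ t ht k => ?_) (by simp)
    (by simp), pull_id]
  by_contra hv
  have k' : (1 - γ.extend t) • v + γ.extend t • M v = 0 := k
  have h0 : γ.extend t ≠ 0 := fun e => hv (by simpa [e] using k')
  refine hγ ⟨t, ht⟩ ?_
  rw [← γ.extend_apply ht]
  refine ⟨h0, Module.End.hasEigenvalue_of_hasEigenvector (x := v)
    ⟨Module.End.mem_eigenspace_iff.2 ?_, hv⟩⟩
  refine smul_right_injective _ h0 ?_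
  change γ.extend t • _ = γ.extend t • _
  rw [smul_smul, mul_div_cancel₀ _ h0, eq_neg_of_add_eq_zero_right k', ← neg_smul, neg_sub]

/-- Complex linear isomorphisms preserve the orientation. -/
theorem orient_linear {M : (J → ℂ) → J' → ℂ} (h : IsLinearMap ℂ M) (hM : Function.Bijective M) :
    pull M univ {0} (orC R J') = orC R J := by
  have : Fintype.card J = Fintype.card J' := by
    simpa using (LinearEquiv.ofBijective (h.mk' M) hM).finrank_eq
  obtain ⟨e⟩ := Fintype.card_eq.1 this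
  have cM : Continuous M := (h.mk' M).continuous_of_finiteDimensional
  have o1 : Ok M univ {0} univ {0} := .of_mem (.of_continuous cM _) (fun _ _ => trivial)
    fun v _ k => hM.1 (k.trans h.map_zero.symm)
  have o3 : Ok (fun v : J' → ℂ => v ∘ e) univ {0} univ {0} :=
    .of_mem (.of_continuous (by fun_prop) _) (fun _ _ => trivial)
      fun v _ k => funext fun j => by simpa using congrFun k (e.symm j)
  rw [← orient_equiv e, pull_pull' (F := (LinearMap.funLeft ℂ ℂ e ∘ₗ h.mk' M :)) o1 o3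
    fun _ _ => rfl]
  exact orient_end ((LinearMap.funLeft_injective_of_surjective ℂ ℂ e e.surjective).comp hM.1)

end Orient

variable [RegularSpace X] [SecondCountableTopology X]

theorem oc_bij {w : J → X → ℂ} (hw : ∀ j, Continuous (w j)) {Φ : J → X × ℂ → X}
    (hΦ : ∀ j, Continuous (Φ j)) (e0 : ∀ j x, Φ j (x, 0) = x)
    (e1 : ∀ j x t, w j (Φ j (x, t)) = w j x + t) (e1' : ∀ i j x t, i ≠ j → w i (Φ j (x, t)) = w i x)
    (e2 : ∀ j, ∀ x ∈ U, ∀ t, Φ j (x, t) ∈ U) (L : List J) (hL : L.Nodup) :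
    ∀ {Z Z₀ Z₁ : Set X}, Cl U Z → (∀ j ∈ L, ∀ x ∈ U, ∀ t, Φ j (x, t) ∈ Z → x ∈ Z) →
      (∀ x ∈ U, x ∈ Z₁ ↔ ∀ j ∈ L, w j x = 0) → (∀ x ∈ U, x ∈ Z₀ ↔ x ∈ Z ∧ x ∈ Z₁) →
      Function.Bijective fun a : H R U Z => cup U Z₀ a (cls U Z₁ (oc w L)) := by
  have hw' : ∀ j, ∀ x ∈ U, ContinuousAt (w j) x := fun j _ _ => (hw j).continuousAt
  induction L with
  | nil =>
    intro Z Z₀ Z₁ _ _ h1 h2
    have s : U ⊆ Z₁ := fun x k => (h1 x k).2 (by simp)
    convert res_bij_of_eq (R := R) (U := U) (Z := Z) (Z₁ := Z₀) fun x k => by simp [h2 x k, s k] using 1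
    exact funext fun a => cup_one s (cupOK fun x k a b => (h2 x k).2 ⟨a, b⟩)
      (.id subset_rfl fun x k a => (h2 x k).2 ⟨a, s k⟩) a
  | cons j L ih =>
    intro Z Z₀ Z₁ hc h0 h1 h2
    have cre : Continuous fun x => (w j x).re := Complex.continuous_re.comp (hw j)
    have cim : Continuous fun x => (w j x).im := Complex.continuous_im.comp (hw j)
    have c1 : Cl U (Z ∩ {x | (w j x).re = 0}) :=
      hc.inter (.of_isClosed (isClosed_eq cre continuous_const) _)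
    have b1 := jump_bij_flow (R := R) (Z₁ := {x | (w j x).re = 0}) (Z₂ := Z ∩ {x | (w j x).re = 0}) cre hc
      (fun _ _ k => k) (fun _ _ k => k) (fun _ _ => Iff.rfl) (Φ := fun z => Φ j (z.1, z.2))
      (by fun_prop) (by simp [e0]) (by simp [e1]) (fun x k t => e2 j x k _)
      fun x k t => h0 j (by simp) x k _
    have b2 := jump_bij_flow (R := R) (Z₁ := {x | (w j x).im = 0}) (Z₂ := Z ∩ {x | w j x = 0}) cim c1
      (fun _ _ k => k) (fun _ _ k => k) (fun _ _ => by simp [Complex.ext_iff, and_assoc])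
      (Φ := fun z => Φ j (z.1, z.2 * Complex.I)) (by fun_prop) (by simp [e0]) (by simp [e1])
      (fun x k t => e2 j x k _) fun x k t e => ⟨h0 j (by simp) x k _ e.1, by simpa [e1] using e.2⟩
    have b3 := ih hL.of_cons (Z := Z ∩ {x | w j x = 0}) (Z₀ := Z₀) (Z₁ := {x | ∀ j ∈ L, w j x = 0})
      (hc.inter (.of_isClosed (isClosed_eq (hw j) continuous_const) _))
      (fun i hi x k t e => ⟨h0 i (by simp [hi]) x k _ e.1, by
        have := e.2
        rwa [mem_ofPred_eq, e1' j i x t fun a => hL.notMem (a ▸ hi)] at this⟩)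
      (fun _ _ => Iff.rfl) fun x k => by simp [h2 x k, h1 x k, and_assoc]
    convert b3.comp (b2.comp b1) using 1
    funext a
    obtain ⟨φ, m, rfl⟩ := exists_cls a
    have d1 := cupOK (U := U) (Z₁ := Z) (Z₂ := {x | (w j x).re = 0})
      (Z := Z ∩ {x | (w j x).re = 0}) fun _ _ a b => ⟨a, b⟩
    have d2 := cupOK (U := U) (Z₁ := Z ∩ {x | (w j x).re = 0}) (Z₂ := {x | (w j x).im = 0})
      (Z := Z ∩ {x | w j x = 0}) fun _ _ a b => ⟨a.1, Complex.ext a.2 b⟩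
    have d3 := cupOK (U := U) (Z₁ := Z ∩ {x | w j x = 0}) (Z₂ := {x | ∀ j ∈ L, w j x = 0}) (Z := Z₀)
      fun x k a b => (h2 x k).2 ⟨a.1, (h1 x k).2 (List.forall_mem_cons.2 ⟨a.2, b⟩)⟩
    have m1 := d1.zc m (jre_zc (hw' j))
    simp only [Function.comp_apply]
    rw [cup_cls d1 m (jre_zc (hw' j)), cup_cls d2 m1 (jim_zc (hw' j)),
      cup_cls (cupOK fun x k a b => (h2 x k).2 ⟨a, b⟩) m (oc_zc hw' _ fun x k => (h1 x k).2),
      cup_cls d3 (d2.zc m1 (jim_zc (hw' j))) (oc_zc hw' _ fun _ _ k => k), oc_cons, uc, cupc_assoc,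
      cupc_assoc, cupc_assoc]

theorem lz_split (hA : ∀ x ∈ A, A ∈ 𝓝[B] x) (hB : ∀ x ∈ B, B ∈ 𝓝[A] x) (hφ : φ ∈ bd R X)
    (h : φ ∈ lz R (A ∩ B)) : ∃ ψ ∈ bd R X, ψ ∈ lz R A ∧ φ - ψ ∈ lz R B ∧ ∀ S, φ ∈ lz R S → ψ ∈ lz R S := by
  obtain ⟨O, O', o1, o2, k1, k2, k3⟩ := exists_sep (A := A \ nul φ) (B := B \ nul φ)
    (Set.disjoint_left.2 fun a h1 h2 => by
      obtain ⟨N, n1, n2⟩ := mem_nhdsWithin_iff_exists_mem_nhds_inter.1 (hB a h2.1)
      obtain ⟨b, b1, b2⟩ := mem_closure_iff_nhds.1 h1 N n1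
      exact b2.2 (h b ⟨b2.1, n2 ⟨b1, b2.1⟩⟩))
    (Set.disjoint_left.2 fun a h1 h2 => by
      obtain ⟨N, n1, n2⟩ := mem_nhdsWithin_iff_exists_mem_nhds_inter.1 (hA a h1.1)
      obtain ⟨b, b1, b2⟩ := mem_closure_iff_nhds.1 h2 N n1
      exact b2.2 (h b ⟨n2 ⟨b1, b2.1⟩, b2.1⟩))
  exact ⟨cut O' φ, cut_bd _ hφ, lz_cover (cut_lz O' (lz_nul φ))
    (cut_lz_of_disjoint o1 k1 k3.symm φ) fun _ a b => ⟨a, b⟩, lz_cover
    (sub_mem (lz_nul φ) (cut_lz O' (lz_nul φ))) (sub_cut_lz o2 k2 hφ.1) fun _ a b => ⟨a, b⟩,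
    fun _ => cut_lz O'⟩

theorem nhdsWithin_diff {x : X} (h : A ∈ 𝓝[B] x) : A \ Z ∈ 𝓝[B \ Z] x :=
  mem_of_superset (inter_mem (nhdsWithin_mono _ sdiff_subset h) self_mem_nhdsWithin)
    fun _ k => ⟨k.1, k.2.2⟩

/-- Mayer-Vietoris gluing. -/
theorem mv_glue {C D : Set X} (hA : ∀ x ∈ A, A ∈ 𝓝[B] x) (hB : ∀ x ∈ B, B ∈ 𝓝[A] x)
    (hC : C = A ∩ B) (hD : D = A ∪ B) (a : H R A Z) (b : H R B Z)
    (h : pull id C Z a = pull id C Z b) : ∃ c : H R D Z, pull id A Z c = a ∧ pull id B Z c = b := by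
  subst hC hD
  obtain ⟨φ, m, rfl⟩ := exists_cls a
  obtain ⟨ψ, m', rfl⟩ := exists_cls b
  have o1 : Ok id (A ∩ B) Z A Z := .id inter_subset_left fun _ _ k => k
  have o2 : Ok id (A ∩ B) Z B Z := .id inter_subset_right fun _ _ k => k
  have o3 : Ok id A Z (A ∪ B) Z := .id subset_union_left fun _ _ k => k
  have o4 : Ok id B Z (A ∪ B) Z := .id subset_union_right fun _ _ k => k
  rw [res_cls o1 m, res_cls o2 m', cls_eq_cls (o1.zc_id m) (o2.zc_id m')] at h
  obtain ⟨χ, h1, h2, h3⟩ := h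
  obtain ⟨η, k1, k2, k3, -⟩ := lz_split (A := A \ Z) (B := B \ Z)
    (fun x k => nhdsWithin_diff (hA x k.1)) (fun x k => nhdsWithin_diff (hB x k.1)) h1
    (lz_anti (by exact fun x k => ⟨⟨k.1.1, k.2.1⟩, k.1.2⟩) h2)
  obtain ⟨α, r1, r2, r3, -⟩ := lz_split hA hB (sub_mem (sub_mem m.1.1 m'.1.1) (dl_bd h1)) h3
  have e : φ - dl η - α = ψ + dl (χ - η) + (φ - ψ - dl χ - α) := by rw [map_sub]; abel
  have mc : φ - dl η - α ∈ Zc R (A ∪ B) Z := mem_Zc.2 ⟨sub_mem (sub_mem m.1.1 (dl_bd k1)) r1,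
    lz_union (by simpa [dl_dl] using sub_mem m.1.2 (dl_lz r2)) (by
      rw [e, map_add, map_add, dl_dl, add_zero]; exact add_mem m'.1.2 (dl_lz r3)), by
    rw [union_sdiff_distrib]
    exact lz_union (sub_mem (sub_mem m.2 (dl_lz k2)) (lz_anti sdiff_subset r2))
      (e ▸ add_mem (add_mem m'.2 (dl_lz k3)) (lz_anti sdiff_subset r3))⟩
  refine ⟨cls _ _ (φ - dl η - α), ?_, ?_⟩
  · rw [res_cls o3 mc, eq_comm, cls_eq_cls m (o3.zc_id mc)]
    exact ⟨η, k1, k2, by convert r2 using 1; abel⟩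
  · rw [res_cls o4 mc, cls_eq_cls (o4.zc_id mc) m']
    exact ⟨χ - η, sub_mem h1 k1, k3, by rw [e]; convert r3 using 1; abel⟩

/-- Gluing over disjoint open sets. -/
theorem disj_glue (hf : ContinuousOn f U) {W : ℕ → Set Y} (o : ∀ k, IsOpen (W k))
    (dj : Pairwise fun j k => Disjoint (W j) (W k)) {p : ℤ} (a : ∀ k, H R (U ∩ f ⁻¹' W k) Z)
    (ha : ∀ k, IsDeg p (a k)) :
    ∃ c : H R (U ∩ f ⁻¹' ⋃ k, W k) Z, ∀ k, pull id (U ∩ f ⁻¹' W k) Z c = a k := by
  choose φ m e d using ha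
  obtain ⟨z, z1, -, z2⟩ := (loc_lz (B := ∅) (S := fun W => U ∩ f ⁻¹' W) hf (by simp)
    (by simp)).sum W o dj p φ fun k => ⟨(m k).1.1, Hom.msk_eq (d k) (mem_Iic.2 le_rfl), by
      simpa using lz_empty _⟩
  have mk : ∀ k, z ∈ Zc R (U ∩ f ⁻¹' W k) Z := fun k =>
    Zc_of_sub_lz (m k) z1 (by simpa using neg_mem (z2 k))
  have mz : z ∈ Zc R (U ∩ f ⁻¹' ⋃ k, W k) Z := mem_Zc.2 ⟨z1, fun x hx => by
    obtain ⟨k, hk⟩ := mem_iUnion.1 hx.2
    exact (mk k).1.2 x ⟨hx.1, hk⟩, fun x hx => by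
    obtain ⟨k, hk⟩ := mem_iUnion.1 hx.1.2
    exact (mk k).2 x ⟨⟨hx.1.1, hk⟩, hx.2⟩⟩
  exact ⟨cls _ _ z, fun k => by
    rw [res_cls (.id (inter_subset_inter_right _ (preimage_mono (subset_iUnion W k)))
      fun _ _ k => k) mz, e, cls_eq_of_lz (mk k) (m k).1.1 (z2 k)]⟩

variable [RegularSpace Y] [SecondCountableTopology Y] [Fintype J]

theorem pull_fst_bij : Function.Bijective
    (pull Prod.fst (U' ×ˢ (univ : Set (J → ℂ))) (Z' ×ˢ univ) : H R U' Z' → _) :=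
  pull_bij_of_section (s := fun y => (y, 0)) (F := fun z => (z.1.1, z.2 • z.1.2))
    (.of_mem (.of_continuous continuous_fst _) (fun _ k => k.1) fun _ _ k => ⟨k, trivial⟩)
    (.of_mem (.of_continuous (by fun_prop) _) (fun _ k => ⟨k, trivial⟩) fun _ _ k => k.1)
    (fun _ _ => rfl) (.of_continuous (by fun_prop) _) (fun _ k _ _ => ⟨k.1, trivial⟩)
    (fun _ _ _ _ k => ⟨k.1, trivial⟩) (by simp) (by simp)

/-- The Thom isomorphism of a trivial bundle. -/
theorem thom_triv (hc : Cl U' Z') : Function.Bijective fun a : H R U' Z' =>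
    cup (U' ×ˢ univ) (Z' ×ˢ {0}) (pull Prod.fst (U' ×ˢ univ) (Z' ×ˢ univ) a)
      (pull Prod.snd (U' ×ˢ univ) (univ ×ˢ {0}) (orC R J)) := by
  classical
  rw [pull_orient (Z := univ ×ˢ {0}) (fun _ _ => continuousAt_snd) (fun _ _ k => ⟨trivial, k⟩)
    (Finset.nodup_toList Finset.univ) (by simp)]
  refine (oc_bij (U := U' ×ˢ univ) (w := fun j (z : Y × (J → ℂ)) => z.2 j) (fun _ => by fun_prop)
    (Φ := fun j (z : (Y × (J → ℂ)) × ℂ) => (z.1.1, z.1.2 + (Pi.single j z.2 : J → ℂ)))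
    (fun j => by
      exact continuous_fst.fst.prodMk (continuous_fst.snd.add
        ((continuous_single (A := fun _ : J => ℂ) j).comp continuous_snd))) (by simp) (by simp)
    (fun i j x t h => by simp [h]) (fun _ _ k _ => ⟨k.1, trivial⟩) _ (Finset.nodup_toList _)
    (Z := Z' ×ˢ univ) ((hc.preimage continuousOn_fst fun _ k => k.1).congr (by simp))
    (fun _ _ _ _ _ k => ⟨k.1, trivial⟩) (by simp [funext_iff]) (by simp)).comp pull_fst_bij

theorem isDeg_of_cup {k p : ℤ} {τ : H R U Z₀} (hτ : IsDeg k τ)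
    (h : Function.Injective fun a : H R U' Z' => cup U Z (pull f U Z₁ a) τ) {a : H R U' Z'}
    (ha : IsDeg (p + k) (cup U Z (pull f U Z₁ a) τ)) : IsDeg p a :=
  isDeg_iff.2 (h (by
    change cup U Z (pull f U Z₁ (prj {p} a)) τ = cup U Z (pull f U Z₁ a) τ
    rw [pull_prj, cup_prj_left (t := {p + k}) (by simp) _ hτ, isDeg_iff.1 ha]))

end Pool.Agent.Work.MP_8c604c_gt.TZ
end
end

-- merged part: Pool.Agent.Work.MP_8c604c_gt.TZ.GThom
section
/-! Thom classes and the Thom isomorphism for an arbitrary fibre `F` with a class `ω`. -/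

noncomputable section

set_option linter.unusedSectionVars false

namespace Pool.Agent.Work.MP_8c604c_gt.TZ

open Set Topology Filter

variable {R : Type} [CommRing R] {X Y F A : Type} [TopologicalSpace X] [TopologicalSpace Y] [TopologicalSpace F] [Zero F]
  [TopologicalSpace A]

/-- `ω` is a Thom class of degree `d` of the pointed space `F`. -/
structure Fib (d : ℤ) (ω : H R (univ : Set F) {0}) : Prop where
  deg : IsDeg d ω
  triv : ∀ (Y : Type) [TopologicalSpace Y] [RegularSpace Y] [SecondCountableTopology Y]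
    (U' Z' : Set Y), Cl U' Z' → Function.Bijective fun a : H R U' Z' =>
      cup (U' ×ˢ univ) (Z' ×ˢ {0}) (pull Prod.fst (U' ×ˢ univ) (Z' ×ˢ univ) a)
        (pull Prod.snd (U' ×ˢ univ) (univ ×ˢ {0}) ω)

theorem fib_orient (J : Type) [Fintype J] : Fib (2 * Fintype.card J) (orC R J) :=
  ⟨isDeg_orient, fun _ _ _ _ _ _ h => thom_triv h⟩

variable {d : ℤ} {ω : H R (univ : Set F) {0}}

theorem Fib.eq_zero (hω : Fib d ω) {t : R} (h : t • ω = 0) : t = 0 := by
  have o3 : Ok Prod.fst (({()} : Set Unit) ×ˢ (univ : Set F)) (univ ×ˢ univ) {()} univ :=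
    .of_mem (.of_continuous continuous_fst _) (fun _ k => k.1) fun _ _ _ => ⟨trivial, trivial⟩
  have := (hω.triv _ _ _ (Cl.univ ({()} : Set Unit))).1 (a₁ := t • cls _ _ onec) (a₂ := 0) (by
    simp only [map_smul, LinearMap.smul_apply, map_zero, LinearMap.zero_apply]
    rw [← map_smul, ← map_smul, h, map_zero, map_zero])
  simpa [ev_one (mem_singleton ()) (subset_univ _)] using congrArg (ev ()) this

/-- `ω` generates the cohomology of `F` with support in the base point. -/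
theorem Fib.gen (hω : Fib d ω) (a : H R (univ : Set F) {0}) : ∃ t : R, a = t • ω := by
  have o1 : Ok Prod.snd (({()} : Set Unit) ×ˢ (univ : Set F)) (univ ×ˢ {0}) univ {0} :=
    .of_mem (.of_continuous continuous_snd _) (fun _ _ => trivial) fun _ _ k => ⟨trivial, k⟩
  have o2 : Ok (fun v : F => ((), v)) univ {0} (({()} : Set Unit) ×ˢ univ) (univ ×ˢ {0}) :=
    .of_mem (.of_continuous (by fun_prop) _) (fun _ _ => ⟨rfl, trivial⟩) fun _ _ k => k.2
  have o3 : Ok Prod.fst (({()} : Set Unit) ×ˢ (univ : Set F)) (univ ×ˢ univ) {()} univ :=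
    .of_mem (.of_continuous continuous_fst _) (fun _ k => k.1) fun _ _ _ => ⟨trivial, trivial⟩
  obtain ⟨b, hb⟩ := (hω.triv _ _ _ (Cl.univ ({()} : Set Unit))).2 (pull Prod.snd _ _ a)
  refine ⟨ev () b, ?_⟩
  have := congrArg (pull (fun v : F => ((), v)) univ {0}) hb
  rw [pt_eq (mem_univ ()) b] at this
  simp only [map_smul, LinearMap.smul_apply] at this
  rw [pull_one o3 (subset_univ _), one_cup' (by simp),
    pull_pull' (F := id) o2 o1 (fun _ _ => rfl), pull_pull' (F := id) o2 o1 (fun _ _ => rfl),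
    pull_id, pull_id] at this
  exact this.symm

/-- Transport of a Thom class along a homeomorphism of pointed spaces. -/
theorem Fib.homeo {F' : Type} [TopologicalSpace F'] [Zero F'] (hω : Fib d ω) {e : F' → F}
    {e' : F → F'} (he : Continuous e) (he' : Continuous e') (h1 : ∀ v, e' (e v) = v)
    (h2 : ∀ v, e (e' v) = v) (h0 : e 0 = 0) : Fib d (pull e univ {0} ω) :=
  ⟨hω.deg.pull _ _ _, fun Y _ _ _ U' Z' h => by
    have z : ∀ v, e v = 0 → v = 0 := fun v k => by rw [← h1 v, k, ← h0, h1]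
    have z' : ∀ v, e' v = 0 → v = 0 := fun v k => by rw [← h2 v, k, h0]
    have c : Continuous (Prod.map (id : Y → Y) e) := continuous_id.prodMap he
    have o1 : Ok (Prod.map id e) (U' ×ˢ univ) (Z' ×ˢ {0}) (U' ×ˢ univ) (Z' ×ˢ {0}) :=
      .of_mem (.of_continuous c _) (fun _ k => ⟨k.1, trivial⟩) fun _ _ k => ⟨k.1, z _ k.2⟩
    have o2 : Ok (Prod.map id e) (U' ×ˢ univ) (Z' ×ˢ univ) (U' ×ˢ univ) (Z' ×ˢ univ) :=
      .of_mem (.of_continuous c _) (fun _ k => ⟨k.1, trivial⟩) fun _ _ k => ⟨k.1, trivial⟩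
    have o3 : Ok (Prod.map id e) (U' ×ˢ univ) (univ ×ˢ {0}) (U' ×ˢ univ) (univ ×ˢ {0}) :=
      .of_mem (.of_continuous c _) (fun _ k => ⟨k.1, trivial⟩) fun _ _ k => ⟨trivial, z _ k.2⟩
    have o4 : Ok (Prod.map id e') (U' ×ˢ univ) (Z' ×ˢ {0}) (U' ×ˢ univ) (Z' ×ˢ {0}) :=
      .of_mem (.of_continuous (continuous_id.prodMap he') _) (fun _ k => ⟨k.1, trivial⟩)
        fun _ _ k => ⟨k.1, z' _ k.2⟩
    have o5 : Ok Prod.snd (U' ×ˢ (univ : Set F')) (univ ×ˢ {0}) univ {0} :=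
      .of_mem (.of_continuous continuous_snd _) (fun _ _ => mem_univ _) fun _ _ k => ⟨trivial, k⟩
    convert (pull_bij_of_inv o1 o4 (fun x _ => Prod.ext rfl (h1 _))
      fun x _ => Prod.ext rfl (h2 _)).comp (hω.triv Y U' Z' h) using 1
    funext a
    rw [Function.comp_apply, pull_cup' o1 o2 o3 (fun _ _ a b => ⟨a.1, b.2⟩)
      (cupOK fun _ _ a b => ⟨a.1, b.2⟩),
      pull_pull' (F := Prod.fst) o2 (.of_mem (.of_continuous continuous_fst _) (fun _ k => k.1)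
        fun _ _ k => ⟨k, trivial⟩) fun _ _ => rfl,
      pull_pull' (F := fun x => e x.2) o3 (.of_mem (.of_continuous continuous_snd _)
        (fun _ _ => mem_univ _) fun _ _ k => ⟨trivial, k⟩) fun _ _ => rfl,
      pull_pull' (F := fun x => e x.2) o5
        (.of_mem (.of_continuous he _) (fun _ _ => mem_univ _) fun v _ k => z v k) fun _ _ => rfl]⟩

variable {U Z Z₀ Z₁ : Set X} {U' Z' : Set Y}

/-- A chart of a vector bundle `π : U → U'` with zero section `Z₀`. -/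
structure ChartV (π : X → Y) (U Z₀ : Set X) (U' W : Set Y) (g : X → F)
    (s : Y × F → X) : Prop where
  op : IsOpen W
  extg : Ext g (U ∩ π ⁻¹' W)
  exts : Ext s ((U' ∩ W) ×ˢ univ)
  mem : ∀ y ∈ U' ∩ W, ∀ v, s (y, v) ∈ U
  fst : ∀ y ∈ U' ∩ W, ∀ v, π (s (y, v)) = y
  snd : ∀ y ∈ U' ∩ W, ∀ v, g (s (y, v)) = v
  inv : ∀ x ∈ U ∩ π ⁻¹' W, s (π x, g x) = x
  zero : ∀ x ∈ U ∩ π ⁻¹' W, x ∈ Z₀ ↔ g x = 0

variable [RegularSpace X] [SecondCountableTopology X] [RegularSpace Y] [SecondCountableTopology Y]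
variable {π : X → Y} {W W' : Set Y} {g : X → F} {s : Y × F → X}

namespace ChartV

theorem mono (h : ChartV π U Z₀ U' W g s) (o : IsOpen W') (k : W' ⊆ W) : ChartV π U Z₀ U' W' g s :=
  have a : U ∩ π ⁻¹' W' ⊆ U ∩ π ⁻¹' W := inter_subset_inter_right _ (preimage_mono k)
  have b : U' ∩ W' ⊆ U' ∩ W := inter_subset_inter_right _ k
  ⟨o, h.extg.mono a, h.exts.mono (prod_mono b subset_rfl), fun y e => h.mem y (b e),
    fun y e => h.fst y (b e), fun y e => h.snd y (b e), fun y e => h.inv y (a e),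
    fun y e => h.zero y (a e)⟩

theorem restrict (h : ChartV π U Z₀ U' W g s) (W' : Set Y) :
    ChartV π (U ∩ π ⁻¹' W') Z₀ (U' ∩ W') W g s :=
  have a : U ∩ π ⁻¹' W' ∩ π ⁻¹' W ⊆ U ∩ π ⁻¹' W := fun _ k => ⟨k.1.1, k.2⟩
  have b : U' ∩ W' ∩ W ⊆ U' ∩ W := fun _ k => ⟨k.1.1, k.2⟩
  ⟨h.op, h.extg.mono a, h.exts.mono (prod_mono b subset_rfl),
    fun y e v => ⟨h.mem y (b e) v, by rw [mem_preimage, h.fst y (b e)]; exact e.1.2⟩,
    fun y e => h.fst y (b e), fun y e => h.snd y (b e), fun y e => h.inv y (a e),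
    fun y e => h.zero y (a e)⟩

theorem mem' (h : ChartV π U Z₀ U' W g s) {y : Y} (hy : y ∈ U' ∩ W) (v : F) :
    s (y, v) ∈ U ∩ π ⁻¹' W := ⟨h.mem y hy v, by rw [mem_preimage, h.fst y hy]; exact hy.2⟩

theorem ok_fib (h : ChartV π U Z₀ U' W g s) {y : Y} (hy : y ∈ U' ∩ W) {V : Set X}
    (hV : ∀ v, s (y, v) ∈ V) : Ok (fun v => s (y, v)) univ {0} V Z₀ :=
  .of_mem (h.exts.comp (f := fun v => (y, v)) (.of_continuous (by fun_prop) _)
    fun _ _ => ⟨hy, trivial⟩) (fun v _ => hV v)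
    fun v _ k => (h.snd y hy v).symm.trans ((h.zero _ (h.mem' hy v)).1 k)

theorem ok_g (h : ChartV π U Z₀ U' W g s) : Ok g (U ∩ π ⁻¹' W) Z₀ univ {0} :=
  .of_mem h.extg (fun _ _ => trivial) fun x k e => (h.zero x k).2 e

theorem fib_g (h : ChartV π U Z₀ U' W g s) {y : Y} (hy : y ∈ U' ∩ W) :
    pull (fun v => s (y, v)) univ {0} (pull g (U ∩ π ⁻¹' W) Z₀ ω) = ω := by
  rw [pull_pull' (F := id) (h.ok_fib hy (h.mem' hy)) h.ok_g fun v _ => h.snd y hy v, pull_id]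

theorem bij (h : ChartV π U Z₀ U' W g s) (hω : Fib d ω) (hπ : Ext π U) (hm : MapsTo π U U') :
    Function.Bijective fun a : H R (U' ∩ W) univ => cup (U ∩ π ⁻¹' W) Z₀
      (pull π (U ∩ π ⁻¹' W) univ a) (pull g (U ∩ π ⁻¹' W) Z₀ ω) := by
  have e := (hπ.mono inter_subset_left).prodMk h.extg
  have m : MapsTo (fun x => (π x, g x)) (U ∩ π ⁻¹' W) ((U' ∩ W) ×ˢ univ) :=
    fun x k => ⟨⟨hm k.1, k.2⟩, trivial⟩
  have o : Ok (fun x => (π x, g x)) (U ∩ π ⁻¹' W) Z₀ ((U' ∩ W) ×ˢ univ) (univ ×ˢ {0}) :=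
    .of_mem e m fun x k a => (h.zero x k).2 a.2
  have o' : Ok (fun x => (π x, g x)) (U ∩ π ⁻¹' W) univ ((U' ∩ W) ×ˢ univ) (univ ×ˢ univ) :=
    .of_mem e m fun x k a => trivial
  convert (pull_bij_of_inv o (.of_mem h.exts (fun z k => h.mem' k.1 z.2) fun z k a =>
    ⟨trivial, (h.snd _ k.1 _).symm.trans ((h.zero _ (h.mem' k.1 z.2)).1 a)⟩) h.inv
    fun z k => Prod.ext (h.fst _ k.1 _) (h.snd _ k.1 _)).comp (hω.triv _ _ _ (Cl.univ _)) using 1
  funext a
  rw [Function.comp_apply, pull_cup' o o' o (fun _ _ _ k => k) (cupOK fun _ _ _ k => k),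
    pull_pull' (F := π) o' (.of_mem (.of_continuous continuous_fst _) (fun _ k => k.1)
      fun _ _ _ => ⟨trivial, trivial⟩) fun _ _ => rfl,
    pull_pull' (F := g) o (.of_mem (.of_continuous continuous_snd _) (fun _ k => mem_univ _)
      fun _ _ k => ⟨trivial, k⟩) fun _ _ => rfl]

theorem fib_cup (h : ChartV π U Z₀ U' W g s) (hπ : Ext π U) (hm : MapsTo π U U') {y : Y}
    (hy : y ∈ U' ∩ W) (a : H R U' univ) (τ : H R U Z₀) :
    pull (fun v => s (y, v)) univ {0} (cup U Z₀ (pull π U univ a) τ) =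
      ev y a • pull (fun v => s (y, v)) univ {0} τ := by
  have o := h.ok_fib hy (h.mem y hy)
  have o' : Ok (fun v => s (y, v)) univ univ U univ := .of_mem o.ext o.maps fun _ _ _ => trivial
  have o1 : Ok (fun _ : F => y) univ univ {y} univ :=
    .of_mem (.of_continuous continuous_const _) (fun _ _ => rfl) fun _ _ _ => trivial
  have o2 : Ok id {y} univ U' univ := .id (singleton_subset_iff.2 hy.1) fun _ _ _ => trivial
  rw [pull_cup' o o' o (fun _ _ _ k => k) (cupOK fun _ _ _ k => k),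
    pull_pull' (F := fun _ => y) o' (.of_mem hπ hm fun _ _ _ => trivial) fun v _ => h.fst y hy v,
    ← pull_pull' (F := fun _ => y) o1 o2 fun _ _ => rfl, pt_eq (mem_univ y) (pull id {y} univ a), map_smul,
    pull_one o1 (subset_univ _), map_smul, LinearMap.smul_apply, one_cup' (subset_univ _),
    ev_pull o2 rfl]
  rfl

end ChartV

/-- A class of top degree that vanishes on all fibres vanishes. -/
theorem eq_zero_of_fibV (hω : Fib d ω) (hπ : Ext π U) (hm : MapsTo π U U') {τ : H R U Z₀} {k : ℤ} (hτ : IsDeg k τ)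
    (hb : Function.Bijective fun a : H R U' univ => cup U Z₀ (pull π U univ a) τ) {c : H R U Z₀}
    (hc : IsDeg k c) (h : ∀ y ∈ U', ∃ (W : Set Y) (g : X → F) (s : Y × F → X), y ∈ W ∧
      ChartV π U Z₀ U' W g s ∧ pull (fun v => s (y, v)) univ {0} τ = ω ∧
        pull (fun v => s (y, v)) univ {0} c = 0) : c = 0 := by
  obtain ⟨a, rfl⟩ := hb.2 c
  have : a = 0 := (isDeg_of_cup hτ hb.1 (by rwa [zero_add])).eq_zero_of_ev fun y hy => by
    obtain ⟨W, g, s, h1, h2, h3, h4⟩ := h y hy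
    rw [h2.fib_cup hπ hm ⟨hy, h1⟩, h3] at h4
    exact hω.eq_zero h4
  simp [this]

theorem ChartV.res_eq (h : ChartV π U Z₀ U' W g s) (hω : Fib d ω) (hπ : Ext π U) (hm : MapsTo π U U') {τ : H R U Z₀}
    (hτ : IsDeg d τ)
    (k : ∀ y ∈ U' ∩ W, pull (fun v => s (y, v)) univ {0} τ = ω) :
    pull id (U ∩ π ⁻¹' W) Z₀ τ = pull g (U ∩ π ⁻¹' W) Z₀ ω := by
  refine sub_eq_zero.1 (eq_zero_of_fibV hω (U' := U' ∩ W) (hπ.mono inter_subset_left)
    (fun x k => ⟨hm k.1, k.2⟩)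
    (hω.deg.pull _ _ _) (h.bij hω hπ hm) ((hτ.pull _ _ _).sub (hω.deg.pull _ _ _))
    fun y hy => ⟨W, g, s, hy.2, h.restrict W, h.fib_g hy, ?_⟩)
  rw [map_sub, h.fib_g hy, pull_pull' (F := fun v => s (y, v)) (h.ok_fib hy (h.mem' hy))
    (.id inter_subset_left fun _ _ k => k) fun _ _ => rfl, k y hy, sub_self]

/-- The Thom isomorphism. -/
theorem thom_isoV (hω : Fib d ω) (hπ : Ext π U) (hm : MapsTo π U U') (hc' : Cl U' Z') (hc : Cl U Z₀)
    (h1 : ∀ x ∈ U, x ∈ Z₁ ↔ π x ∈ Z') (h2 : ∀ x ∈ U, x ∈ Z ↔ π x ∈ Z' ∧ x ∈ Z₀) {τ : H R U Z₀}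
    (hτ : IsDeg d τ)
    (h : ∀ y ∈ U', ∃ (W : Set Y) (g : X → F) (s : Y × F → X), y ∈ W ∧
      ChartV π U Z₀ U' W g s ∧ ∀ y ∈ U' ∩ W, pull (fun v => s (y, v)) univ {0} τ = ω) :
    Function.Bijective fun a : H R U' Z' => cup U Z (pull π U Z₁ a) τ := by
  refine cup_bij_local hπ hm hc' hc h1 h2 hτ fun y hy => ?_
  obtain ⟨W, g, s, k1, k2, k3⟩ := h y hy
  refine ⟨W, k2.op, k1, fun W' o k => ?_⟩
  convert (k2.mono o k).bij hω hπ hm using 1
  funext a
  rw [← (k2.mono o k).res_eq hω hπ hm hτ fun y e => k3 y ⟨e.1, k e.2⟩,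
    cup_res_right (.id inter_subset_left fun _ _ k => k) (cupOK fun _ _ _ k => k)]

/-- Existence of Thom classes. -/
theorem exists_thomV {I : Type} {W : I → Set Y} {g : I → X → F} {s : I → Y × F → X}
    (hω : Fib d ω) (hπ : Ext π U) (hm : MapsTo π U U') (hc : Cl U Z₀)
    (h : ∀ i, ChartV π U Z₀ U' (W i) (g i) (s i))
    (cov : ∀ y ∈ U', ∃ i, y ∈ W i)
    (lin : ∀ i j, ∀ y ∈ U' ∩ W i, y ∈ W j → 
      pull (fun v => g j (s i (y, v))) univ {0} ω = ω) :
    ∃ τ : H R U Z₀, IsDeg d τ ∧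
      ∀ i, ∀ y ∈ U' ∩ W i, pull (fun v => s i (y, v)) univ {0} τ = ω := by
  have hπ' := hπ.continuousOn
  have res : ∀ (V : Set Y) (V' : Set X), U ∩ π ⁻¹' V ⊆ V' → ∀ (τ : H R V' Z₀) i,
      ∀ y ∈ U' ∩ W i, y ∈ V → pull (fun v => s i (y, v)) univ {0} (pull id (U ∩ π ⁻¹' V) Z₀ τ) =
        pull (fun v => s i (y, v)) univ {0} τ := fun V V' k τ i y hy e =>
    pull_pull' ((h i).ok_fib (V := U ∩ π ⁻¹' V) hy fun v =>
      ⟨(h i).mem y hy v, by rwa [mem_preimage, (h i).fst y hy]⟩)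
      (.id k fun _ _ k => k) (fun _ _ => rfl) τ
  have sub : ∀ {V V' : Set Y}, V ⊆ V' → U ∩ π ⁻¹' V ⊆ U ∩ π ⁻¹' V' := fun k =>
    inter_subset_inter_right _ (preimage_mono k)
  have nh : ∀ {V : Set Y} (V' : Set Y), IsOpen V → ∀ x ∈ U ∩ π ⁻¹' V,
      U ∩ π ⁻¹' V ∈ 𝓝[U ∩ π ⁻¹' V'] x := fun V' o x k => nhdsWithin_mono _ inter_subset_left
    (inter_mem self_mem_nhdsWithin (hπ' x k.1 (o.mem_nhds k.2)))
  obtain ⟨V, -, v1, τ, t1, t2⟩ := cover_ind (fun V => ∃ τ : H R (U ∩ π ⁻¹' V) Z₀,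
    IsDeg d τ ∧
      ∀ i, ∀ y ∈ U' ∩ W i, y ∈ V → pull (fun v => s i (y, v)) univ {0} τ = ω) U'
    ⟨0, .zero _, fun _ _ _ k => k.elim⟩
    (fun V V' _ _ k ⟨τ, t1, t2⟩ => ⟨_, t1.pull id _ _, fun i y hy e => by
      rw [res V' _ (sub k) τ i y hy e, t2 i y hy (k e)]⟩)
    (fun V V' o o' ⟨τ, t1, t2⟩ ⟨τ', t1', t2'⟩ => by
      have hπ1 := hπ.mono (inter_subset_left (t := π ⁻¹' (V ∩ V')))
      have hm1 : MapsTo π (U ∩ π ⁻¹' (V ∩ V')) (U' ∩ (V ∩ V')) := fun x k => ⟨hm k.1, k.2⟩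
      have dd := t1.pull id (U ∩ π ⁻¹' (V ∩ V')) Z₀
      obtain ⟨c, c1, c2⟩ := mv_glue (C := U ∩ π ⁻¹' (V ∩ V')) (D := U ∩ π ⁻¹' (V ∪ V')) (nh V' o)
        (nh V o') (by rw [preimage_inter, inter_inter_distrib_left])
        (by rw [preimage_union, inter_union_distrib_left]) τ τ' (sub_eq_zero.1 (eq_zero_of_fibV hω hπ1
          hm1 dd (thom_isoV hω hπ1 hm1 (.univ _) (hc.mono inter_subset_left) (by simp) (by simp) dd
            fun y hy => by
              obtain ⟨i, hi⟩ := cov y hy.1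
              exact ⟨_, _, _, hi, (h i).restrict _, fun y e => by
                rw [res _ _ (sub inter_subset_left) τ i y ⟨e.1.1, e.2⟩ e.1.2,
                  t2 i y ⟨e.1.1, e.2⟩ e.1.2.1]⟩) (dd.sub (t1'.pull _ _ _)) fun y hy => by
          obtain ⟨i, hi⟩ := cov y hy.1
          have a := (res _ _ (sub inter_subset_left) τ i y ⟨hy.1, hi⟩ hy.2).trans
            (t2 i y ⟨hy.1, hi⟩ hy.2.1)
          exact ⟨_, _, _, hi, (h i).restrict _, a, by
            rw [map_sub, a, res _ _ (sub inter_subset_right) τ' i y ⟨hy.1, hi⟩ hy.2,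
              t2' i y ⟨hy.1, hi⟩ hy.2.2, sub_self]⟩))
      refine ⟨_, isDeg_prj _ c, fun i y hy e => ?_⟩
      rw [pull_prj, ← isDeg_iff.1 hω.deg]
      congr 1
      rcases e with e | e
      · rw [← res V _ (sub subset_union_left) c i y hy e, c1, t2 i y hy e]
      · rw [← res V' _ (sub subset_union_right) c i y hy e, c2, t2' i y hy e])
    (fun V o dj hV => by
      choose τ t1 t2 using hV
      obtain ⟨c, c1⟩ := disj_glue hπ' o dj τ t1
      refine ⟨_, isDeg_prj _ c, fun i y hy e => ?_⟩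
      obtain ⟨k, e⟩ := mem_iUnion.1 e
      rw [pull_prj, ← isDeg_iff.1 hω.deg, ← res (V k) _ (sub (subset_iUnion V k)) c i y hy e,
        c1, t2 k i y hy e])
    (fun y hy => by
      obtain ⟨j, hj⟩ := cov y hy
      refine ⟨W j, (h j).op, hj, _, hω.deg.pull (g j) _ _, fun i y hy e => ?_⟩
      have a : ∀ v, s i (y, v) ∈ U ∩ π ⁻¹' W j := fun v =>
        ⟨(h i).mem y hy v, by rwa [mem_preimage, (h i).fst y hy]⟩
      rw [pull_pull ((h i).ok_fib hy a) (h j).ok_g]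
      exact lin i j y hy e)
  refine ⟨pull id U Z₀ τ, t1.pull _ _ _, fun i y hy => ?_⟩
  rw [pull_pull' (F := fun v => s i (y, v)) ((h i).ok_fib hy ((h i).mem y hy))
    (.id (subset_inter subset_rfl fun x k => v1 (hm k)) fun _ _ k => k) fun _ _ => rfl,
    t2 i y hy (v1 hy.1)]

end Pool.Agent.Work.MP_8c604c_gt.TZ
end
end

-- merged part: Pool.Agent.Work.MP_8c604c_gt.TZ.OrR
section
/-! The orientation class of `ℝ ^ r`; linear maps act by the sign of the determinant. -/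

noncomputable section

set_option linter.unusedSectionVars false

namespace Pool.Agent.Work.MP_8c604c_gt.TZ

open Set Topology Filter

variable {R : Type} [CommRing R] {X Y J J' : Type}

/-- The product of the jump cocycles of a list of real functions. -/
def ocR (w : J → X → ℝ) (L : List J) : List X → R :=
  L.foldr (fun j φ => cupc (jump (w j)) φ) onec

theorem ocR_cons (w : J → X → ℝ) (j : J) (L : List J) :
    (ocR w (j :: L) : List X → R) = cupc (jump (w j)) (ocR w L) := rfl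

theorem ocR_nil_apply (w : J → X → ℝ) (L : List J) : (ocR w L [] : R) = 0 := by
  cases L
  · simp [ocR, onec]
  · rfl

theorem ocR_append (w : J → X → ℝ) (L L' : List J) :
    (ocR w (L ++ L') : List X → R) = cupc (ocR w L) (ocR w L') := by
  induction L with
  | nil => exact (onec_cupc (ocR_nil_apply w L')).symm
  | cons j L ih => rw [List.cons_append, ocR_cons, ocR_cons, ih, cupc_assoc]

theorem ocR_map (w : J → X → ℝ) (e : J' → J) (L : List J') :
    (ocR w (L.map e) : List X → R) = ocR (w ∘ e) L := by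
  induction L with
  | nil => rfl
  | cons j L ih => rw [List.map_cons, ocR_cons, ocR_cons, ih]; rfl

theorem pullc_ocR (f : X → Y) (w : J → Y → ℝ) (L : List J) :
    pullc f (ocR w L : List Y → R) = ocR (fun j x => w j (f x)) L := by
  induction L with
  | nil => exact pullc_onec f
  | cons j L ih => rw [ocR_cons, ocR_cons, pullc_cupc, ih, pullc_jump]; rfl

variable [TopologicalSpace X] [TopologicalSpace Y] {U Z : Set X} {U' Z' : Set Y}

theorem hom_ocR (w : J → X → ℝ) (L : List J) : Hom L.length (ocR w L : List X → R) := by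
  induction L with
  | nil => exact hom_onec
  | cons j L ih =>
    rw [ocR_cons, List.length_cons, Nat.cast_succ, add_comm]
    exact (hom_jump (w j)).cupc ih

theorem ocR_zc {w : J → X → ℝ} (hw : ∀ j, ∀ x ∈ U, ContinuousAt (w j) x) (L : List J) :
    ∀ {Z : Set X}, (∀ x ∈ U, (∀ j ∈ L, w j x = 0) → x ∈ Z) → ocR w L ∈ Zc R U Z := by
  induction L with
  | nil => exact fun h => onec_zc fun x k => h x k (by simp)
  | cons j L ih =>
    exact fun h => (cupOK (Z₁ := {x | w j x = 0}) (Z₂ := {x | ∀ j ∈ L, w j x = 0}) fun x k a b =>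
      h x k (List.forall_mem_cons.2 ⟨a, b⟩)).zc (jump_zc (hw j) fun _ _ k => k) (ih fun _ _ k => k)

theorem jump_mul_pos {a : ℝ} (ha : 0 < a) (c : X → ℝ) : 
    (jump (fun x => a * c x) : List X → R) = jump c := by
  funext l
  rcases l with _ | ⟨x, _ | ⟨y, _ | ⟨d, l⟩⟩⟩ <;> simp [jump, ha]

theorem cls_jump_neg {c : X → ℝ} (hc : ∀ x ∈ U, ContinuousAt c x)
    (h : ∀ x ∈ U, c x = 0 → x ∈ Z) : 
    cls U Z (jump fun x => -c x) = -(cls U Z (jump c) : H R U Z) := by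
  have hc' : ∀ x ∈ U, ContinuousAt (fun x => -c x) x := fun x k => (hc x k).neg
  have m := jump_zc (R := R) hc h
  have m' := jump_zc (R := R) hc' fun x k e => h x k (neg_eq_zero.1 e)
  rw [eq_neg_iff_add_eq_zero, ← cls_add m' m, cls_eq_zero (add_mem m' m)]
  refine ⟨(zc fun x => if 0 < -c x then 1 else 0) + (zc fun x => if 0 < c x then 1 else 0) - onec,
    sub_mem (add_mem (zc_bd _) (zc_bd _)) onec_bd,
    lz_cover (A := U ∩ {x | 0 < c x}) (B := U ∩ {x | c x < 0}) ?_ ?_ fun x k e => ⟨k.1, ?_⟩, ?_⟩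
  · rw [add_sub_assoc]
    exact add_mem (lz_anti (by exact fun x k => ⟨k.1, neg_neg_of_pos (a := c x) k.2⟩)
      (step_lz_neg hc'))
      (step_lz_pos hc)
  · rw [add_sub_right_comm]
    exact add_mem (lz_anti (by exact fun x k => ⟨k.1, (neg_pos (a := c x)).2 k.2⟩)
      (step_lz_pos hc'))
      (step_lz_neg hc)
  · exact lt_of_le_of_ne (not_lt.1 fun a => e ⟨k.1, a⟩) fun a => k.2 (h x k.1 a)
  · rw [map_sub, map_add, dl_onec, ← jump_eq c, ← jump_eq (fun x => -c x)]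
    simp

theorem cls_jump_mul {c : X → ℝ} (hc : ∀ x ∈ U, ContinuousAt c x)
    (h : ∀ x ∈ U, c x = 0 → x ∈ Z) {a : ℝ} (ha : a ≠ 0) :
    cls U Z (jump fun x => a * c x) = (SignType.sign a : R) • (cls U Z (jump c) : H R U Z) := by
  rcases lt_or_gt_of_ne ha with k | k
  · have : (fun x => a * c x) = fun x => -a * -c x := by funext x; ring
    rw [this, jump_mul_pos (neg_pos.2 k), cls_jump_neg hc h, sign_neg k]
    simp
  · rw [jump_mul_pos k, sign_pos k]
    simp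

theorem ocR_scale {w : J → X → ℝ} (hw : ∀ j, ∀ x ∈ U, ContinuousAt (w j) x) {D : J → ℝ}
    (hD : ∀ j, D j ≠ 0) (L : List J) : ∀ {Z : Set X}, (∀ x ∈ U, (∀ j ∈ L, w j x = 0) → x ∈ Z) →
      cls U Z (ocR (fun j x => D j * w j x) L) =
        (SignType.sign (L.map D).prod : R) • (cls U Z (ocR w L) : H R U Z) := by
  have hw' : ∀ j, ∀ x ∈ U, ContinuousAt (fun x => D j * w j x) x := fun j x k =>
    continuousAt_const.mul (hw j x k)
  induction L with
  | nil => intro Z _; simp [ocR]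
  | cons j L ih =>
    intro Z h
    have c := cupOK (Z₁ := {x | w j x = 0}) (Z₂ := {x | ∀ j ∈ L, w j x = 0}) fun x k a b =>
      h x k (List.forall_mem_cons.2 ⟨a, b⟩)
    rw [ocR_cons, ocR_cons, ← cup_cls c (jump_zc (hw' j) fun _ _ k => by simpa [hD j] using k)
      (ocR_zc hw' L fun _ _ k i hi => by simpa [hD i] using k i hi),
      ih (Z := {x | ∀ j ∈ L, w j x = 0}) fun _ _ k => k,
      cls_jump_mul (Z := {x | w j x = 0}) (hw j) (fun _ _ k => k) (hD j),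
      ← cup_cls c (jump_zc (hw j) fun _ _ k => k) (ocR_zc hw L fun _ _ k => k)]
    simp only [map_smul, LinearMap.smul_apply, smul_smul, List.map_cons, List.prod_cons, sign_mul,
      SignType.coe_mul, mul_comm]

theorem orR_eq (r : ℕ) : orR R r = cls univ {0} (ocR (fun j v => v j) (List.finRange r)) := rfl

theorem orR_zc (r : ℕ) : ocR (fun j v => v j) (List.finRange r) ∈
    Zc R (univ : Set (Fin r → ℝ)) {0} :=
  ocR_zc (fun j _ _ => (continuous_apply j).continuousAt) _ fun _ _ k =>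
    funext fun j => k j (by simp)

theorem isDeg_orR (r : ℕ) : IsDeg r (orR R r) :=
  isDeg_cls (orR_zc r) (by
    have := hom_ocR (R := R) (fun j (v : Fin r → ℝ) => v j) (List.finRange r)
    rwa [List.length_finRange] at this)

theorem pull_orR {r : ℕ} {F : X → Fin r → ℝ} (hF : ∀ x ∈ U, ContinuousAt F x)
    (h : ∀ x ∈ U, F x = 0 → x ∈ Z) :
    pull F U Z (orR R r) = cls U Z (ocR (fun j x => F x j) (List.finRange r)) := by
  have a : Adm F U Z univ {0} := ⟨hF, fun _ _ => trivial, fun x k => ⟨trivial, fun e =>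
    k.2 (h x k.1 e)⟩⟩
  rw [orR_eq, a.pull_cls (orR_zc r), pullc_ocR]

theorem ok_lin {A B : Type} [NormedAddCommGroup A] [NormedSpace ℝ A] [FiniteDimensional ℝ A]
    [NormedAddCommGroup B] [NormedSpace ℝ B] {T : A →ₗ[ℝ] B} (hT : Function.Injective T) :
    Ok T univ {0} univ {0} :=
  .of_mem (.of_continuous T.continuous_of_finiteDimensional _) (fun _ _ => trivial)
    fun _ _ k => hT (k.trans T.map_zero.symm)

theorem orR_mat {r : ℕ} (M : Matrix (Fin r) (Fin r) ℝ) (hM : M.det ≠ 0) :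
    pull M.toLin' univ {0} (orR R r) = (SignType.sign M.det : R) • orR R r := by
  have inj : ∀ M : Matrix (Fin r) (Fin r) ℝ, M.det ≠ 0 → Function.Injective M.toLin' :=
    fun M h => (injective_iff_map_eq_zero _).2 fun v k => Matrix.eq_zero_of_mulVec_eq_zero h k
  refine Matrix.diagonal_transvection_induction_of_det_ne_zero
    (fun M => pull M.toLin' univ {0} (orR R r) = (SignType.sign M.det : R) • orR R r) M hM
    (fun D hD => ?_) (fun t => ?_) fun A B hA hB a b => ?_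
  · have hD' : ∀ j, D j ≠ 0 := fun j =>
      Finset.prod_ne_zero_iff.1 (Matrix.det_diagonal (d := D) ▸ hD) j (Finset.mem_univ j)
    rw [pull_orR (fun _ _ => (LinearMap.continuous_of_finiteDimensional _).continuousAt)
      (fun _ => (ok_lin (inj _ hD)).mem), Matrix.det_diagonal, Fin.prod_univ_def, orR_eq,
      ← ocR_scale (Z := {0}) (fun j _ _ => (continuous_apply j).continuousAt) hD' _
        fun _ _ k => funext fun j => k j (by simp)]
    simp [Matrix.mulVec_diagonal]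
  · rw [t.det, sign_one, SignType.coe_one, one_smul,
      ← pull_htpy' (f := id) (g := t.toMatrix.toLin') (U := univ) (U' := univ) (Z := {0})
      (Z' := {0}) (F := fun z => z.1 + z.2 • (Matrix.single t.i t.j t.c).toLin' z.1)
      (.of_continuous (continuous_fst.add (continuous_snd.smul
        ((LinearMap.continuous_of_finiteDimensional _).comp continuous_fst))) _)
      (fun _ _ _ _ => trivial) (fun v _ s _ k => ?_) (by simp)
      (by simp [Matrix.TransvectionStruct.toMatrix, Matrix.transvection]),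
      pull_id]
    refine Matrix.eq_zero_of_mulVec_eq_zero (M := Matrix.transvection t.i t.j (s * t.c))
      (by rw [Matrix.det_transvection_of_ne _ _ t.hij]; exact one_ne_zero) ?_
    rw [Matrix.transvection, Matrix.add_mulVec, Matrix.one_mulVec, ← smul_eq_mul,
      ← Matrix.smul_single, Matrix.smul_mulVec]
    exact k
  · rw [← pull_pull' (F := (A * B).toLin') (ok_lin (inj B hB)) (ok_lin (inj A hA))
      (by simp), a, map_smul, b, smul_smul, Matrix.det_mul, sign_mul, SignType.coe_mul]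

variable [RegularSpace X] [SecondCountableTopology X]

theorem ocR_bij {w : J → X → ℝ} (hw : ∀ j, Continuous (w j)) {Φ : J → X × ℝ → X}
    (hΦ : ∀ j, Continuous (Φ j)) (e0 : ∀ j x, Φ j (x, 0) = x)
    (e1 : ∀ j x t, w j (Φ j (x, t)) = w j x + t) (e1' : ∀ i j x t, i ≠ j → w i (Φ j (x, t)) = w i x)
    (e2 : ∀ j, ∀ x ∈ U, ∀ t, Φ j (x, t) ∈ U) (L : List J) (hL : L.Nodup) :
    ∀ {Z Z₀ Z₁ : Set X}, Cl U Z → (∀ j ∈ L, ∀ x ∈ U, ∀ t, Φ j (x, t) ∈ Z → x ∈ Z) →
      (∀ x ∈ U, x ∈ Z₁ ↔ ∀ j ∈ L, w j x = 0) → (∀ x ∈ U, x ∈ Z₀ ↔ x ∈ Z ∧ x ∈ Z₁) →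
      Function.Bijective fun a : H R U Z => cup U Z₀ a (cls U Z₁ (ocR w L)) := by
  have hw' : ∀ j, ∀ x ∈ U, ContinuousAt (w j) x := fun j _ _ => (hw j).continuousAt
  induction L with
  | nil =>
    intro Z Z₀ Z₁ _ _ h1 h2
    have s : U ⊆ Z₁ := fun x k => (h1 x k).2 (by simp)
    convert res_bij_of_eq (R := R) (U := U) (Z := Z) (Z₁ := Z₀) fun x k => by simp [h2 x k, s k] using 1
    exact funext fun a => cup_one s (cupOK fun x k a b => (h2 x k).2 ⟨a, b⟩)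
      (.id subset_rfl fun x k a => (h2 x k).2 ⟨a, s k⟩) a
  | cons j L ih =>
    intro Z Z₀ Z₁ hc h0 h1 h2
    have b1 := jump_bij_flow (R := R) (Z₁ := {x | w j x = 0}) (Z₂ := Z ∩ {x | w j x = 0}) (hw j) hc
      (fun _ _ k => k) (fun _ _ k => k) (fun _ _ => Iff.rfl) (hΦ j) (e0 j) (e1 j) (e2 j)
      (h0 j (by simp))
    have b3 := ih hL.of_cons (Z := Z ∩ {x | w j x = 0}) (Z₀ := Z₀) (Z₁ := {x | ∀ j ∈ L, w j x = 0})
      (hc.inter (.of_isClosed (isClosed_eq (hw j) continuous_const) _))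
      (fun i hi x k t e => ⟨h0 i (by simp [hi]) x k _ e.1, by
        have := e.2
        rwa [mem_ofPred_eq, e1' j i x t fun a => hL.notMem (a ▸ hi)] at this⟩)
      (fun _ _ => Iff.rfl) fun x k => by simp [h2 x k, h1 x k, and_assoc]
    convert b3.comp b1 using 1
    funext a
    obtain ⟨φ, m, rfl⟩ := exists_cls a
    have d1 := cupOK (U := U) (Z₁ := Z) (Z₂ := {x | w j x = 0})
      (Z := Z ∩ {x | w j x = 0}) fun _ _ a b => ⟨a, b⟩
    have d3 := cupOK (U := U) (Z₁ := Z ∩ {x | w j x = 0}) (Z₂ := {x | ∀ j ∈ L, w j x = 0}) (Z := Z₀)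
      fun x k a b => (h2 x k).2 ⟨a.1, (h1 x k).2 (List.forall_mem_cons.2 ⟨a.2, b⟩)⟩
    have mj : jump (w j) ∈ Zc R U {x | w j x = 0} := jump_zc (hw' j) fun _ _ k => k
    simp only [Function.comp_apply]
    rw [cup_cls d1 m mj,
      cup_cls (cupOK fun x k a b => (h2 x k).2 ⟨a, b⟩) m (ocR_zc hw' _ fun x k => (h1 x k).2),
      cup_cls d3 (d1.zc m mj) (ocR_zc hw' _ fun _ _ k => k), ocR_cons, cupc_assoc]

theorem pull_fst_bijR {A : Type} [NormedAddCommGroup A] [NormedSpace ℝ A]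
    [SecondCountableTopology A] : Function.Bijective
    (pull Prod.fst (U ×ˢ (univ : Set A)) (Z ×ˢ univ) : H R U Z → _) :=
  pull_bij_of_section (s := fun y => (y, 0)) (F := fun z => (z.1.1, z.2 • z.1.2))
    (.of_mem (.of_continuous continuous_fst _) (fun _ k => k.1) fun _ _ k => ⟨k, trivial⟩)
    (.of_mem (.of_continuous (by fun_prop) _) (fun _ k => ⟨k, trivial⟩) fun _ _ k => k.1)
    (fun _ _ => rfl) (.of_continuous (by fun_prop) _) (fun _ k _ _ => ⟨k.1, trivial⟩)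
    (fun _ _ _ _ k => ⟨k.1, trivial⟩) (by simp) (by simp)

theorem fib_orR (r : ℕ) : Fib r (orR R r) := ⟨isDeg_orR r, fun Y _ _ _ U' Z' hc => by
  rw [pull_orR (Z := univ ×ˢ {0}) (fun _ _ => continuousAt_snd) (fun _ _ k => ⟨trivial, k⟩)]
  refine (ocR_bij (U := U' ×ˢ univ) (w := fun j (z : Y × (Fin r → ℝ)) => z.2 j)
    (fun _ => by fun_prop)
    (Φ := fun j (z : (Y × (Fin r → ℝ)) × ℝ) => (z.1.1, z.1.2 + (Pi.single j z.2 : Fin r → ℝ)))
    (fun j => by
      exact continuous_fst.fst.prodMk (continuous_fst.snd.add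
        ((continuous_single (A := fun _ : Fin r => ℝ) j).comp continuous_snd))) (by simp) (by simp)
    (fun i j x t h => by simp [h]) (fun _ _ k _ => ⟨k.1, trivial⟩) _ (List.nodup_finRange r)
    (Z := Z' ×ˢ univ) ((hc.preimage continuousOn_fst fun _ k => k.1).congr (by simp))
    (fun _ _ _ _ _ k => ⟨k.1, trivial⟩) (by simp [funext_iff]) (by simp)).comp pull_fst_bijR⟩

section Lin

variable {A B : Type} [NormedAddCommGroup A] [NormedSpace ℝ A] [FiniteDimensional ℝ A]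
  [NormedAddCommGroup B] [NormedSpace ℝ B] [FiniteDimensional ℝ B]

theorem Fib.lin {d : ℤ} {ω : H R (univ : Set B) {0}} (h : Fib d ω) (e : A ≃ₗ[ℝ] B) :
    Fib d (pull e univ {0} ω) :=
  h.homeo (e' := e.symm) e.toLinearMap.continuous_of_finiteDimensional
    e.symm.toLinearMap.continuous_of_finiteDimensional e.symm_apply_apply e.apply_symm_apply
    e.map_zero

/-- Linear isomorphisms act on the local cohomology by the sign of the determinant. -/
theorem pull_lin {T : A →ₗ[ℝ] A} (hT : Function.Injective T) (a : H R (univ : Set A) {0}) :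
    pull T univ {0} a = (SignType.sign (LinearMap.det T) : R) • a := by
  let b := Module.finBasis ℝ A
  obtain ⟨t, rfl⟩ := ((fib_orR (R := R) _).lin b.equivFun).gen a
  have hM : (LinearMap.toMatrix b b T).det ≠ 0 := by
    rw [LinearMap.det_toMatrix]
    exact ((LinearMap.isUnit_iff_ker_eq_bot T).2 (LinearMap.ker_eq_bot.2 hT)).map
      LinearMap.det |>.ne_zero
  have o1 : Ok b.equivFun univ {0} univ {0} := ok_lin (T := b.equivFun.toLinearMap)
    b.equivFun.injective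
  have o2 : Ok (LinearMap.toMatrix b b T).toLin' univ {0} univ {0} :=
    ok_lin ((injective_iff_map_eq_zero _).2 fun v k => Matrix.eq_zero_of_mulVec_eq_zero hM k)
  rw [map_smul, pull_pull (ok_lin hT) o1, ← pull_pull' o1 o2 (fun v _ => by
    funext i
    simp [← LinearMap.toMatrix_mulVec_repr b b T v]), orR_mat _ hM, map_smul,
    LinearMap.det_toMatrix, smul_comm]

theorem orR_lin {r : ℕ} {T : (Fin r → ℝ) →ₗ[ℝ] Fin r → ℝ} (hT : Function.Injective T) :
    pull T univ {0} (orR R r) = (SignType.sign (LinearMap.det T) : R) • orR R r := pull_lin hT _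

/-- Local cohomology of a real vector space lives in the degree of its dimension. -/
theorem isDeg_loc (a : H R (univ : Set A) {0}) : IsDeg (Module.finrank ℝ A) a := by
  obtain ⟨t, rfl⟩ := ((fib_orR (R := R) _).lin (Module.finBasis ℝ A).equivFun).gen a
  exact ((isDeg_orR _).pull _ _ _).smul t

end Lin

end Pool.Agent.Work.MP_8c604c_gt.TZ
end
end
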